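import Pool.Agent.Lib.MP_a17b09_nt.SP.StmtsSP99
import Pool.Agent.Lib.MP_a17b09_nt.CH.EndT98

/-!
Project SP, module SP6b: the final statement (law of two slots; almost all short progressions).
-/

set_option autoImplicit false

open Filter Topology Finset

namespace Pool.Agent.Lib.MP_a17b09_nt.SP

open Pool.Agent.Lib.MP_a17b09_nt.CH
open Pool.Agent.Lib.MP_a17b09_nt.CH.EndT
open Pool.Agent.Lib.MP_a17b09_nt.CH.EndS

namespace EndP27

/-- finitely many further elements do not matter -/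
theorem logNull_fin {E E' : Set ℕ} (h : LogNull E) (N1 : ℕ) (hE : ∀ n ∈ E', N1 ≤ n → n ∈ E) :
    LogNull E' := by
  intro ε hε
  obtain ⟨H0, hH0⟩ := h ε hε
  refine ⟨H0, fun H hH => ?_⟩
  obtain ⟨N0, hN0⟩ := hH0 H hH
  refine ⟨max N0 N1, fun N hN => ?_⟩
  refine le_trans (Finset.sum_le_sum fun n hn => ?_) (hN0 N ((le_max_left _ _).trans hN))
  rw [Finset.mem_Ioc] at hn
  have hn1 : N1 ≤ n := ((le_max_right _ _).trans hN).trans hn.1.le
  by_cases hm : n ∈ E'
  · rw [Set.indicator_of_mem hm, Set.indicator_of_mem (hE n hm hn1)]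
  · rw [Set.indicator_of_notMem hm]
    exact Set.indicator_nonneg (fun x _ => by positivity) n

/-- a monotone function that is at least `κ n` off a rare set is at least `c N` for all large
`N` -/
theorem lower_all' {C : ℕ → ℝ} (hmono : Monotone C) {κ : ℝ} (hκ : 0 < κ)
    (h : LogNull {n | C n < κ * n}) : ∃ c : ℝ, 0 < c ∧ ∀ᶠ N in atTop, c * N ≤ C N := by
  have h1 : Monotone (fun n : ℕ => min (C n) (κ * n)) := by
    intro m n hmn
    refine min_le_min (hmono hmn) ?_
    exact mul_le_mul_of_nonneg_left (by exact_mod_cast hmn) hκ.le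
  have h2 : LogNull {n : ℕ | κ / 2 < |min (C n) (κ * n) / n - κ|} := by
    refine logNull_fin h 1 fun n hn hn1 => ?_
    simp only [Set.mem_ofPred_eq] at hn ⊢
    by_contra hc
    push Not at hc
    have hn0 : (0 : ℝ) < n := by exact_mod_cast hn1
    rw [min_eq_right hc, mul_div_assoc, div_self hn0.ne', mul_one, sub_self, abs_zero] at hn
    linarith
  obtain ⟨c, hc, hN⟩ := lower_all h1 hκ h2
  exact ⟨c, hc, hN.mono fun N h => h.trans (min_le_left _ _)⟩

theorem count_bdd (hOn : StOn) {a b c : ℤ} (ha : 0 < a) (hD : b ^ 2 - 4 * a * c < 0) {h t₀ : ℕ}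
    (hh : 0 < h) {α β : ℝ} (hα : 0 < α) (hαβ : α < β) (P : ℕ → ℕ → Prop) :
    Bdd (fun N : ℕ => (pairCount a b c h t₀ α β P N : ℝ) / N) := by
  obtain ⟨B, hB⟩ := hOn a b c ha hD h hh t₀ α β hα hαβ
  refine ⟨|B|, fun N => ?_⟩
  rw [abs_div, Nat.abs_cast, Nat.abs_cast]
  rcases Nat.eq_zero_or_pos N with h0 | h0
  · subst h0; simp
  · have hN : (0 : ℝ) < N := by exact_mod_cast h0
    rw [div_le_iff₀ hN]
    have h1 : (pairCount a b c h t₀ α β P N : ℝ) ≤
        ((∑ t ∈ (Finset.Icc 1 N).filter (fun t => t ≡ t₀ [MOD h]),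
          (nearG a b c α β t).card : ℕ) : ℝ) := by exact_mod_cast count_le ha hD P N
    refine h1.trans ((hB N).trans ?_)
    exact mul_le_mul_of_nonneg_right (le_abs_self B) hN.le

/-- from means to rare exceptions, for the number of pairs -/
theorem pair_null (hOn : StOn) (hU : StMeanU) {a b c : ℤ} (ha : 0 < a)
    (hD : b ^ 2 - 4 * a * c < 0) {h t₀ : ℕ} (hh : 0 < h) {α β : ℝ} (hα : 0 < α) (hαβ : α < β)
    (P : ℕ → ℕ → Prop) (l : ℝ)
    (hM : ∀ M : LMean, M.E (fun N : ℕ => |(pairCount a b c h t₀ α β P N : ℝ) / N - l|) = 0)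
    {ε : ℝ} (hε : 0 < ε) :
    LogNull {N : ℕ | ε * N < |(pairCount a b c h t₀ α β P N : ℝ) - l * N|} := by
  have h1 := logNull_of hU ((count_bdd hOn ha hD hh hα hαβ P).sub (Bdd.const l)).abs
    (fun N => abs_nonneg _) hM hε
  refine logNull_fin h1 1 fun N hN hN1 => ?_
  simp only [Set.mem_ofPred_eq] at hN ⊢
  have hN0 : (0 : ℝ) < N := by exact_mod_cast hN1
  have e1 : (pairCount a b c h t₀ α β P N : ℝ) / N - l =
      ((pairCount a b c h t₀ α β P N : ℝ) - l * N) / N := by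
    field_simp
  rw [e1, abs_div, Nat.abs_cast, lt_div_iff₀ hN0]
  exact hN

theorem cntJ_mod (a b c : ℤ) (J k r t d : ℕ) : cntJ a b c J k (r % k) t d = cntJ a b c J k r t d := by
  unfold cntJ
  congr 1
  refine Finset.filter_congr fun j _ => ?_
  constructor
  · exact fun h => h.trans (Nat.mod_modEq r k)
  · exact fun h => h.trans (Nat.mod_modEq r k).symm

/-- a progression is bad -/
def BadP (a b c : ℤ) (J k : ℕ) (η : ℝ) (t d : ℕ) : Prop :=
  ∃ r : ℕ, η * J < |(cntJ a b c J k r t d : ℝ) - J / k|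

/-- Chebyshev -/
theorem cheb {a b c : ℤ} (ha : 0 < a) (hD : b ^ 2 - 4 * a * c < 0) (h t₀ : ℕ) (α β : ℝ) {J k : ℕ}
    (hk : 0 < k) {η : ℝ} (hη : 0 < η) (N : ℕ) :
    (η * J) ^ 2 * (pairCount a b c h t₀ α β (BadP a b c J k η) N : ℝ) ≤
      SqP a b c α β h t₀ J k N := by
  classical
  rw [count_eq ha hD]
  unfold SqP
  push_cast
  rw [Finset.mul_sum]
  refine Finset.sum_le_sum fun t _ => ?_
  have h0 : ∀ d, 0 ≤ ∑ r ∈ Finset.range k, ((cntJ a b c J k r t d : ℝ) - J / k) ^ 2 :=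
    fun d => Finset.sum_nonneg fun _ _ => sq_nonneg _
  calc (η * J) ^ 2 * (((nearG a b c α β t).filter (BadP a b c J k η t)).card : ℝ)
      = ∑ d ∈ (nearG a b c α β t).filter (BadP a b c J k η t), (η * J) ^ 2 := by
        rw [Finset.sum_const, nsmul_eq_mul, mul_comm]
    _ ≤ ∑ d ∈ (nearG a b c α β t).filter (BadP a b c J k η t),
          ∑ r ∈ Finset.range k, ((cntJ a b c J k r t d : ℝ) - J / k) ^ 2 := by
        refine Finset.sum_le_sum fun d hd => ?_
        obtain ⟨r, hr⟩ := (Finset.mem_filter.1 hd).2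
        have h1 : (η * J) ^ 2 ≤ ((cntJ a b c J k (r % k) t d : ℝ) - J / k) ^ 2 := by
          rw [cntJ_mod, ← sq_abs ((cntJ a b c J k r t d : ℝ) - J / k)]
          exact pow_le_pow_left₀ (by positivity) hr.le 2
        refine h1.trans ?_
        exact Finset.single_le_sum (f := fun r => ((cntJ a b c J k r t d : ℝ) - J / k) ^ 2)
          (fun _ _ => sq_nonneg _) (Finset.mem_range.2 (Nat.mod_lt _ hk))
    _ ≤ ∑ d ∈ nearG a b c α β t, ∑ r ∈ Finset.range k, ((cntJ a b c J k r t d : ℝ) - J / k) ^ 2 :=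
        Finset.sum_le_sum_of_subset_of_nonneg (Finset.filter_subset _ _) fun d _ _ => h0 d

theorem sq_bdd (hOn : StOn) {a b c : ℤ} (ha : 0 < a) (hD : b ^ 2 - 4 * a * c < 0) {h t₀ : ℕ}
    (hh : 0 < h) {α β : ℝ} (hα : 0 < α) (hαβ : α < β) (J k : ℕ) (hk : 0 < k) :
    Bdd (fun N : ℕ => SqP a b c α β h t₀ J k N / N) := by
  obtain ⟨B, hB⟩ := hOn a b c ha hD h hh t₀ α β hα hαβ
  have hk0 : (0 : ℝ) < k := by exact_mod_cast hk
  have hk1 : (1 : ℝ) ≤ k := by exact_mod_cast hk
  refine ⟨k * J ^ 2 * |B|, fun N => ?_⟩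
  have h0 : 0 ≤ SqP a b c α β h t₀ J k N :=
    Finset.sum_nonneg fun _ _ => Finset.sum_nonneg fun _ _ => Finset.sum_nonneg fun _ _ =>
      sq_nonneg _
  rw [abs_of_nonneg (div_nonneg h0 (Nat.cast_nonneg N))]
  rcases Nat.eq_zero_or_pos N with h1 | h1
  · subst h1
    simp only [Nat.cast_zero, div_zero]
    positivity
  · have hN : (0 : ℝ) < N := by exact_mod_cast h1
    rw [div_le_iff₀ hN]
    have h2 : SqP a b c α β h t₀ J k N ≤ k * J ^ 2 *
        ((∑ t ∈ (Finset.Icc 1 N).filter (fun t => t ≡ t₀ [MOD h]),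
          (nearG a b c α β t).card : ℕ) : ℝ) := by
      unfold SqP
      push_cast
      rw [Finset.mul_sum]
      refine Finset.sum_le_sum fun t _ => ?_
      have h3 : ∀ d ∈ nearG a b c α β t,
          ∑ r ∈ Finset.range k, ((cntJ a b c J k r t d : ℝ) - J / k) ^ 2 ≤ k * J ^ 2 := by
        intro d _
        have h4 : ∀ r ∈ Finset.range k, ((cntJ a b c J k r t d : ℝ) - J / k) ^ 2 ≤ J ^ 2 := by
          intro r _
          have h5 : (cntJ a b c J k r t d : ℝ) ≤ J := by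
            have : cntJ a b c J k r t d ≤ J := by
              unfold cntJ
              exact (Finset.card_filter_le _ _).trans (by rw [Finset.card_range])
            exact_mod_cast this
          have h6 : (0 : ℝ) ≤ cntJ a b c J k r t d := Nat.cast_nonneg _
          have h7 : (0 : ℝ) ≤ J / k := by positivity
          have h8 : (J : ℝ) / k ≤ J := div_le_self (Nat.cast_nonneg _) hk1
          exact sq_le_sq' (by linarith) (by linarith)
        refine (Finset.sum_le_sum h4).trans ?_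
        rw [Finset.sum_const, Finset.card_range, nsmul_eq_mul]
      refine (Finset.sum_le_sum h3).trans ?_
      rw [Finset.sum_const, nsmul_eq_mul]
      linarith
    have h9 : B * N ≤ |B| * N := mul_le_mul_of_nonneg_right (le_abs_self B) hN.le
    have h10 : (0 : ℝ) ≤ k * J ^ 2 := by positivity
    calc SqP a b c α β h t₀ J k N ≤ k * J ^ 2 *
        ((∑ t ∈ (Finset.Icc 1 N).filter (fun t => t ≡ t₀ [MOD h]),
          (nearG a b c α β t).card : ℕ) : ℝ) := h2
      _ ≤ k * J ^ 2 * (|B| * N) := mul_le_mul_of_nonneg_left ((hB N).trans h9) h10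
      _ = k * J ^ 2 * |B| * N := by ring

/-- rarely many bad progressions -/
theorem bad_null (hOn : StOn) (hU : StMeanU) {a b c : ℤ} (ha : 0 < a)
    (hD : b ^ 2 - 4 * a * c < 0) {h t₀ : ℕ} (hh : 0 < h) {α β : ℝ} (hα : 0 < α) (hαβ : α < β)
    {J k : ℕ} (hJ : 0 < J) (hk : 0 < k) {η κ : ℝ} (hη : 0 < η) (hκ : 0 < κ)
    (hM : ∀ M : LMean, M.E (fun N : ℕ => |SqP a b c α β h t₀ J k N / N -
      κ * (J * (1 - 1 / k))|) = 0) {ε : ℝ} (hε : 0 < ε) :
    LogNull {N : ℕ | (1 / (η ^ 2 * J) + ε) * κ * N <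
      (pairCount a b c h t₀ α β (BadP a b c J k η) N : ℝ)} := by
  have hJ0 : (0 : ℝ) < J := by exact_mod_cast hJ
  have hk0 : (0 : ℝ) < k := by exact_mod_cast hk
  have hεp : 0 < ε * κ * (η * J) ^ 2 := by positivity
  have h1 := logNull_of hU ((sq_bdd hOn ha hD hh hα hαβ J k hk).sub
    (Bdd.const (κ * (J * (1 - 1 / k))))).abs (fun N => abs_nonneg _) hM hεp
  refine logNull_fin h1 1 fun N hN hN1 => ?_
  simp only [Set.mem_ofPred_eq] at hN ⊢
  have hN0 : (0 : ℝ) < N := by exact_mod_cast hN1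
  have h2 := cheb ha hD h t₀ α β hk hη (J := J) N
  set X : ℝ := (pairCount a b c h t₀ α β (BadP a b c J k η) N : ℝ) with hX
  set Y : ℝ := SqP a b c α β h t₀ J k N with hY
  refine lt_of_lt_of_le ?_ (le_abs_self _)
  have h3 : (η * J) ^ 2 * ((1 / (η ^ 2 * J) + ε) * κ * N) < Y :=
    (mul_lt_mul_of_pos_left hN (by positivity)).trans_le h2
  have h4 : (η * J) ^ 2 * ((1 / (η ^ 2 * J) + ε) * κ * N) =
      (κ * J + ε * κ * (η * J) ^ 2) * N := by
    field_simp
  rw [h4] at h3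
  have h5 : κ * J + ε * κ * (η * J) ^ 2 < Y / N := by
    rw [lt_div_iff₀ hN0]; exact h3
  have h6 : κ * (J * (1 - 1 / k)) ≤ κ * J := by
    refine mul_le_mul_of_nonneg_left ?_ hκ.le
    have : 0 < 1 / (k : ℝ) := by positivity
    exact mul_le_of_le_one_right hJ0.le (by linarith)
  linarith

/-- the pairs split into good and bad ones -/
theorem count_split {a b c : ℤ} (ha : 0 < a) (hD : b ^ 2 - 4 * a * c < 0) (h t₀ : ℕ) (α β : ℝ)
    (P : ℕ → ℕ → Prop) (N : ℕ) :
    pairCount a b c h t₀ α β (fun _ _ => True) N = pairCount a b c h t₀ α β P N +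
      pairCount a b c h t₀ α β (fun t d => ¬ P t d) N := by
  classical
  rw [count_eq ha hD, count_eq ha hD, count_eq ha hD, ← Finset.sum_add_distrib]
  refine Finset.sum_congr rfl fun t _ => ?_
  rw [Finset.filter_true, Finset.card_filter_add_card_filter_not]

/-- many good progressions at all large scales -/
theorem good_lower {a b c : ℤ} (ha : 0 < a)
    (hD : b ^ 2 - 4 * a * c < 0) {h t₀ : ℕ} {α β : ℝ}
    {J k : ℕ} (hJ : 0 < J) {η κ : ℝ} (hη : 0 < η) (hκ : 0 < κ)
    (hlim : Tendsto (fun N : ℕ => (pairCount a b c h t₀ α β (fun _ _ => True) N : ℝ) / N) atTop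
      (𝓝 κ))
    (hbad : ∀ ε : ℝ, 0 < ε → LogNull {N : ℕ | (1 / (η ^ 2 * J) + ε) * κ * N <
      (pairCount a b c h t₀ α β (BadP a b c J k η) N : ℝ)}) (hη1 : 1 < η ^ 2 * J) :
    ∃ c' : ℝ, 0 < c' ∧ ∀ᶠ N : ℕ in atTop, c' * N ≤
      (pairCount a b c h t₀ α β (fun t d => ¬ BadP a b c J k η t d) N : ℝ) := by
  have hJ0 : (0 : ℝ) < J := by exact_mod_cast hJ
  have hθ : 0 < 1 - 1 / (η ^ 2 * J) := by
    rw [sub_pos, div_lt_one (by positivity)]
    exact hη1
  set θ := 1 - 1 / (η ^ 2 * J) with hθd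
  have hmono : Monotone (fun N : ℕ =>
      (pairCount a b c h t₀ α β (fun t d => ¬ BadP a b c J k η t d) N : ℝ)) := by
    intro m n hmn
    exact Nat.cast_le.2 (count_mono _ hmn)
  refine lower_all' hmono (κ := κ * θ / 2) (by positivity) ?_
  have h1 : ∀ᶠ N : ℕ in atTop, (1 - θ / 4) * κ <
      (pairCount a b c h t₀ α β (fun _ _ => True) N : ℝ) / N := by
    apply hlim.eventually_const_lt
    nlinarith
  obtain ⟨N1, hN1⟩ := h1.exists_forall_of_atTop
  refine logNull_fin (hbad (θ / 4) (by positivity)) (max N1 1) fun N hN hN2 => ?_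
  simp only [Set.mem_ofPred_eq] at hN ⊢
  have hN0 : (0 : ℝ) < N := by
    have : 0 < N := (le_max_right N1 1).trans hN2
    exact_mod_cast this
  have h2 := hN1 N ((le_max_left _ _).trans hN2)
  rw [lt_div_iff₀ hN0] at h2
  have h3 := count_split ha hD h t₀ α β (BadP a b c J k η) N
  have h4 : (pairCount a b c h t₀ α β (fun _ _ => True) N : ℝ) =
      pairCount a b c h t₀ α β (BadP a b c J k η) N +
      pairCount a b c h t₀ α β (fun t d => ¬ BadP a b c J k η t d) N := by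
    exact_mod_cast h3
  rw [h4] at h2
  have h5 : 1 / (η ^ 2 * J) = 1 - θ := by rw [hθd]; ring
  rw [h5]
  have h6 : (1 - θ + θ / 4) * κ * N = (1 - θ / 4) * κ * N - κ * θ / 2 * N := by ring
  rw [h6]
  linarith

end EndP27

open EndP27 in
theorem stEndP_27 (hP : StPairP) (hS : StSqP) (hMain : StMainS) (hU : StMeanU) (hOn : StOn) :
    StEndP := by
  intro a b c d ha hd0 hd hIn h hh t₀ α β hα hαβ
  have hD : b ^ 2 - 4 * a * c < 0 := by
    have : (0 : ℤ) < d := by exact_mod_cast hd0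
    linarith
  obtain ⟨κ, hκ, hlim⟩ := hMain a b c ha hD h hh t₀ α β hα hαβ
  have hlim' : Tendsto (fun N : ℕ => (pairCount a b c h t₀ α β (fun _ _ => True) N : ℝ) / N)
      atTop (𝓝 κ) := by
    simp only [count_true ha hD]
    exact hlim
  refine ⟨κ, hκ, hlim', ?_, ?_⟩
  · intro k hk r s ε hε
    refine ⟨fun j => ?_, fun j l hjl => ?_⟩
    · exact pair_null hOn hU ha hD hh hα hαβ _ _ (fun M =>
        hP a b c d ha hd0 hd hIn k hk h hh t₀ α β κ hα hαβ hlim' none (some j)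
          (by simp) r s M) hε
    · exact pair_null hOn hU ha hD hh hα hαβ _ _ (fun M =>
        hP a b c d ha hd0 hd hIn k hk h hh t₀ α β κ hα hαβ hlim' (some j) (some l)
          (fun h => hjl (Option.some.inj h)) r s M) hε
  · intro k hk J hJ η hη
    have hbad := fun (ε : ℝ) (hε : 0 < ε) => bad_null hOn hU ha hD hh hα hαβ hJ hk hη hκ
      (t₀ := t₀) (fun M => hS a b c d ha hd0 hd hIn k hk h hh t₀ α β κ hα hαβ hlim' J M) hε
    refine ⟨fun ε hε => hbad ε hε, fun hη1 => ?_⟩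
    obtain ⟨c', hc', hev⟩ := good_lower ha hD (t₀ := t₀) hJ hη hκ hlim' hbad hη1
    refine ⟨c', hc', hev.mono fun N hN => hN.trans (le_of_eq ?_)⟩
    have e1 : (fun t d => ¬ BadP a b c J k η t d) = (fun (t d : ℕ) =>
        ∀ r : ℕ, |(((Finset.range J).filter (fun j : ℕ => ArithmeticFunction.cardFactors
          (a * ((t + j * d : ℕ) : ℤ) ^ 2 + b * ((t + j * d : ℕ) : ℤ) + c).natAbs
            ≡ r [MOD k])).card : ℝ) - J / k| ≤ η * J) := by
      funext t d
      unfold BadP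
      apply propext
      push Not
      rfl
    rw [e1]

end Pool.Agent.Lib.MP_a17b09_nt.SP
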