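import Pool.Agent.Lib.MP_a17b09_nt.SP.StmtsSP99
import Pool.Agent.Lib.MP_a17b09_nt.CH.MeanLem
import Pool.Agent.Lib.MP_a17b09_nt.CH.FinT22
import Pool.Agent.Lib.MP_a17b09_nt.CH.EndT98

/-!
Project SP, module SP5: the law of two slots, by double finite Fourier inversion.
-/

set_option autoImplicit false

open Filter Topology Finset

namespace Pool.Agent.Lib.MP_a17b09_nt.SP

open Pool.Agent.Lib.MP_a17b09_nt.CH

namespace PairP11

/-- the abstract form -/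
theorem main (E : LMean) (k : ℕ) (hk : 0 < k) (T : ℕ → Finset ℕ) (N : ℕ → Finset ℕ)
    (A B : ℕ → ℕ → ℕ) (hC : ∃ C : ℝ, ∀ M : ℕ, ((∑ t ∈ T M, (N t).card : ℕ) : ℝ) ≤ C * M)
    (κ : ℝ) (hκ : Tendsto (fun M : ℕ => ((∑ t ∈ T M, (N t).card : ℕ) : ℝ) / M) atTop (𝓝 κ))
    (h : ∀ z1 z2 : ℂ, z1 ^ k = 1 → z2 ^ k = 1 → (z1 ≠ 1 ∨ z2 ≠ 1) →
      E.E (fun M : ℕ => ‖∑ t ∈ T M, ∑ d ∈ N t, z1 ^ A t d * z2 ^ B t d‖ / (M : ℝ)) = 0)
    (r s : ℕ) :
    E.E (fun M : ℕ => |((∑ t ∈ T M, ((N t).filter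
        (fun d => A t d ≡ r [MOD k] ∧ B t d ≡ s [MOD k])).card : ℕ) : ℝ) / M - κ / k ^ 2|) = 0 := by
  set z : ℂ := Complex.exp (2 * Real.pi * Complex.I / k) with hz
  have hzp : IsPrimitiveRoot z k := Complex.isPrimitiveRoot_exp k hk.ne'
  have hzk : ∀ j, (z ^ j) ^ k = 1 := by
    intro j
    rw [← pow_mul, Nat.mul_comm, pow_mul, hzp.pow_eq_one, one_pow]
  have hzn : ‖z‖ = 1 := hzp.norm'_eq_one hk.ne'
  clear_value z
  set P := range k ×ˢ range k with hP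
  set U : ℕ × ℕ → ℕ → ℂ := fun p M =>
    ∑ t ∈ T M, ∑ d ∈ N t, (z ^ p.1) ^ A t d * (z ^ p.2) ^ B t d with hU
  set c : ℕ × ℕ → ℂ := fun p =>
    (1 / (k : ℂ) ^ 2) * ((z⁻¹ ^ p.1) ^ r * (z⁻¹ ^ p.2) ^ s) with hc
  have hk0 : (k : ℂ) ≠ 0 := by exact_mod_cast hk.ne'
  have hk0' : (k : ℝ) ≠ 0 := by exact_mod_cast hk.ne'
  obtain ⟨C, hC⟩ := hC
  set Tot : ℕ → ℝ := fun M => ((∑ t ∈ T M, (N t).card : ℕ) : ℝ) with hTot
  set Cnt : ℕ → ℝ := fun M => ((∑ t ∈ T M, ((N t).filter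
      (fun d => A t d ≡ r [MOD k] ∧ B t d ≡ s [MOD k])).card : ℕ) : ℝ) with hCnt
  have h00 : ((0 : ℕ), (0 : ℕ)) ∈ P := by
    rw [hP, mem_product]
    exact ⟨mem_range.2 hk, mem_range.2 hk⟩
  have hU0 : ∀ M, U (0, 0) M = ((Tot M : ℝ) : ℂ) := by
    intro M
    rw [hU, hTot]
    simp only [pow_zero, one_pow, mul_one, sum_const, nsmul_eq_mul]
    push_cast
    rfl
  have hc0 : c (0, 0) = 1 / (k : ℂ) ^ 2 := by
    rw [hc]
    simp
  -- the counting function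
  have h2 : ∀ M : ℕ, ((Cnt M : ℝ) : ℂ) = ∑ p ∈ P, c p * U p M := by
    intro M
    rw [hCnt]
    push_cast
    have h3 : ∀ p ∈ P, c p * U p M =
        ∑ t ∈ T M, c p * ∑ d ∈ N t, (z ^ p.1) ^ A t d * (z ^ p.2) ^ B t d := by
      intro p _
      rw [hU, mul_sum]
    rw [sum_congr rfl h3, sum_comm]
    refine sum_congr rfl fun t _ => ?_
    rw [FinT22.card_eq hk hzp (N t) (A t) (B t) r s]
  have h2' : ∀ M : ℕ, (((Cnt M - Tot M / (k : ℝ) ^ 2 : ℝ)) : ℂ) =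
      ∑ p ∈ P.erase (0, 0), c p * U p M := by
    intro M
    rw [Complex.ofReal_sub, h2, ← add_sum_erase P _ h00, hc0, hU0]
    push_cast
    ring
  -- the pointwise bound
  have h4 : ∀ M : ℕ, |Cnt M - Tot M / (k : ℝ) ^ 2| ≤
      ∑ p ∈ P.erase (0, 0), ‖c p‖ * ‖U p M‖ := by
    intro M
    rw [← Real.norm_eq_abs, ← Complex.norm_real, h2']
    refine (norm_sum_le _ _).trans (le_of_eq ?_)
    exact sum_congr rfl fun p _ => norm_mul _ _
  -- boundedness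
  have hbdd : ∀ F : ℕ → ℝ, (∀ M, 0 ≤ F M) → (∀ M, F M ≤ C * M) →
      Bdd (fun M : ℕ => F M / (M : ℝ)) := by
    intro F hF0 hFC
    refine ⟨|C|, fun M => ?_⟩
    rw [abs_of_nonneg (div_nonneg (hF0 M) (Nat.cast_nonneg M))]
    rcases Nat.eq_zero_or_pos M with h0 | h0
    · rw [h0]; simp
    · have h0' : (0 : ℝ) < M := by exact_mod_cast h0
      rw [div_le_iff₀ h0']
      exact (hFC M).trans (mul_le_mul_of_nonneg_right (le_abs_self C) h0'.le)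
  have h5 : ∀ p M, ‖U p M‖ ≤ C * M := by
    intro p M
    refine le_trans ?_ (hC M)
    rw [hU]
    refine (norm_sum_le _ _).trans ?_
    push_cast
    refine sum_le_sum fun t _ => ?_
    refine (norm_sum_le _ _).trans ?_
    rw [← nsmul_one, ← sum_const]
    refine sum_le_sum fun d _ => le_of_eq ?_
    rw [norm_mul, norm_pow, norm_pow, norm_pow, norm_pow, hzn]
    simp
  have h6 : ∀ p, Bdd (fun M : ℕ => ‖U p M‖ / (M : ℝ)) := fun p =>
    hbdd _ (fun _ => norm_nonneg _) (h5 p)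
  have h6T : Bdd (fun M : ℕ => Tot M / (M : ℝ)) :=
    hbdd Tot (fun _ => Nat.cast_nonneg _) hC
  have h6C : Bdd (fun M : ℕ => Cnt M / (M : ℝ)) := by
    refine hbdd Cnt (fun _ => Nat.cast_nonneg _) fun M => le_trans ?_ (hC M)
    have : (∑ t ∈ T M, ((N t).filter
      (fun d => A t d ≡ r [MOD k] ∧ B t d ≡ s [MOD k])).card : ℕ) ≤ ∑ t ∈ T M, (N t).card :=
      sum_le_sum fun t _ => card_filter_le _ _
    exact Nat.cast_le.2 this
  have hFB : Bdd (fun M : ℕ => |Cnt M / (M : ℝ) - κ / (k : ℝ) ^ 2|) :=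
    (h6C.sub (Bdd.const _)).abs
  have hTB : Bdd (fun M : ℕ => |Tot M / (M : ℝ) - κ|) := (h6T.sub (Bdd.const _)).abs
  have hS : ∀ p ∈ P.erase (0, 0), Bdd (fun M : ℕ => ‖c p‖ * (‖U p M‖ / (M : ℝ))) :=
    fun p _ => (h6 p).smul _
  have hB : Bdd (fun M : ℕ => ∑ p ∈ P.erase (0, 0), ‖c p‖ * (‖U p M‖ / (M : ℝ))) :=
    Bdd.sum _ _ hS
  have hle : ∀ M : ℕ, |Cnt M / (M : ℝ) - κ / (k : ℝ) ^ 2| ≤
      1 / (k : ℝ) ^ 2 * |Tot M / (M : ℝ) - κ| +
      ∑ p ∈ P.erase (0, 0), ‖c p‖ * (‖U p M‖ / (M : ℝ)) := by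
    intro M
    have e1 : Cnt M / (M : ℝ) - κ / (k : ℝ) ^ 2 =
        1 / (k : ℝ) ^ 2 * (Tot M / (M : ℝ) - κ) + (Cnt M - Tot M / (k : ℝ) ^ 2) / (M : ℝ) := by
      ring
    have e2 : ∑ p ∈ P.erase (0, 0), ‖c p‖ * (‖U p M‖ / (M : ℝ)) =
        (∑ p ∈ P.erase (0, 0), ‖c p‖ * ‖U p M‖) / (M : ℝ) := by
      rw [sum_div]
      exact sum_congr rfl fun p _ => by ring
    rw [e1, e2]
    refine (abs_add_le _ _).trans (add_le_add ?_ ?_)
    · rw [abs_mul, abs_of_nonneg (by positivity : (0 : ℝ) ≤ 1 / (k : ℝ) ^ 2)]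
    · rw [abs_div, Nat.abs_cast]
      exact div_le_div_of_nonneg_right (h4 M) (Nat.cast_nonneg M)
  have h7 : E.E (fun M : ℕ => |Tot M / (M : ℝ) - κ|) = 0 := by
    apply E.null _ hTB
    have h1 := (hκ.sub_const κ).abs
    rw [sub_self, abs_zero] at h1
    exact h1
  have h8 : E.E (fun M : ℕ => ∑ p ∈ P.erase (0, 0), ‖c p‖ * (‖U p M‖ / (M : ℝ))) = 0 := by
    rw [E.sum _ _ hS]
    apply sum_eq_zero
    intro p hp
    rw [E.smul _ _ (h6 p)]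
    rw [mem_erase, hP, mem_product, mem_range, mem_range] at hp
    have hne : z ^ p.1 ≠ 1 ∨ z ^ p.2 ≠ 1 := by
      by_contra hcon
      push Not at hcon
      apply hp.1
      have h1 : p.1 = 0 := by
        refine hzp.pow_inj hp.2.1 hk ?_
        rw [hcon.1, pow_zero]
      have h2 : p.2 = 0 := by
        refine hzp.pow_inj hp.2.2 hk ?_
        rw [hcon.2, pow_zero]
      exact Prod.ext h1 h2
    rw [h (z ^ p.1) (z ^ p.2) (hzk _) (hzk _) hne, mul_zero]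
  refine le_antisymm ?_ (E.nonneg _ hFB fun _ => abs_nonneg _)
  have h9 := E.mono hFB ((hTB.smul (1 / (k : ℝ) ^ 2)).add hB) hle
  rwa [E.add _ _ (hTB.smul _) hB, E.smul _ _ hTB, h7, h8, mul_zero, add_zero] at h9

end PairP11

open EndT in
/-- SP5 -/
theorem stPairP_11 (hT : StTwP) (hO : StOn) : StPairP := by
  intro a b c d ha hd0 hd hA k hk h hh t0 α β κ hα hαβ hκ o1 o2 ho r s E
  have hD : b ^ 2 - 4 * a * c < 0 := by
    have : (0 : ℤ) < d := by exact_mod_cast hd0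
    linarith
  have hκ' : Tendsto (fun M : ℕ => ((∑ t ∈ (Finset.Icc 1 M).filter (fun t => t ≡ t0 [MOD h]),
      (nearG a b c α β t).card : ℕ) : ℝ) / M) atTop (𝓝 κ) := by
    refine hκ.congr fun M => ?_
    rw [count_eq ha hD (fun _ _ => True) M]
    simp only [Finset.filter_true]
  have h1 := PairP11.main E k hk (fun M => (Finset.Icc 1 M).filter (fun t => t ≡ t0 [MOD h]))
    (nearG a b c α β) (fun t d => Omn (eslot a b c t d o1)) (fun t d => Omn (eslot a b c t d o2))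
    (hO a b c ha hD h hh t0 α β hα hαβ) κ hκ'
    (fun z1 z2 h1 h2 h3 => hT a b c d ha hd0 hd hA z1 z2 k hk h1 h2 h3 h hh t0 α β hα hαβ o1 o2 ho
      E) r s
  have e1 : (fun N : ℕ => |(pairCount a b c h t0 α β (fun t d => Omn (eslot a b c t d o1) ≡ r [MOD k] ∧
      Omn (eslot a b c t d o2) ≡ s [MOD k]) N : ℝ) / N - κ / k ^ 2|) = fun M : ℕ =>
      |((∑ t ∈ (Finset.Icc 1 M).filter (fun t => t ≡ t0 [MOD h]), ((nearG a b c α β t).filter
        (fun d => Omn (eslot a b c t d o1) ≡ r [MOD k] ∧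
          Omn (eslot a b c t d o2) ≡ s [MOD k])).card : ℕ) : ℝ) / M - κ / k ^ 2| := by
    funext N
    rw [count_eq ha hD (fun t d => Omn (eslot a b c t d o1) ≡ r [MOD k] ∧
      Omn (eslot a b c t d o2) ≡ s [MOD k]) N]
  rw [e1]
  exact h1

end Pool.Agent.Lib.MP_a17b09_nt.SP
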