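import Pool.Agent.Lib.MP_a17b09_nt.SP.StmtsSP99
import Pool.Agent.Lib.MP_a17b09_nt.CH.MeanLem
import Pool.Agent.Lib.MP_a17b09_nt.CH.EndT98

/-!
Project SP, module SP6a: the second moment.
-/

set_option autoImplicit false

open Filter Topology Finset

namespace Pool.Agent.Lib.MP_a17b09_nt.SP

open Pool.Agent.Lib.MP_a17b09_nt.CH

namespace SqP11

/-- the classes of two numbers agree -/
theorem sum_class (k : ℕ) (hk : 0 < k) (x y : ℕ) :
    ∑ r ∈ range k, (if x ≡ r [MOD k] ∧ y ≡ r [MOD k] then (1 : ℝ) else 0) =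
      if x ≡ y [MOD k] then 1 else 0 := by
  rw [sum_eq_single (x % k)]
  · by_cases h : x ≡ y [MOD k]
    · rw [if_pos h, if_pos ⟨(Nat.mod_modEq x k).symm, h.symm.trans (Nat.mod_modEq x k).symm⟩]
    · rw [if_neg h, if_neg]
      rintro ⟨h1, h2⟩
      exact h (h1.trans h2.symm)
  · intro r hr hne
    rw [if_neg]
    rintro ⟨h1, -⟩
    apply hne
    have h2 : r ≡ x % k [MOD k] := h1.symm.trans (Nat.mod_modEq x k).symm
    exact Nat.ModEq.eq_of_lt_of_lt h2 (mem_range.1 hr) (Nat.mod_lt _ hk)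
  · intro h
    exact absurd (mem_range.2 (Nat.mod_lt _ hk)) h

/-- the sum of the squares of the deviations -/
theorem sq_id (k : ℕ) (hk : 0 < k) (J : ℕ) (y : ℕ → ℕ) :
    ∑ r ∈ range k, ((((range J).filter (fun j => y j ≡ r [MOD k])).card : ℝ) - J / k) ^ 2 =
      ∑ p ∈ range J ×ˢ range J, (if y p.1 ≡ y p.2 [MOD k] then (1 : ℝ) else 0) -
        (J : ℝ) ^ 2 / k := by
  have hk0 : (k : ℝ) ≠ 0 := by exact_mod_cast hk.ne'
  have h1 : ∀ r, (((range J).filter (fun j => y j ≡ r [MOD k])).card : ℝ) =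
      ∑ j ∈ range J, if y j ≡ r [MOD k] then (1 : ℝ) else 0 := by
    intro r
    rw [card_filter]
    push_cast
    rfl
  have h2 : ∑ r ∈ range k, (((range J).filter (fun j => y j ≡ r [MOD k])).card : ℝ) = J := by
    rw [sum_congr rfl fun r _ => h1 r, sum_comm]
    have h3 : ∀ j ∈ range J, ∑ r ∈ range k, (if y j ≡ r [MOD k] then (1 : ℝ) else 0) = 1 := by
      intro j _
      have h4 := sum_class k hk (y j) (y j)
      rw [if_pos (Nat.ModEq.refl _)] at h4
      refine Eq.trans ?_ h4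
      exact sum_congr rfl fun r _ => if_congr (and_self_iff.symm) rfl rfl
    rw [sum_congr rfl h3, sum_const, card_range]
    simp
  have h3 : ∑ r ∈ range k, (((range J).filter (fun j => y j ≡ r [MOD k])).card : ℝ) ^ 2 =
      ∑ p ∈ range J ×ˢ range J, (if y p.1 ≡ y p.2 [MOD k] then (1 : ℝ) else 0) := by
    have h5 : ∀ p ∈ range J ×ˢ range J, (if y p.1 ≡ y p.2 [MOD k] then (1 : ℝ) else 0) =
        ∑ r ∈ range k, (if y p.1 ≡ r [MOD k] ∧ y p.2 ≡ r [MOD k] then (1 : ℝ) else 0) :=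
      fun p _ => (sum_class k hk (y p.1) (y p.2)).symm
    rw [sum_congr rfl h5, sum_comm]
    refine sum_congr rfl fun r _ => ?_
    rw [h1 r, sq, sum_mul_sum, sum_product]
    refine sum_congr rfl fun i _ => sum_congr rfl fun j _ => ?_
    by_cases h4 : y i ≡ r [MOD k] <;> by_cases h5 : y j ≡ r [MOD k] <;> simp [h4, h5]
  have h4 : ∀ r ∈ range k, ((((range J).filter (fun j => y j ≡ r [MOD k])).card : ℝ) - J / k) ^ 2 =
      (((range J).filter (fun j => y j ≡ r [MOD k])).card : ℝ) ^ 2 -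
        2 * (J / k) * (((range J).filter (fun j => y j ≡ r [MOD k])).card : ℝ) +
        (J / k : ℝ) ^ 2 := fun r _ => by ring
  rw [sum_congr rfl h4, sum_add_distrib, sum_sub_distrib, ← mul_sum, h2, h3, sum_const,
    card_range, nsmul_eq_mul]
  field_simp
  ring

/-- the abstract form -/
theorem main (E : LMean) (k : ℕ) (hk : 0 < k) (J : ℕ) (T : ℕ → Finset ℕ) (N : ℕ → Finset ℕ)
    (x : ℕ → ℕ → ℕ → ℕ) (hC : ∃ C : ℝ, ∀ M : ℕ, ((∑ t ∈ T M, (N t).card : ℕ) : ℝ) ≤ C * M)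
    (κ : ℝ) (hκ : Tendsto (fun M : ℕ => ((∑ t ∈ T M, (N t).card : ℕ) : ℝ) / M) atTop (𝓝 κ))
    (h : ∀ j l : ℕ, j ≠ l → ∀ r s : ℕ, E.E (fun M : ℕ => |((∑ t ∈ T M, ((N t).filter
        (fun d => x j t d ≡ r [MOD k] ∧ x l t d ≡ s [MOD k])).card : ℕ) : ℝ) / M -
        κ / k ^ 2|) = 0) :
    E.E (fun M : ℕ => |(∑ t ∈ T M, ∑ d ∈ N t, (∑ p ∈ range J ×ˢ range J,
      (if x p.1 t d ≡ x p.2 t d [MOD k] then (1 : ℝ) else 0) - (J : ℝ) ^ 2 / k)) / M -
        κ * (J * (1 - 1 / k))|) = 0 := by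
  have hk0 : (k : ℝ) ≠ 0 := by exact_mod_cast hk.ne'
  obtain ⟨C, hC⟩ := hC
  set Tot : ℕ → ℝ := fun M => ((∑ t ∈ T M, (N t).card : ℕ) : ℝ) with hTot
  set pc : ℕ → ℕ → ℕ → ℕ → ℝ := fun j l r M => ((∑ t ∈ T M, ((N t).filter
      (fun d => x j t d ≡ r [MOD k] ∧ x l t d ≡ r [MOD k])).card : ℕ) : ℝ) with hpc
  set W : ℕ → ℝ := fun M => ∑ t ∈ T M, ∑ d ∈ N t, (∑ p ∈ range J ×ˢ range J,
      (if x p.1 t d ≡ x p.2 t d [MOD k] then (1 : ℝ) else 0) - (J : ℝ) ^ 2 / k) with hW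
  -- classes
  have hpc1 : ∀ j l M, ∑ r ∈ range k, pc j l r M =
      ∑ t ∈ T M, ∑ d ∈ N t, if x j t d ≡ x l t d [MOD k] then (1 : ℝ) else 0 := by
    intro j l M
    have h1 : ∀ r ∈ range k, pc j l r M = ∑ t ∈ T M, ∑ d ∈ N t,
        if x j t d ≡ r [MOD k] ∧ x l t d ≡ r [MOD k] then (1 : ℝ) else 0 := by
      intro r _
      rw [hpc]
      simp only [card_filter]
      push_cast
      rfl
    rw [sum_congr rfl h1, sum_comm]
    refine sum_congr rfl fun t _ => ?_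
    rw [sum_comm]
    exact sum_congr rfl fun d _ => sum_class k hk _ _
  have hTot1 : ∀ M, Tot M = ∑ t ∈ T M, ∑ d ∈ N t, (1 : ℝ) := by
    intro M
    rw [hTot]
    simp
  have hdiag : ∀ j M, ∑ r ∈ range k, pc j j r M = Tot M := by
    intro j M
    rw [hpc1, hTot1]
    refine sum_congr rfl fun t _ => sum_congr rfl fun d _ => ?_
    rw [if_pos (Nat.ModEq.refl _)]
  have hW1 : ∀ M, W M = ∑ p ∈ range J ×ˢ range J, ∑ r ∈ range k, pc p.1 p.2 r M -
      (J : ℝ) ^ 2 / k * Tot M := by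
    intro M
    rw [sum_congr rfl fun p _ => hpc1 p.1 p.2 M, sum_comm, hTot1, mul_sum, ← sum_sub_distrib]
    refine sum_congr rfl fun t _ => ?_
    rw [sum_comm, mul_sum, ← sum_sub_distrib]
    exact sum_congr rfl fun d _ => by rw [mul_one]
  have hW2 : ∀ M, W M = ∑ q ∈ (range J).offDiag ×ˢ range k, pc q.1.1 q.1.2 q.2 M +
      (J - (J : ℝ) ^ 2 / k) * Tot M := by
    intro M
    rw [hW1, ← diag_union_offDiag, sum_union (disjoint_diag_offDiag _), sum_product]
    have h1 : ∑ p ∈ (range J).diag, ∑ r ∈ range k, pc p.1 p.2 r M = J * Tot M := by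
      have h2 : ∀ p ∈ (range J).diag, ∑ r ∈ range k, pc p.1 p.2 r M = Tot M := by
        intro p hp
        rw [mem_diag] at hp
        rw [← hp.2]
        exact hdiag _ _
      rw [sum_congr rfl h2, sum_const, diag_card, card_range, nsmul_eq_mul]
    rw [h1]
    ring
  have hcard : (((range J).offDiag ×ˢ range k).card : ℝ) = ((J : ℝ) ^ 2 - J) * k := by
    rw [card_product, offDiag_card, card_range, card_range]
    have : J ≤ J * J := by
      rcases Nat.eq_zero_or_pos J with h0 | h0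
      · rw [h0]
      · exact Nat.le_mul_of_pos_left J h0
    push_cast [Nat.cast_sub this]
    ring
  have hid : ∀ M : ℕ, W M / M - κ * (J * (1 - 1 / k)) =
      ∑ q ∈ (range J).offDiag ×ˢ range k, (pc q.1.1 q.1.2 q.2 M / M - κ / k ^ 2) +
        (J - (J : ℝ) ^ 2 / k) * (Tot M / M - κ) := by
    intro M
    rw [sum_sub_distrib, sum_const, nsmul_eq_mul, hcard, hW2, ← sum_div, add_div]
    field_simp
    ring
  -- boundedness
  have hbdd : ∀ F : ℕ → ℝ, (∀ M, 0 ≤ F M) → (∀ M, F M ≤ C * M) →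
      Bdd (fun M : ℕ => F M / (M : ℝ)) := by
    intro F hF0 hFC
    refine ⟨|C|, fun M => ?_⟩
    rw [abs_of_nonneg (div_nonneg (hF0 M) (Nat.cast_nonneg M))]
    rcases Nat.eq_zero_or_pos M with h0 | h0
    · rw [h0]; simp
    · have h0' : (0 : ℝ) < M := by exact_mod_cast h0
      rw [div_le_iff₀ h0']
      exact (hFC M).trans (mul_le_mul_of_nonneg_right (le_abs_self C) h0'.le)
  have hTB : Bdd (fun M : ℕ => |Tot M / (M : ℝ) - κ|) :=
    ((hbdd Tot (fun _ => Nat.cast_nonneg _) hC).sub (Bdd.const _)).abs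
  have hPB : ∀ q : (ℕ × ℕ) × ℕ, Bdd (fun M : ℕ => |pc q.1.1 q.1.2 q.2 M / (M : ℝ) - κ / k ^ 2|) := by
    intro q
    refine ((hbdd (pc q.1.1 q.1.2 q.2) (fun _ => Nat.cast_nonneg _) fun M =>
      le_trans ?_ (hC M)).sub (Bdd.const _)).abs
    have : (∑ t ∈ T M, ((N t).filter
      (fun d => x q.1.1 t d ≡ q.2 [MOD k] ∧ x q.1.2 t d ≡ q.2 [MOD k])).card : ℕ) ≤
        ∑ t ∈ T M, (N t).card := sum_le_sum fun t _ => card_filter_le _ _
    exact Nat.cast_le.2 this
  have hB : Bdd (fun M : ℕ => ∑ q ∈ (range J).offDiag ×ˢ range k,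
      |pc q.1.1 q.1.2 q.2 M / (M : ℝ) - κ / k ^ 2|) := Bdd.sum _ _ fun q _ => hPB q
  have hle : ∀ M : ℕ, |W M / M - κ * (J * (1 - 1 / k))| ≤
      ∑ q ∈ (range J).offDiag ×ˢ range k, |pc q.1.1 q.1.2 q.2 M / (M : ℝ) - κ / k ^ 2| +
      |J - (J : ℝ) ^ 2 / k| * |Tot M / (M : ℝ) - κ| := by
    intro M
    rw [hid M]
    refine (abs_add_le _ _).trans (add_le_add (abs_sum_le_sum_abs _ _) ?_)
    rw [abs_mul]
  have hRB := hB.add (hTB.smul |J - (J : ℝ) ^ 2 / k|)
  have hFB : Bdd (fun M : ℕ => |W M / M - κ * (J * (1 - 1 / k))|) := by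
    obtain ⟨D, hD⟩ := hRB
    refine ⟨D, fun M => ?_⟩
    rw [abs_abs]
    exact ((hle M).trans (le_abs_self _)).trans (hD M)
  have h7 : E.E (fun M : ℕ => |Tot M / (M : ℝ) - κ|) = 0 := by
    apply E.null _ hTB
    have h1 := (hκ.sub_const κ).abs
    rw [sub_self, abs_zero] at h1
    exact h1
  have h8 : E.E (fun M : ℕ => ∑ q ∈ (range J).offDiag ×ˢ range k,
      |pc q.1.1 q.1.2 q.2 M / (M : ℝ) - κ / k ^ 2|) = 0 := by
    rw [E.sum _ _ fun q _ => hPB q]
    apply sum_eq_zero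
    intro q hq
    rw [mem_product, mem_offDiag] at hq
    exact h q.1.1 q.1.2 hq.1.2.2 q.2 q.2
  refine le_antisymm ?_ (E.nonneg _ hFB fun _ => abs_nonneg _)
  have h9 := E.mono hFB hRB hle
  rwa [E.add _ _ hB (hTB.smul _), E.smul _ _ hTB, h7, h8, mul_zero, add_zero] at h9

end SqP11

/-- `Ω (f (t + j d))` is `Ω d` plus `Ω` of the cofactor -/
theorem om_slot11 {a b c : ℤ} (ha : 0 < a) (hD : b ^ 2 - 4 * a * c < 0) {t d : ℕ}
    (hd : d ∣ (fv a b c t).natAbs) (j : ℕ) :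
    Om a b c (t + j * d) = Omn d + Omn (eslot a b c t d (some j)) := by
  have hpos : ∀ s : ℕ, (fv a b c s).natAbs ≠ 0 := fun s =>
    Int.natAbs_ne_zero.2 (EndF64.fv_pos ha hD s).ne'
  have hd0 : d ≠ 0 := fun h0 => hpos t (Nat.eq_zero_of_zero_dvd (h0 ▸ hd))
  have h1 : d ∣ (fv a b c (t + j * d)).natAbs := by
    rw [← Int.natCast_dvd] at hd ⊢
    have h2 : fv a b c (t + j * d) = fv a b c t +
        (d : ℤ) * (a * (2 * t * j + j ^ 2 * d) + b * j) := by
      rw [fv, fv]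
      push_cast
      ring
    rw [h2]
    exact dvd_add hd (dvd_mul_right _ _)
  have h2 : (fv a b c (t + j * d)).natAbs = d * ((fv a b c (t + j * d)).natAbs / d) :=
    (Nat.mul_div_cancel' h1).symm
  have h3 : (fv a b c (t + j * d)).natAbs / d ≠ 0 := by
    intro h0
    rw [h0, mul_zero] at h2
    exact hpos _ h2
  show ArithmeticFunction.cardFactors (fv a b c (t + j * d)).natAbs = _
  conv_lhs => rw [h2]
  rw [ArithmeticFunction.cardFactors_mul hd0 h3]
  rfl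

open EndT in
/-- SP6a -/
theorem stSqP_11 (hP : StPairP) (hO : StOn) : StSqP := by
  intro a b c d ha hd0 hd hA k hk h hh t0 α β κ hα hαβ hκ J E
  have hD : b ^ 2 - 4 * a * c < 0 := by
    have : (0 : ℤ) < d := by exact_mod_cast hd0
    linarith
  have hκ' : Tendsto (fun M : ℕ => ((∑ t ∈ (Finset.Icc 1 M).filter (fun t => t ≡ t0 [MOD h]),
      (nearG a b c α β t).card : ℕ) : ℝ) / M) atTop (𝓝 κ) := by
    refine hκ.congr fun M => ?_
    rw [count_eq ha hD (fun _ _ => True) M]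
    simp only [Finset.filter_true]
  have h1 := SqP11.main E k hk J (fun M => (Finset.Icc 1 M).filter (fun t => t ≡ t0 [MOD h]))
    (nearG a b c α β) (fun j t d => Omn (eslot a b c t d (some j)))
    (hO a b c ha hD h hh t0 α β hα hαβ) κ hκ' (by
      intro j l hjl r s
      have h2 := hP a b c d ha hd0 hd hA k hk h hh t0 α β κ hα hαβ hκ (some j) (some l)
        (fun h => hjl (Option.some.inj h)) r s E
      have e1 : (fun N : ℕ => |(pairCount a b c h t0 α β
          (fun t d => Omn (eslot a b c t d (some j)) ≡ r [MOD k] ∧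
          Omn (eslot a b c t d (some l)) ≡ s [MOD k]) N : ℝ) / N - κ / k ^ 2|) = fun M : ℕ =>
          |((∑ t ∈ (Finset.Icc 1 M).filter (fun t => t ≡ t0 [MOD h]),
            ((nearG a b c α β t).filter
            (fun d => Omn (eslot a b c t d (some j)) ≡ r [MOD k] ∧
              Omn (eslot a b c t d (some l)) ≡ s [MOD k])).card : ℕ) : ℝ) / M - κ / k ^ 2| := by
        funext N
        rw [count_eq ha hD (fun t d => Omn (eslot a b c t d (some j)) ≡ r [MOD k] ∧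
          Omn (eslot a b c t d (some l)) ≡ s [MOD k]) N]
      rw [e1] at h2
      exact h2)
  have e2 : ∀ N : ℕ, SqP a b c α β h t0 J k N =
      ∑ t ∈ (Finset.Icc 1 N).filter (fun t => t ≡ t0 [MOD h]), ∑ d ∈ nearG a b c α β t,
        (∑ p ∈ range J ×ˢ range J, (if Omn (eslot a b c t d (some p.1)) ≡
          Omn (eslot a b c t d (some p.2)) [MOD k] then (1 : ℝ) else 0) - (J : ℝ) ^ 2 / k) := by
    intro N
    refine sum_congr rfl fun t _ => sum_congr rfl fun d hd => ?_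
    have hd1 : d ∣ (fv a b c t).natAbs := Nat.dvd_of_mem_divisors (Finset.mem_filter.1 hd).1
    refine (SqP11.sq_id k hk J (fun j => Om a b c (t + j * d))).trans ?_
    congr 1
    refine sum_congr rfl fun p _ => ?_
    rw [om_slot11 ha hD hd1, om_slot11 ha hD hd1]
    have h3 : (Omn d + Omn (eslot a b c t d (some p.1)) ≡
        Omn d + Omn (eslot a b c t d (some p.2)) [MOD k]) ↔
        (Omn (eslot a b c t d (some p.1)) ≡ Omn (eslot a b c t d (some p.2)) [MOD k]) :=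
      ⟨fun h => Nat.ModEq.add_left_cancel' _ h, fun h => h.add_left _⟩
    exact if_congr h3 rfl rfl
  simp only [e2]
  exact h1

end Pool.Agent.Lib.MP_a17b09_nt.SP
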