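import Pool.Agent.Lib.MP_a17b09_nt.SP.StmtsSP99

/-!
# Project SP, (SP3): Theorem A for the kernel with the values at two vectors of the frame
-/

set_option autoImplicit false

open Filter Topology Finset

namespace Pool.Agent.Lib.MP_a17b09_nt.SP

open Pool.Agent.Lib.MP_a17b09_nt.CH

namespace N57

theorem prim_left {v w : V} (h : wd v w = 1) : Prim v := by
  unfold Prim
  apply Int.isCoprime_iff_gcd_eq_one.1
  unfold wd at h
  exact ⟨w.2, -w.1, by linarith⟩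

theorem prim_right {v w : V} (h : wd v w = 1) : Prim w := by
  unfold Prim
  apply Int.isCoprime_iff_gcd_eq_one.1
  unfold wd at h
  exact ⟨-v.2, v.1, by linarith⟩

/-- the value of a test function at a frame -/
noncomputable def tf (Q : Form) (h : ℝ → ℝ → ℝ) (n : ℝ) (v v' : V) : ℝ :=
  if 0 < Q.B v v' then h (Q.nr n v) (Q.nr n v') else 0

theorem tf_mem {Q : Form} (hQ : Q.Pos) {δ : ℝ} {h : ℝ → ℝ → ℝ} (hh : Test δ h) {n : ℝ}
    (hn : 0 < n) {v v' : V} (hw : wd v v' = 1) (h0 : tf Q h n v v' ≠ 0) :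
    v ∈ Q.pball ⌊n⌋₊ ∧ v' ∈ Q.pball ⌊n⌋₊ := by
  have hle : ∀ u : V, Q.nr n u ≤ 1 → Q.q u ≤ (⌊n⌋₊ : ℤ) := by
    intro u hu
    obtain ⟨k, hk⟩ : ∃ k : ℕ, Q.q u = k := ⟨_, (Int.toNat_of_nonneg (hQ.q_nonneg u)).symm⟩
    unfold Form.nr at hu
    rw [hk] at hu ⊢
    have h1 : ((k : ℤ) : ℝ) / n ≤ 1 := by
      by_contra hc
      push Not at hc
      have h2 : √1 < √(((k : ℤ) : ℝ) / n) := Real.sqrt_lt_sqrt zero_le_one hc
      rw [Real.sqrt_one] at h2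
      linarith
    rw [div_le_one hn] at h1
    have h2 : k ≤ ⌊n⌋₊ := Nat.le_floor (by exact_mod_cast h1)
    exact_mod_cast h2
  unfold tf at h0
  split_ifs at h0 with hB
  · obtain ⟨-, h1, -, h2⟩ := hh.2 _ _ h0
    unfold Form.pball
    rw [mem_filter, mem_filter, Form.mem_ball hQ, Form.mem_ball hQ]
    exact ⟨⟨hle v h1, prim_left hw⟩, ⟨hle v' h2, prim_right hw⟩⟩
  · exact absurd rfl h0

/-- the frames of all forms -/
def W (ι : Type) : Set (ι × V × V) := {f | wd f.2.1 f.2.2 = 1}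

/-- the value at a frame -/
noncomputable def gg {ι : Type} (Q : ι → Form) (h : ℝ → ℝ → ℝ) (U : ι → V → V → ℂ) (n : ℝ)
    (f : ι × V × V) : ℂ := (tf (Q f.1) h n f.2.1 f.2.2 : ℂ) * U f.1 f.2.1 f.2.2

theorem dk_one {Q : Form} (hQ : Q.Pos) {δ : ℝ} {h : ℝ → ℝ → ℝ} (hh : Test δ h) (U : V → V → ℂ)
    {n : ℝ} (hn : 0 < n) (BB : Finset V) (hB : Q.pball ⌊n⌋₊ ⊆ BB) :
    (n : ℂ) * Dk Q h U 1 n = ∑ v ∈ BB, ∑ v' ∈ BB,
      if wd v v' = 1 then ((tf Q h n v v' : ℝ) : ℂ) * U v v' else 0 := by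
  have hn' : (n : ℂ) ≠ 0 := by exact_mod_cast hn.ne'
  have h0 : ∀ v v', ¬ (v ∈ Q.pball ⌊n⌋₊ ∧ v' ∈ Q.pball ⌊n⌋₊) →
      (if wd v v' = 1 then ((tf Q h n v v' : ℝ) : ℂ) * U v v' else 0) = 0 := by
    intro v v' hv
    split_ifs with hw
    · have h1 : tf Q h n v v' = 0 := by
        by_contra hc
        exact hv (tf_mem hQ hh hn hw hc)
      rw [h1, Complex.ofReal_zero, zero_mul]
    · rfl
  rw [← Finset.sum_subset hB (fun v _ hv => Finset.sum_eq_zero fun v' _ =>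
    h0 v v' (fun hc => hv hc.1))]
  unfold Dk
  rw [← mul_assoc, mul_one_div_cancel hn', one_mul]
  refine Finset.sum_congr rfl fun v _ => ?_
  rw [← Finset.sum_subset hB (fun v' _ hv => h0 v v' (fun hc => hv hc.2))]
  refine Finset.sum_congr rfl fun v' _ => ?_
  unfold tf
  by_cases hw : wd v v' = 1
  · by_cases hb : 0 < Q.B v v'
    · rw [if_pos ⟨hw, hb⟩, if_pos hw, if_pos hb]
    · rw [if_neg (fun hc => hb hc.2), if_pos hw, if_neg hb, Complex.ofReal_zero, zero_mul]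
  · rw [if_neg (fun hc => hw hc.1), if_neg hw]

theorem dk_eq {ι : Type} [Fintype ι] (Q : ι → Form) (hQ : ∀ i, (Q i).Pos) {δ : ℝ}
    {h : ℝ → ℝ → ℝ} (hh : Test δ h) (U : ι → V → V → ℂ) {n : ℝ} (hn : 0 < n) :
    (W ι ∩ Function.support (gg Q h U n)).Finite ∧
    (n : ℂ) * ∑ i, Dk (Q i) h (U i) 1 n = ∑ᶠ f ∈ W ι, gg Q h U n f := by
  classical
  obtain ⟨BB, hBB⟩ : ∃ BB : Finset V, BB = Finset.univ.biUnion (fun i => (Q i).pball ⌊n⌋₊) :=
    ⟨_, rfl⟩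
  have hB : ∀ i, (Q i).pball ⌊n⌋₊ ⊆ BB := by
    intro i
    rw [hBB]
    exact Finset.subset_biUnion_of_mem (fun i => (Q i).pball ⌊n⌋₊) (Finset.mem_univ i)
  obtain ⟨t, ht⟩ : ∃ t : Finset (ι × V × V),
      t = ((Finset.univ : Finset ι) ×ˢ (BB ×ˢ BB)).filter (fun f => wd f.2.1 f.2.2 = 1) := ⟨_, rfl⟩
  have hsup : W ι ∩ Function.support (gg Q h U n) =
      (t : Set (ι × V × V)) ∩ Function.support (gg Q h U n) := by
    ext f
    rw [Set.mem_inter_iff, Set.mem_inter_iff, Finset.mem_coe, ht, Finset.mem_filter,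
      Finset.mem_product, Finset.mem_product]
    constructor
    · rintro ⟨h1, h2⟩
      have h3 : tf (Q f.1) h n f.2.1 f.2.2 ≠ 0 := by
        intro hc
        apply h2
        unfold gg
        rw [hc, Complex.ofReal_zero, zero_mul]
      obtain ⟨h4, h5⟩ := tf_mem (hQ f.1) hh hn h1 h3
      exact ⟨⟨⟨Finset.mem_univ _, hB f.1 h4, hB f.1 h5⟩, h1⟩, h2⟩
    · rintro ⟨⟨_, h1⟩, h2⟩
      exact ⟨h1, h2⟩
  refine ⟨?_, ?_⟩
  · rw [hsup]
    exact t.finite_toSet.subset Set.inter_subset_left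
  · rw [finsum_mem_eq_sum_of_inter_support_eq _ hsup, ht, Finset.sum_filter, Finset.sum_product,
      Finset.mul_sum]
    refine Finset.sum_congr rfl fun i _ => ?_
    rw [Finset.sum_product, dk_one (hQ i) hh (U i) hn BB (hB i)]
    rfl

/-- the value at the two vectors of a frame -/
noncomputable def g2 {ι : Type} (Q : ι → Form) (e1 e2 : ℕ × ℕ) (h : ℝ → ℝ → ℝ)
    (U : ι → V → V → ℂ) (n : ℝ) (f : ι × V × V) : ℂ :=
  (tf (Q f.1) h n (lin e1 f.2.1 f.2.2) (lin e2 f.2.1 f.2.2) : ℂ) * U f.1 f.2.1 f.2.2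

/-- the sum over the frames of `S'` is a sum over the frames of `S` -/
theorem transfer {ι ι' : Type} [Fintype ι'] (S : System ι) (S' : System ι') (z1 z2 : ℂ)
    (e1 e2 : ℕ × ℕ) (om : ι → V → V → ℂ) (om' : ι' → V → V → ℂ) (P : Set (ι' × V × V))
    (T : ι' × V × V → ι × V × V) (hP1 : ∀ t ∈ P, wd t.2.1 t.2.2 = 1)
    (hP2 : ∀ t, t ∉ P → wd t.2.1 t.2.2 = 1 → om' t.1 t.2.1 t.2.2 = 0)
    (hT : Set.BijOn T P {f : ι × V × V | wd f.2.1 f.2.2 = 1})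
    (hPT : ∀ t ∈ P, om' t.1 t.2.1 t.2.2 = om (T t).1 (T t).2.1 (T t).2.2 ∧
      (S'.Q t.1).q t.2.1 = (S.Q (T t).1).q (lin e1 (T t).2.1 (T t).2.2) ∧
      (S'.Q t.1).q t.2.2 = (S.Q (T t).1).q (lin e2 (T t).2.1 (T t).2.2) ∧
      (S'.Q t.1).B t.2.1 t.2.2 =
        (S.Q (T t).1).B (lin e1 (T t).2.1 (T t).2.2) (lin e2 (T t).2.1 (T t).2.2))
    {δ : ℝ} {h : ℝ → ℝ → ℝ} (hh : Test δ h) {n : ℝ} (hn : 0 < n) :
    (W ι ∩ Function.support (g2 S.Q e1 e2 h (kerL S z1 z2 e1 e2 om) n)).Finite ∧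
    (n : ℂ) * ∑ i, Dk (S'.Q i) h (kerT S' z1 z2 om' i) 1 n =
      ∑ᶠ f ∈ W ι, g2 S.Q e1 e2 h (kerL S z1 z2 e1 e2 om) n f := by
  obtain ⟨hfin, heq⟩ := dk_eq S'.Q S'.pos hh (kerT S' z1 z2 om') hn
  have hval : ∀ t ∈ P, gg S'.Q h (kerT S' z1 z2 om') n t =
      g2 S.Q e1 e2 h (kerL S z1 z2 e1 e2 om) n (T t) := by
    intro t ht
    obtain ⟨h1, h2, h3, h4⟩ := hPT t ht
    unfold gg g2 tf kerT kerL gz Form.nr
    rw [h1, h2, h3, h4]
  have hPW : ∑ᶠ t ∈ W ι', gg S'.Q h (kerT S' z1 z2 om') n t =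
      ∑ᶠ t ∈ P, gg S'.Q h (kerT S' z1 z2 om') n t := by
    apply finsum_mem_inter_support_eq'
    intro t ht
    constructor
    · intro hw
      by_contra hc
      apply ht
      unfold gg kerT
      rw [hP2 t hc hw]
      ring
    · intro hp
      exact hP1 t hp
  refine ⟨?_, ?_⟩
  · have h1 : W ι ∩ Function.support (g2 S.Q e1 e2 h (kerL S z1 z2 e1 e2 om) n) ⊆
        T '' (W ι' ∩ Function.support (gg S'.Q h (kerT S' z1 z2 om') n)) := by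
      rintro f ⟨hf1, hf2⟩
      obtain ⟨t, ht, rfl⟩ := hT.surjOn hf1
      refine ⟨t, ⟨hP1 t ht, ?_⟩, rfl⟩
      rw [Function.mem_support, hval t ht]
      exact hf2
    exact (hfin.image T).subset h1
  · rw [heq, hPW]
    exact finsum_mem_eq_of_bijOn T hT hval

theorem sum_split {ι : Type} [Fintype ι] [DecidableEq ι] (F : Finset (ι × V × V))
    (φ : ι × V × V → ℝ) :
    ∑ f ∈ F, φ f = ∑ i, ∑ p ∈ (F.filter (fun f => f.1 = i)).image Prod.snd, φ (i, p) := by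
  rw [← Finset.sum_fiberwise F (fun f => f.1) φ]
  refine Finset.sum_congr rfl fun i _ => ?_
  rw [Finset.sum_image]
  · refine Finset.sum_congr rfl fun f hf => ?_
    have h1 := (Finset.mem_filter.1 hf).2
    rw [← h1]
  · intro f hf g hg hfg
    have hf2 := (Finset.mem_filter.1 (Finset.mem_coe.1 hf)).2
    have hg2 := (Finset.mem_filter.1 (Finset.mem_coe.1 hg)).2
    exact Prod.ext (hf2.trans hg2.symm) hfg

theorem bdd_const_div (C : ℝ) : Bdd (fun N : ℕ => C / (N : ℝ)) := by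
  refine ⟨|C|, fun N => ?_⟩
  rw [abs_div, Nat.abs_cast]
  rcases Nat.eq_zero_or_pos N with hN | hN
  · rw [hN, Nat.cast_zero, div_zero]
    exact abs_nonneg C
  · exact div_le_self (abs_nonneg C) (by exact_mod_cast hN)

end N57

open N57 in
/-- Module SP3. -/
theorem stNullL_57 (hSys : StSysL) (hTest : StTestL) (hReg : StReg) (hC0 : StC0) (hMd : StMd) :
    StNullL := by
  intro d hd hA ι _ S hSd z1 z2 k hk hz1 hz2 hz e1 e2 hadm K hK om hom M δ h hδ hh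
  classical
  obtain ⟨m, hm0, hm⟩ : ∃ m : ℕ, 0 < m ∧ m + e2.1 * e1.2 = e1.1 * e2.2 := by
    rcases hadm with ⟨h1, h2, h3⟩ | ⟨h1, h2⟩
    · refine ⟨e1.1 - e2.1, by omega, ?_⟩
      rw [h1, h2]
      omega
    · refine ⟨1, one_pos, ?_⟩
      rw [h1, h2]
      simp
  obtain ⟨ι', _, S', K', om', P, T, hd', hK', hom', hP1, hP2, hT, hPT⟩ :=
    hSys ι S e1 e2 hadm m hm K hK om hom
  obtain ⟨hkp, δ', hδ', hh'⟩ := hTest e1 e2 m hm0 hm δ h hδ hh
  have hNull := hA ι' S' ⟨m, hm0, by rw [hd', hSd]⟩ z1 z2 k hk hz1 hz2 hz K' hK' om' hom' M δ' _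
    hδ' hh'
  obtain ⟨hl, hhl⟩ : ∃ hl : ℝ → ℝ → ℝ, hl = hL e1 e2 m h := ⟨_, rfl⟩
  rw [← hhl] at hh' hNull
  -- bounds of the kernels
  obtain ⟨c, hc0, hc⟩ := TopA.om_bdd hK hom
  obtain ⟨c', hc0', hc'⟩ := TopA.om_bdd hK' hom'
  have hU : ∀ i v v', ‖kerL S z1 z2 e1 e2 om i v v'‖ ≤ c := by
    intro i v v'
    unfold kerL
    rw [norm_mul, norm_mul, TopA.gz_norm hk hz1, TopA.gz_norm hk hz2, mul_one, mul_one]
    exact hc i v v'
  have hU' : ∀ i v v', ‖kerT S' z1 z2 om' i v v'‖ ≤ c' := by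
    intro i v v'
    unfold kerT
    rw [norm_mul, norm_mul, TopA.gz_norm hk hz1, TopA.gz_norm hk hz2, mul_one, mul_one]
    exact hc' i v v'
  -- the two functions
  obtain ⟨D, hD⟩ : ∃ D : ℝ → ℂ,
      D = fun x => ∑ i, Dk (S.Q i) h (kerL S z1 z2 e1 e2 om i) 1 x := ⟨_, rfl⟩
  obtain ⟨D', hD'⟩ : ∃ D' : ℝ → ℂ,
      D' = fun x => ∑ i, Dk (S'.Q i) hl (kerT S' z1 z2 om' i) 1 x := ⟨_, rfl⟩
  obtain ⟨CD, hCD⟩ : ∃ C, SVc C D := by
    rw [hD]
    exact TopM.svc_sum (fun i x => Dk (S.Q i) h (kerL S z1 z2 e1 e2 om i) 1 x)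
      (fun i => TopM.svc_Dk hC0 (S.pos i) hδ hh (hU i) 1)
  obtain ⟨CD', hCD'⟩ : ∃ C, SVc C D' := by
    rw [hD']
    exact TopM.svc_sum (fun i x => Dk (S'.Q i) hl (kerT S' z1 z2 om' i) 1 x)
      (fun i => TopM.svc_Dk hC0 (S'.pos i) hδ' hh' (hU' i) 1)
  obtain ⟨κ, hκ⟩ : ∃ κ : ℝ, κ = ((kp e1 e2 : ℝ)) ^ 2 := ⟨_, rfl⟩
  have hκ1 : 1 ≤ κ := by
    rw [hκ]
    have h1 : (1 : ℝ) ≤ (kp e1 e2 : ℝ) := by exact_mod_cast hkp
    nlinarith
  have hκ0 : 0 < κ := by linarith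
  have hCD0 : 0 ≤ CD' := (norm_nonneg _).trans (hCD'.1 1)
  -- dilation
  have hFs : SVc CD' (fun x => D' (κ * x)) := by
    refine ⟨fun x => hCD'.1 _, fun x y hx hxy => ?_⟩
    have h1 := hCD'.2 (κ * x) (κ * y) (by nlinarith) (by nlinarith)
    refine h1.trans (le_of_eq ?_)
    have hx0 : x ≠ 0 := by linarith
    have hk0 : κ ≠ 0 := hκ0.ne'
    field_simp
  have hkp2 : 0 < kp e1 e2 ^ 2 := by positivity
  have hdil := (hMd M (fun x => D' (κ * x)) CD' hFs (kp e1 e2 ^ 2) hkp2).1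
  have hdil2 : M.E (fun n : ℕ => ‖D' (κ * (n : ℝ))‖) = 0 := by
    rw [← hdil]
    have h1 : (fun n : ℕ => ‖D' (κ * ((n : ℝ) / ((kp e1 e2 ^ 2 : ℕ) : ℝ)))‖) =
        fun n : ℕ => ‖D' n‖ := by
      funext n
      have h2 : κ * ((n : ℝ) / ((kp e1 e2 ^ 2 : ℕ) : ℝ)) = n := by
        rw [hκ]
        have h3 : (kp e1 e2 : ℝ) ≠ 0 := by exact_mod_cast hkp.ne'
        push_cast
        field_simp
      rw [h2]
    rw [h1, hD']
    exact hNull
  -- the comparison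
  have hreg : ∀ i, ∃ (C : ℝ) (n0 : ℕ), ∀ n : ℕ, n0 ≤ n → ∀ F : Finset (V × V),
      (∀ f ∈ F, wd f.1 f.2 = 1) → ∑ f ∈ F, |tf (S.Q i) h n f.1 f.2 -
        tf (S.Q i) hl (κ * n) (lin e1 f.1 f.2) (lin e2 f.1 f.2)| ≤ C := by
    intro i
    obtain ⟨C, n0, h1⟩ := hReg (S.Q i) (S.pos i) e1 e2 m hm0 hm δ h hδ hh
    refine ⟨C, n0, fun n hn F hF => ?_⟩
    have h2 := h1 n hn F hF
    rw [hhl, hκ]
    unfold tf
    exact h2
  choose CR nR hR using hreg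
  obtain ⟨n1, hn1⟩ : ∃ n1 : ℕ, n1 = ∑ i, nR i + 1 := ⟨_, rfl⟩
  have hnR : ∀ i, nR i ≤ n1 := by
    intro i
    have h1 := Finset.single_le_sum (f := nR) (fun j _ => Nat.zero_le _) (Finset.mem_univ i)
    omega
  obtain ⟨C', hC'⟩ : ∃ C' : ℝ, C' = c * ∑ i, |CR i| := ⟨_, rfl⟩
  have hcmp : ∀ n : ℕ, n1 ≤ n → ‖D n‖ ≤ κ * ‖D' (κ * n)‖ + C' / n := by
    intro n hn
    have hn0 : 0 < n := by omega
    have hn0' : (0 : ℝ) < n := by exact_mod_cast hn0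
    have hN0 : (0 : ℝ) < κ * n := by positivity
    obtain ⟨hf1, he1⟩ := dk_eq S.Q S.pos hh (kerL S z1 z2 e1 e2 om) hn0'
    obtain ⟨hf2, he2⟩ := transfer S S' z1 z2 e1 e2 om om' P T hP1 hP2 hT hPT hh' hN0
    obtain ⟨F, hF⟩ : ∃ F : Finset (ι × V × V), F = (hf1.union hf2).toFinset := ⟨_, rfl⟩
    have hFW : ∀ f ∈ F, wd f.2.1 f.2.2 = 1 := by
      intro f hf
      rw [hF, Set.Finite.mem_toFinset] at hf
      rcases hf with hf | hf
      · exact hf.1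
      · exact hf.1
    have hs1 : ∑ᶠ f ∈ W ι, gg S.Q h (kerL S z1 z2 e1 e2 om) n f =
        ∑ f ∈ F, gg S.Q h (kerL S z1 z2 e1 e2 om) n f := by
      apply finsum_mem_eq_sum_of_inter_support_eq
      ext f
      constructor
      · rintro ⟨h1, h2⟩
        refine ⟨?_, h2⟩
        rw [hF, Set.Finite.coe_toFinset]
        exact Or.inl ⟨h1, h2⟩
      · rintro ⟨h1, h2⟩
        exact ⟨hFW f (Finset.mem_coe.1 h1), h2⟩
    have hs2 : ∑ᶠ f ∈ W ι, g2 S.Q e1 e2 hl (kerL S z1 z2 e1 e2 om) (κ * n) f =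
        ∑ f ∈ F, g2 S.Q e1 e2 hl (kerL S z1 z2 e1 e2 om) (κ * n) f := by
      apply finsum_mem_eq_sum_of_inter_support_eq
      ext f
      constructor
      · rintro ⟨h1, h2⟩
        refine ⟨?_, h2⟩
        rw [hF, Set.Finite.coe_toFinset]
        exact Or.inr ⟨h1, h2⟩
      · rintro ⟨h1, h2⟩
        exact ⟨hFW f (Finset.mem_coe.1 h1), h2⟩
    have hb : ‖(n : ℂ) * D n - ((κ * n : ℝ) : ℂ) * D' (κ * n)‖ ≤ C' := by
      have e1' : (n : ℂ) * D n = ∑ f ∈ F, gg S.Q h (kerL S z1 z2 e1 e2 om) n f := by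
        rw [← hs1, ← he1, hD]
        norm_num
      have e2' : ((κ * n : ℝ) : ℂ) * D' (κ * n) =
          ∑ f ∈ F, g2 S.Q e1 e2 hl (kerL S z1 z2 e1 e2 om) (κ * n) f := by
        rw [← hs2, ← he2, hD']
      rw [e1', e2', ← Finset.sum_sub_distrib]
      refine (norm_sum_le _ _).trans ?_
      have h1 : ∀ f ∈ F, ‖gg S.Q h (kerL S z1 z2 e1 e2 om) n f -
          g2 S.Q e1 e2 hl (kerL S z1 z2 e1 e2 om) (κ * n) f‖ ≤
          c * |tf (S.Q f.1) h n f.2.1 f.2.2 -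
            tf (S.Q f.1) hl (κ * n) (lin e1 f.2.1 f.2.2) (lin e2 f.2.1 f.2.2)| := by
        intro f _
        unfold gg g2
        rw [← sub_mul, norm_mul, ← Complex.ofReal_sub, Complex.norm_real, Real.norm_eq_abs,
          mul_comm]
        exact mul_le_mul_of_nonneg_right (hU _ _ _) (abs_nonneg _)
      refine (Finset.sum_le_sum h1).trans ?_
      rw [← Finset.mul_sum, hC']
      apply mul_le_mul_of_nonneg_left _ hc0
      rw [sum_split F (fun f => |tf (S.Q f.1) h n f.2.1 f.2.2 -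
            tf (S.Q f.1) hl (κ * n) (lin e1 f.2.1 f.2.2) (lin e2 f.2.1 f.2.2)|)]
      refine Finset.sum_le_sum fun i _ => ?_
      refine (hR i n ((hnR i).trans hn) _ ?_).trans (le_abs_self _)
      intro p hp
      rw [Finset.mem_image] at hp
      obtain ⟨f, hf, rfl⟩ := hp
      exact hFW f (Finset.mem_filter.1 hf).1
    have hb2 : (n : ℝ) * ‖D n‖ ≤ κ * n * ‖D' (κ * n)‖ + C' := by
      have h1 := norm_sub_norm_le ((n : ℂ) * D n) (((κ * n : ℝ) : ℂ) * D' (κ * n))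
      rw [norm_mul, norm_mul, Complex.norm_natCast, Complex.norm_real,
        Real.norm_of_nonneg hN0.le] at h1
      linarith
    have hb3 : κ * ‖D' (κ * n)‖ + C' / n = (κ * n * ‖D' (κ * n)‖ + C') / n := by
      field_simp
    rw [hb3, le_div_iff₀ hn0', mul_comm]
    exact hb2
  have hB1 : Bdd (fun n : ℕ => ‖D n‖) := ⟨CD, fun n => by
    rw [abs_of_nonneg (norm_nonneg _)]
    exact hCD.1 _⟩
  have hB2 : Bdd (fun n : ℕ => ‖D' (κ * n)‖) := ⟨CD', fun n => by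
    rw [abs_of_nonneg (norm_nonneg _)]
    exact hCD'.1 _⟩
  have hgoal : M.E (fun n : ℕ => ‖D n‖) = 0 := by
    apply le_antisymm
    · refine (TopM.mono_ev M hB1 ((hB2.smul κ).add (bdd_const_div C'))
        ((eventually_ge_atTop n1).mono hcmp)).trans ?_
      rw [M.add _ _ (hB2.smul κ) (bdd_const_div C'), M.smul _ _ hB2, hdil2,
        M.null _ (bdd_const_div C') (tendsto_const_div_atTop_nhds_zero_nat C'), mul_zero, add_zero]
    · exact M.nonneg _ hB1 fun n => norm_nonneg _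
  rw [hD] at hgoal
  exact hgoal

end Pool.Agent.Lib.MP_a17b09_nt.SP
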