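import Pool.Agent.Lib.MP_a17b09_nt.SP.StmtsSP99
import Pool.Agent.Lib.MP_a17b09_nt.CH.C027

/-!
Project SP (MP_a17b09_nt): (SP2b) the change of region, summed over all frames.
-/

set_option autoImplicit false

open Filter Topology Finset

namespace Pool.Agent.Lib.MP_a17b09_nt.SP

open Pool.Agent.Lib.MP_a17b09_nt.CH

namespace Reg19

theorem sq_close {s t t0 ε : ℝ} (hs : 0 ≤ s) (ht0 : 0 < t0) (ht : t0 ≤ t)
    (h : |s ^ 2 - t ^ 2| ≤ ε) : |s - t| ≤ ε / t0 := by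
  rw [le_div_iff₀ ht0]
  have h1 : s ^ 2 - t ^ 2 = (s - t) * (s + t) := by ring
  rw [h1, abs_mul] at h
  have h2 : t0 ≤ |s + t| := by
    rw [abs_of_nonneg (by linarith)]
    linarith
  exact (mul_le_mul_of_nonneg_left h2 (abs_nonneg _)).trans h

/-- `2 x y - β` is small -/
theorem rho {x y β D δ : ℝ} (hδ : 0 < δ) (hx : δ ≤ x) (hy : δ ≤ y) (hβ : 0 ≤ β) (hD : 0 ≤ D)
    (h : 4 * x ^ 2 * y ^ 2 = β ^ 2 + D) :
    0 ≤ 2 * x * y - β ∧ 2 * x * y - β ≤ D / (2 * δ ^ 2) := by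
  have h1 : (2 * x * y - β) * (2 * x * y + β) = D := by linarith
  have h0 : δ * δ ≤ x * y := mul_le_mul hx hy hδ.le (by linarith)
  have h2 : 2 * δ ^ 2 ≤ 2 * x * y + β := by nlinarith
  have h3 : 0 < 2 * x * y + β := lt_of_lt_of_le (by positivity) h2
  have h4 : 0 ≤ 2 * x * y - β := by
    by_contra hc
    push Not at hc
    have := mul_neg_of_neg_of_pos hc h3
    linarith
  refine ⟨h4, ?_⟩
  rw [le_div_iff₀ (by positivity)]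
  calc (2 * x * y - β) * (2 * δ ^ 2) ≤ (2 * x * y - β) * (2 * x * y + β) :=
        mul_le_mul_of_nonneg_left h2 h4
    _ = D := h1

/-- the length of `p w + r w'` -/
theorem len {p r κ x y β X ρ δ : ℝ} (hp : 0 ≤ p) (hr : 0 ≤ r) (hpr : 1 ≤ p + r) (hpκ : p ≤ κ)
    (hrκ : r ≤ κ) (hδ : 0 < δ) (hx : δ ≤ x) (hy : δ ≤ y) (hX : 0 ≤ X) (hρ : 0 ≤ ρ)
    (hβ : ρ = 2 * x * y - β) (hXX : X ^ 2 = p ^ 2 * x ^ 2 + p * r * β + r ^ 2 * y ^ 2) :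
    |X - (p * x + r * y)| ≤ κ ^ 2 * ρ / δ := by
  have hκ : 0 ≤ κ := hp.trans hpκ
  have h1 : |X ^ 2 - (p * x + r * y) ^ 2| ≤ κ ^ 2 * ρ := by
    have h2 : X ^ 2 - (p * x + r * y) ^ 2 = -(p * r * ρ) := by
      rw [hXX, hβ]
      ring
    rw [h2, abs_neg, abs_of_nonneg (by positivity)]
    apply mul_le_mul_of_nonneg_right _ hρ
    rw [sq]
    exact mul_le_mul hpκ hrκ hr hκ
  refine sq_close hX hδ ?_ h1
  have h3 := mul_le_mul_of_nonneg_left hx hp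
  have h4 := mul_le_mul_of_nonneg_left hy hr
  nlinarith

/-- forward -/
theorem fwd {p1 r1 p2 r2 m κ x y β X Y ρ δ : ℝ} (hp1 : 0 ≤ p1) (hr1 : 0 ≤ r1) (hp2 : 0 ≤ p2)
    (hr2 : 0 ≤ r2) (h1 : 1 ≤ p1 + r1) (h2 : 1 ≤ p2 + r2) (hp1κ : p1 ≤ κ) (hr1κ : r1 ≤ κ)
    (hp2κ : p2 ≤ κ) (hr2κ : r2 ≤ κ) (hm : 1 ≤ m) (hm' : m = p1 * r2 - p2 * r1)
    (hδ : 0 < δ) (hx : δ ≤ x) (hy : δ ≤ y) (hX : 0 ≤ X) (hY : 0 ≤ Y) (hρ : 0 ≤ ρ)
    (hβ : ρ = 2 * x * y - β) (hXX : X ^ 2 = p1 ^ 2 * x ^ 2 + p1 * r1 * β + r1 ^ 2 * y ^ 2)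
    (hYY : Y ^ 2 = p2 ^ 2 * x ^ 2 + p2 * r2 * β + r2 ^ 2 * y ^ 2) :
    |x - (r2 * X - r1 * Y) / m| ≤ 2 * κ ^ 3 * ρ / δ ∧
    |y - (p1 * Y - p2 * X) / m| ≤ 2 * κ ^ 3 * ρ / δ := by
  have hκ : 0 ≤ κ := hp1.trans hp1κ
  have hm0 : 0 < m := by linarith
  have a1 := len hp1 hr1 h1 hp1κ hr1κ hδ hx hy hX hρ hβ hXX
  have a2 := len hp2 hr2 h2 hp2κ hr2κ hδ hx hy hY hρ hβ hYY
  set u := X - (p1 * x + r1 * y) with hu
  set v := Y - (p2 * x + r2 * y) with hv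
  have hT : 0 ≤ κ ^ 2 * ρ / δ := by positivity
  have key : ∀ s t : ℝ, 0 ≤ s → s ≤ κ → 0 ≤ t → t ≤ κ → |s * u - t * v| ≤
      2 * κ ^ 3 * ρ / δ := by
    intro s t hs hs' ht ht'
    have h5 : |s * u - t * v| ≤ s * |u| + t * |v| := by
      calc |s * u - t * v| ≤ |s * u| + |t * v| := abs_sub _ _
        _ = s * |u| + t * |v| := by
            rw [abs_mul, abs_mul, abs_of_nonneg hs, abs_of_nonneg ht]
    have h6 : s * |u| ≤ κ * (κ ^ 2 * ρ / δ) := mul_le_mul hs' a1 (abs_nonneg _) hκ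
    have h7 : t * |v| ≤ κ * (κ ^ 2 * ρ / δ) := mul_le_mul ht' a2 (abs_nonneg _) hκ
    have h8 : κ * (κ ^ 2 * ρ / δ) + κ * (κ ^ 2 * ρ / δ) = 2 * κ ^ 3 * ρ / δ := by ring
    linarith
  have div : ∀ z : ℝ, |z| / m ≤ |z| := by
    intro z
    rw [div_le_iff₀ hm0]
    nlinarith [abs_nonneg z]
  constructor
  · have h5 : x - (r2 * X - r1 * Y) / m = -((r2 * u - r1 * v) / m) := by
      rw [hu, hv, eq_neg_iff_add_eq_zero]
      field_simp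
      rw [hm']
      ring
    rw [h5, abs_neg, abs_div, abs_of_pos hm0]
    exact (div _).trans (key _ _ hr2 hr2κ hr1 hr1κ)
  · have h5 : y - (p1 * Y - p2 * X) / m = (p2 * u - p1 * v) / m := by
      rw [hu, hv, eq_div_iff hm0.ne', sub_mul, div_mul_cancel₀ _ hm0.ne']
      rw [hm']
      ring
    rw [h5, abs_div, abs_of_pos hm0]
    exact (div _).trans (key _ _ hp2 hp2κ hp1 hp1κ)

/-- backward -/
theorem bwd {r1 r2 κ m x X ρ δ : ℝ} (hr1 : 0 ≤ r1) (hr2 : 0 ≤ r2) (hr1κ : r1 ≤ κ) (hr2κ : r2 ≤ κ)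
    (hm : 1 ≤ m) (hδ : 0 < δ) (hX : δ ≤ X) (hX1 : X ≤ 1) (hx : 0 ≤ x) (hρ : 0 ≤ ρ)
    (h : m ^ 2 * x ^ 2 = m ^ 2 * X ^ 2 + r1 * r2 * ρ) (hκ : κ ^ 2 * ρ ≤ 1) :
    |x - X| ≤ κ ^ 2 * ρ / δ ∧ δ ^ 2 ≤ x ^ 2 ∧ x ^ 2 ≤ 2 := by
  have hm2 : 1 ≤ m ^ 2 := by nlinarith
  have h0 : 0 ≤ r1 * r2 * ρ := by positivity
  have h1 : r1 * r2 * ρ ≤ κ ^ 2 * ρ := by
    apply mul_le_mul_of_nonneg_right _ hρ
    rw [sq]
    exact mul_le_mul hr1κ hr2κ hr2 (hr1.trans hr1κ)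
  have h2 : x ^ 2 - X ^ 2 = r1 * r2 * ρ / m ^ 2 := by
    rw [eq_div_iff (by positivity)]
    linarith
  have h3 : r1 * r2 * ρ / m ^ 2 ≤ r1 * r2 * ρ := div_le_self h0 hm2
  have h4 : 0 ≤ r1 * r2 * ρ / m ^ 2 := by positivity
  refine ⟨sq_close hx hδ hX ?_, ?_, ?_⟩
  · rw [h2, abs_of_nonneg h4]
    linarith
  · have : δ ^ 2 ≤ X ^ 2 := by nlinarith
    linarith
  · have : X ^ 2 ≤ 1 := by nlinarith
    linarith

/-- backward, all conclusions -/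
theorem bwdAll {p1 r1 p2 r2 m κ x y β β' X' Y' X Y ρ δ : ℝ} (hp1 : 0 ≤ p1) (hr1 : 0 ≤ r1)
    (hp2 : 0 ≤ p2) (hr2 : 0 ≤ r2) (hp1κ : p1 ≤ κ) (hr1κ : r1 ≤ κ) (hp2κ : p2 ≤ κ)
    (hr2κ : r2 ≤ κ) (hm : 1 ≤ m) (hm' : m = p1 * r2 - p2 * r1) (hδ : 0 < δ) (g1 : δ ≤ X)
    (g2 : X ≤ 1) (g3 : δ ≤ Y) (g4 : Y ≤ 1) (hx : 0 ≤ x) (hy : 0 ≤ y)
    (eX : m * X = r2 * X' - r1 * Y') (eY : m * Y = p1 * Y' - p2 * X')
    (hX2 : X' ^ 2 = p1 ^ 2 * x ^ 2 + p1 * r1 * β + r1 ^ 2 * y ^ 2)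
    (hY2 : Y' ^ 2 = p2 ^ 2 * x ^ 2 + p2 * r2 * β + r2 ^ 2 * y ^ 2)
    (hβ2 : β' = 2 * p1 * p2 * x ^ 2 + (p1 * r2 + p2 * r1) * β + 2 * r1 * r2 * y ^ 2)
    (hρ : 0 ≤ ρ) (hρd : ρ = 2 * X' * Y' - β') (hκρ : κ ^ 2 * ρ ≤ δ ^ 2 / 4) :
    0 < β ∧ |x - X| ≤ κ ^ 2 * ρ / δ ∧ |y - Y| ≤ κ ^ 2 * ρ / δ ∧ δ ^ 2 ≤ x ^ 2 ∧ x ^ 2 ≤ 2 ∧
      y ^ 2 ≤ 2 := by
  have hκ0 : 0 ≤ κ := hp1.trans hp1κ
  have hδ1 : δ ≤ 1 := g1.trans g2
  have hδ2 : δ ^ 2 ≤ 1 := by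
    rw [sq]
    exact mul_le_one₀ hδ1 hδ.le hδ1
  have hκρ1 : κ ^ 2 * ρ ≤ 1 := by linarith
  have hm0 : 0 < m := by linarith
  have hm2 : 1 ≤ m ^ 2 := one_le_pow₀ hm
  have i1 : m ^ 2 * x ^ 2 = m ^ 2 * X ^ 2 + r1 * r2 * ρ := by
    have h1 : m ^ 2 * X ^ 2 = (r2 * X' - r1 * Y') ^ 2 := by rw [← eX]; ring
    have h2 : (r2 * X' - r1 * Y') ^ 2 + r1 * r2 * ρ =
        r2 ^ 2 * X' ^ 2 - r1 * r2 * β' + r1 ^ 2 * Y' ^ 2 := by
      rw [hρd]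
      ring
    rw [h1, h2, hX2, hY2, hβ2, hm']
    ring
  have i2 : m ^ 2 * y ^ 2 = m ^ 2 * Y ^ 2 + p1 * p2 * ρ := by
    have h1 : m ^ 2 * Y ^ 2 = (p1 * Y' - p2 * X') ^ 2 := by rw [← eY]; ring
    have h2 : (p1 * Y' - p2 * X') ^ 2 + p1 * p2 * ρ =
        p1 ^ 2 * Y' ^ 2 - p1 * p2 * β' + p2 ^ 2 * X' ^ 2 := by
      rw [hρd]
      ring
    rw [h1, h2, hX2, hY2, hβ2, hm']
    ring
  have i3 : m ^ 2 * β = 2 * (m * X) * (m * Y) - (p1 * r2 + p2 * r1) * ρ := by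
    have h2 : 2 * (r2 * X' - r1 * Y') * (p1 * Y' - p2 * X') - (p1 * r2 + p2 * r1) * ρ =
        (p1 * r2 + p2 * r1) * β' - 2 * r2 * p2 * X' ^ 2 - 2 * r1 * p1 * Y' ^ 2 := by
      rw [hρd]
      ring
    rw [eX, eY, h2, hX2, hY2, hβ2, hm']
    ring
  have j1 := bwd hr1 hr2 hr1κ hr2κ hm hδ g1 g2 hx hρ i1 hκρ1
  have j2 := bwd hp1 hp2 hp1κ hp2κ hm hδ g3 g4 hy hρ i2 hκρ1
  refine ⟨?_, j1.1, j2.1, j1.2.1, j1.2.2, j2.2.2⟩
  have h2 : p1 * r2 ≤ κ * κ := mul_le_mul hp1κ hr2κ hr2 hκ0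
  have h3 : p2 * r1 ≤ κ * κ := mul_le_mul hp2κ hr1κ hr1 hκ0
  have h1 : (p1 * r2 + p2 * r1) * ρ ≤ 2 * (κ ^ 2 * ρ) := by
    have h4 : p1 * r2 + p2 * r1 ≤ 2 * κ ^ 2 := by
      rw [sq]
      linarith
    calc (p1 * r2 + p2 * r1) * ρ ≤ 2 * κ ^ 2 * ρ := mul_le_mul_of_nonneg_right h4 hρ
      _ = 2 * (κ ^ 2 * ρ) := by ring
  have h5 : δ * δ ≤ X * Y := mul_le_mul g1 g3 hδ.le (by linarith)
  have h6 : 0 < δ * δ := mul_pos hδ hδ
  have h7 : 1 * (δ * δ) ≤ m ^ 2 * (X * Y) := mul_le_mul hm2 h5 h6.le (by positivity)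
  have h8 : 0 < m ^ 2 * β := by
    rw [i3]
    have h9 : 2 * (m * X) * (m * Y) = 2 * (m ^ 2 * (X * Y)) := by ring
    rw [h9]
    have h10 : δ ^ 2 = δ * δ := sq δ
    linarith
  exact (pos_iff_pos_of_mul_pos h8).1 (by positivity)

/-- the size of the defect -/
theorem defect {D k m δ n : ℝ} (hD : 0 ≤ D) (hk : 0 ≤ k) (hkm : k ≤ m ^ 2) (hδ : 0 < δ)
    (hn : 1 ≤ n) : D * k / n ^ 2 / (2 * δ ^ 2) ≤ D * m ^ 2 / (2 * δ ^ 2) / n := by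
  have hn0 : 0 < n := by linarith
  rw [div_div, div_div, div_le_div_iff₀ (by positivity) (by positivity)]
  have h1 : n ≤ n ^ 2 := by nlinarith
  calc D * k * (2 * δ ^ 2 * n) = (2 * δ ^ 2 * D) * (k * n) := by ring
    _ ≤ (2 * δ ^ 2 * D) * (m ^ 2 * n ^ 2) :=
        mul_le_mul_of_nonneg_left (mul_le_mul hkm h1 hn0.le (hk.trans hkm)) (by positivity)
    _ = D * m ^ 2 * (n ^ 2 * (2 * δ ^ 2)) := by ring

theorem nr_sq {Q : Form} (hQ : Q.Pos) {n : ℝ} (hn : 0 < n) (v : V) :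
    Q.nr n v ^ 2 = Q.q v / n := by
  have h0 : (0 : ℝ) ≤ Q.q v := by exact_mod_cast hQ.q_nonneg v
  unfold Form.nr
  rw [Real.sq_sqrt (by positivity)]

theorem nr_scale (Q : Form) {k n : ℝ} (hk : 0 < k) (v : V) :
    k * Q.nr (k ^ 2 * n) v = Q.nr n v := by
  unfold Form.nr
  have h1 : (Q.q v : ℝ) / (k ^ 2 * n) = (Q.q v / n) / k ^ 2 := by
    rw [div_div, mul_comm n]
  rw [h1, Real.sqrt_div' _ (by positivity), Real.sqrt_sq hk.le]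
  field_simp

theorem q_lin (Q : Form) (e : ℕ × ℕ) (w w' : V) : Q.q (lin e w w') =
    (e.1 : ℤ) ^ 2 * Q.q w + e.1 * e.2 * Q.B w w' + (e.2 : ℤ) ^ 2 * Q.q w' := by
  unfold lin Form.q Form.B
  ring

theorem B_lin (Q : Form) (e1 e2 : ℕ × ℕ) (w w' : V) : Q.B (lin e1 w w') (lin e2 w w') =
    2 * e1.1 * e2.1 * Q.q w + (e1.1 * e2.2 + e2.1 * e1.2) * Q.B w w' +
      2 * e1.2 * e2.2 * Q.q w' := by
  unfold lin Form.q Form.B
  ring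

theorem wd_lin (e1 e2 : ℕ × ℕ) (w w' : V) : wd (lin e1 w w') (lin e2 w w') =
    ((e1.1 : ℤ) * e2.2 - e2.1 * e1.2) * wd w w' := by
  unfold lin wd
  ring

/-- one term -/
theorem term {Q : Form} (hQ : Q.Pos) {e1 e2 : ℕ × ℕ} {m : ℕ} (hm : 0 < m)
    (hdet : m + e2.1 * e1.2 = e1.1 * e2.2) {δ : ℝ} {h : ℝ → ℝ → ℝ} (hδ : 0 < δ) (hT : Test δ h)
    {C : ℝ} (hC : 0 ≤ C)
    (hLip : ∀ x y x' y', |h x y - h x' y'| ≤ C * (|x - x'| + |y - y'|))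
    {n : ℝ} (hn : 1 ≤ n) {R : ℝ} (hR : R = Q.D * (m : ℝ) ^ 2 / (2 * δ ^ 2))
    (hnR : 4 * (kp e1 e2 : ℝ) ^ 2 * R ≤ δ ^ 2 * n) {w w' : V} (hw : wd w w' = 1)
    (hne : (if 0 < Q.B w w' then h (Q.nr n w) (Q.nr n w') else 0) -
      (if 0 < Q.B (lin e1 w w') (lin e2 w w') then
        hL e1 e2 m h (Q.nr ((kp e1 e2 : ℝ) ^ 2 * n) (lin e1 w w'))
          (Q.nr ((kp e1 e2 : ℝ) ^ 2 * n) (lin e2 w w')) else 0) ≠ 0) :
    (δ ^ 2 * n ≤ Q.q w ∧ (Q.q w : ℝ) ≤ 2 * n ∧ (Q.q w' : ℝ) ≤ 2 * n) ∧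
    |(if 0 < Q.B w w' then h (Q.nr n w) (Q.nr n w') else 0) -
      (if 0 < Q.B (lin e1 w w') (lin e2 w w') then
        hL e1 e2 m h (Q.nr ((kp e1 e2 : ℝ) ^ 2 * n) (lin e1 w w'))
          (Q.nr ((kp e1 e2 : ℝ) ^ 2 * n) (lin e2 w w')) else 0)| ≤
      C * (4 * (kp e1 e2 : ℝ) ^ 3 * R / (δ * n)) := by
  obtain ⟨p1, r1⟩ := e1
  obtain ⟨p2, r2⟩ := e2
  simp only at hdet
  have hn0 : 0 < n := by linarith
  set κ : ℝ := (kp (p1, r1) (p2, r2) : ℝ) with hκ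
  have hκ' : κ = p1 + r1 + p2 + r2 := by
    rw [hκ]
    unfold kp
    push_cast
    ring
  have h10 : (0 : ℝ) ≤ p1 := Nat.cast_nonneg _
  have h20 : (0 : ℝ) ≤ r1 := Nat.cast_nonneg _
  have h30 : (0 : ℝ) ≤ p2 := Nat.cast_nonneg _
  have h40 : (0 : ℝ) ≤ r2 := Nat.cast_nonneg _
  have hs1 : (1 : ℝ) ≤ (p1 : ℝ) + r1 := by
    have h1 : 1 ≤ p1 + r1 := by
      by_contra hc
      have h2 : p1 = 0 := by omega
      rw [h2] at hdet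
      omega
    exact_mod_cast h1
  have hs2 : (1 : ℝ) ≤ (p2 : ℝ) + r2 := by
    have h1 : 1 ≤ p2 + r2 := by
      by_contra hc
      have h2 : r2 = 0 := by omega
      rw [h2] at hdet
      omega
    exact_mod_cast h1
  have hκ1 : 1 ≤ κ := by linarith
  have hm1 : (1 : ℝ) ≤ m := by exact_mod_cast hm
  have hmd : (m : ℝ) = p1 * r2 - p2 * r1 := by
    have h1 : ((m + p2 * r1 : ℕ) : ℝ) = ((p1 * r2 : ℕ) : ℝ) := by rw [hdet]
    push_cast at h1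
    linarith
  have hD : (0 : ℝ) < Q.D := by exact_mod_cast hQ.2
  have hR0 : 0 ≤ R := by
    rw [hR]
    positivity
  -- scaled quantities
  set v := lin (p1, r1) w w' with hv
  set v' := lin (p2, r2) w w' with hv'
  set x := Q.nr n w with hx
  set y := Q.nr n w' with hy
  set X' := Q.nr n v with hX'
  set Y' := Q.nr n v' with hY'
  set β : ℝ := Q.B w w' / n with hβ
  set β' : ℝ := Q.B v v' / n with hβ'
  have hx0 : 0 ≤ x := C27.nr_nonneg _ _ _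
  have hy0 : 0 ≤ y := C27.nr_nonneg _ _ _
  have hX0 : 0 ≤ X' := C27.nr_nonneg _ _ _
  have hY0 : 0 ≤ Y' := C27.nr_nonneg _ _ _
  have hx2 : x ^ 2 = Q.q w / n := nr_sq hQ hn0 w
  have hy2 : y ^ 2 = Q.q w' / n := nr_sq hQ hn0 w'
  have hX2 : X' ^ 2 = p1 ^ 2 * x ^ 2 + p1 * r1 * β + r1 ^ 2 * y ^ 2 := by
    rw [hX', nr_sq hQ hn0, hv, q_lin, hx2, hy2, hβ]
    push_cast
    ring
  have hY2 : Y' ^ 2 = p2 ^ 2 * x ^ 2 + p2 * r2 * β + r2 ^ 2 * y ^ 2 := by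
    rw [hY', nr_sq hQ hn0, hv', q_lin, hx2, hy2, hβ]
    push_cast
    ring
  have hβ2 : β' = 2 * p1 * p2 * x ^ 2 + (p1 * r2 + p2 * r1) * β + 2 * r1 * r2 * y ^ 2 := by
    rw [hβ', hv, hv', B_lin, hx2, hy2, hβ]
    push_cast
    ring
  have key1 : 4 * x ^ 2 * y ^ 2 = β ^ 2 + Q.D / n ^ 2 := by
    have h1 : ((4 * Q.q w * Q.q w' : ℤ) : ℝ) = ((Q.B w w' ^ 2 + Q.D * wd w w' ^ 2 : ℤ) : ℝ) := by
      rw [Q.key w w']
    rw [hw] at h1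
    push_cast at h1
    rw [hx2, hy2, hβ]
    have h2 : 4 * ((Q.q w : ℝ) / n) * (Q.q w' / n) = (4 * Q.q w * Q.q w') / n ^ 2 := by
      rw [sq]
      field_simp
    rw [h2, h1]
    ring
  have key2 : 4 * X' ^ 2 * Y' ^ 2 = β' ^ 2 + Q.D * m ^ 2 / n ^ 2 := by
    have h1 : ((4 * Q.q v * Q.q v' : ℤ) : ℝ) = ((Q.B v v' ^ 2 + Q.D * wd v v' ^ 2 : ℤ) : ℝ) := by
      rw [Q.key v v']
    have h3 : ((wd v v' : ℤ) : ℝ) = m := by
      rw [hv, hv', wd_lin, hw, hmd]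
      push_cast
      ring
    push_cast at h1
    rw [h3] at h1
    rw [hX', hY', nr_sq hQ hn0, nr_sq hQ hn0, hβ']
    have h2 : 4 * ((Q.q v : ℝ) / n) * (Q.q v' / n) = (4 * Q.q v * Q.q v') / n ^ 2 := by
      rw [sq]
      field_simp
    rw [h2, h1]
    ring
  have hB1 : 0 < Q.B w w' ↔ 0 < β := by
    rw [hβ, div_pos_iff_of_pos_right hn0]
    norm_cast
  have hB2 : 0 < Q.B v v' ↔ 0 < β' := by
    rw [hβ', div_pos_iff_of_pos_right hn0]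
    norm_cast
  -- the transformed function
  have hhL : hL (p1, r1) (p2, r2) m h (Q.nr (κ ^ 2 * n) v) (Q.nr (κ ^ 2 * n) v') =
      h ((r2 * X' - r1 * Y') / m) ((p1 * Y' - p2 * X') / m) := by
    have hk : 0 < κ := by linarith
    have e1 := nr_scale Q (n := n) hk v
    have e2 := nr_scale Q (n := n) hk v'
    unfold hL
    rw [← hκ, hX', hY', ← e1, ← e2]
    congr 1
    · congr 1
      simp only
      ring
    · congr 1
      simp only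
      ring
  set X := ((r2 : ℝ) * X' - r1 * Y') / m with hX
  set Y := ((p1 : ℝ) * Y' - p2 * X') / m with hY
  rw [hhL] at hne ⊢
  -- it suffices
  have suff : (δ ^ 2 ≤ x ^ 2 ∧ x ^ 2 ≤ 2 ∧ y ^ 2 ≤ 2) → 0 < β → 0 < β' →
      |x - X| ≤ 2 * κ ^ 3 * (R / n) / δ → |y - Y| ≤ 2 * κ ^ 3 * (R / n) / δ →
      (δ ^ 2 * n ≤ Q.q w ∧ (Q.q w : ℝ) ≤ 2 * n ∧ (Q.q w' : ℝ) ≤ 2 * n) ∧
      |(if 0 < Q.B w w' then h x y else 0) - (if 0 < Q.B v v' then h X Y else 0)| ≤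
        C * (4 * κ ^ 3 * R / (δ * n)) := by
    intro a1 a2 a3 a4 a5
    refine ⟨⟨?_, ?_, ?_⟩, ?_⟩
    · have := a1.1
      rwa [hx2, le_div_iff₀ hn0] at this
    · have := a1.2.1
      rwa [hx2, div_le_iff₀ hn0] at this
    · have := a1.2.2
      rwa [hy2, div_le_iff₀ hn0] at this
    · rw [if_pos (hB1.2 a2), if_pos (hB2.2 a3)]
      refine (hLip _ _ _ _).trans (mul_le_mul_of_nonneg_left ?_ hC)
      refine (add_le_add a4 a5).trans (le_of_eq ?_)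
      field_simp
      ring
  have hRn : 0 ≤ R / n := by positivity
  by_cases hc1 : 0 < β ∧ h x y ≠ 0
  · -- forward
    obtain ⟨hb, hh⟩ := hc1
    obtain ⟨g1, g2, g3, g4⟩ := hT.2 _ _ hh
    have hρ := rho hδ g1 g3 hb.le (by positivity) key1
    set ρ := 2 * x * y - β with hρd
    have hρR : ρ ≤ R / n := by
      refine hρ.2.trans ?_
      rw [hR]
      have h1 := defect (D := (Q.D : ℝ)) (k := 1) (m := (m : ℝ)) hD.le zero_le_one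
        (one_le_pow₀ hm1) hδ hn
      rwa [mul_one] at h1
    have hf := fwd (κ := κ) (m := m) (ρ := ρ) h10 h20 h30 h40 hs1 hs2 (by linarith)
      (by linarith) (by linarith) (by linarith) hm1 hmd hδ g1 g3 hX0 hY0 hρ.1 rfl hX2 hY2
    have hb' : 0 < β' := by
      rw [hβ2]
      have h1 : (0 : ℝ) < p1 * r2 + p2 * r1 := by
        have : (0 : ℝ) ≤ p2 * r1 := by positivity
        linarith
      positivity
    have hle : 2 * κ ^ 3 * ρ / δ ≤ 2 * κ ^ 3 * (R / n) / δ := by gcongr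
    have q1 : δ ^ 2 ≤ x ^ 2 := pow_le_pow_left₀ hδ.le g1 2
    have q2 : x ^ 2 ≤ 1 := pow_le_one₀ hx0 g2
    have q3 : y ^ 2 ≤ 1 := pow_le_one₀ hy0 g4
    exact suff ⟨q1, by linarith, by linarith⟩ hb hb' (hf.1.trans hle) (hf.2.trans hle)
  · -- backward
    have hz : (if 0 < Q.B w w' then h x y else 0) = 0 := by
      split_ifs with h1
      · by_contra h2
        exact hc1 ⟨hB1.1 h1, h2⟩
      · rfl
    rw [hz] at hne
    have hb' : 0 < β' := by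
      by_contra h1
      rw [if_neg (fun h2 => h1 (hB2.1 h2))] at hne
      simp at hne
    have hh : h X Y ≠ 0 := by
      intro h1
      rw [h1] at hne
      simp at hne
    obtain ⟨g1, g2, g3, g4⟩ := hT.2 _ _ hh
    have hm0 : (m : ℝ) ≠ 0 := by positivity
    have eX : (m : ℝ) * X = r2 * X' - r1 * Y' := by
      rw [hX]
      field_simp
    have eY : (m : ℝ) * Y = p1 * Y' - p2 * X' := by
      rw [hY]
      field_simp
    have eX' : X' = p1 * X + r1 * Y := by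
      have h1 : (m : ℝ) * X' = m * (p1 * X + r1 * Y) := by
        have : (m : ℝ) * (p1 * X + r1 * Y) = p1 * (m * X) + r1 * (m * Y) := by ring
        rw [this, eX, eY, hmd]
        ring
      exact mul_left_cancel₀ hm0 h1
    have eY' : Y' = p2 * X + r2 * Y := by
      have h1 : (m : ℝ) * Y' = m * (p2 * X + r2 * Y) := by
        have : (m : ℝ) * (p2 * X + r2 * Y) = p2 * (m * X) + r2 * (m * Y) := by ring
        rw [this, eX, eY, hmd]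
        ring
      exact mul_left_cancel₀ hm0 h1
    have hlen : ∀ p r : ℝ, 0 ≤ p → 0 ≤ r → 1 ≤ p + r → δ ≤ p * X + r * Y := by
      intro p r hp hr hpr
      have h3 := mul_le_mul_of_nonneg_left g1 hp
      have h4 := mul_le_mul_of_nonneg_left g3 hr
      have h5 : 1 * δ ≤ (p + r) * δ := mul_le_mul_of_nonneg_right hpr hδ.le
      linarith
    have hX1 : δ ≤ X' := by
      rw [eX']
      exact hlen _ _ h10 h20 hs1
    have hY1 : δ ≤ Y' := by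
      rw [eY']
      exact hlen _ _ h30 h40 hs2
    have hρ := rho hδ hX1 hY1 hb'.le (by positivity) key2
    set ρ := 2 * X' * Y' - β' with hρd
    have hρR : ρ ≤ R / n := by
      refine hρ.2.trans ?_
      rw [hR]
      exact defect hD.le (by positivity) le_rfl hδ hn
    have hκρ : κ ^ 2 * ρ ≤ δ ^ 2 / 4 := by
      have h1 : κ ^ 2 * ρ ≤ κ ^ 2 * (R / n) := mul_le_mul_of_nonneg_left hρR (by positivity)
      have h2 : κ ^ 2 * (R / n) = κ ^ 2 * R / n := by ring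
      rw [h2] at h1
      refine h1.trans ?_
      rw [div_le_iff₀ hn0]
      linarith
    obtain ⟨hb, k1, k2, k3, k4, k5⟩ := bwdAll (κ := κ) h10 h20 h30 h40 (by linarith)
      (by linarith) (by linarith) (by linarith) hm1 hmd hδ g1 g2 g3 g4 hx0 hy0 eX eY hX2 hY2
      hβ2 hρ.1 hρd hκρ
    have hle : κ ^ 2 * ρ / δ ≤ 2 * κ ^ 3 * (R / n) / δ := by
      have h1 : κ ^ 2 * ρ ≤ 2 * κ ^ 3 * (R / n) := by
        have h2 : κ ^ 2 * ρ ≤ κ ^ 2 * (R / n) := mul_le_mul_of_nonneg_left hρR (by positivity)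
        have h3 : κ ^ 2 ≤ κ ^ 3 := pow_le_pow_right₀ hκ1 (by norm_num)
        have h4 := mul_le_mul_of_nonneg_right h3 hRn
        have h5 : 0 ≤ κ ^ 3 * (R / n) := by positivity
        linarith
      exact div_le_div_of_nonneg_right h1 hδ.le
    exact suff ⟨k3, k4, k5⟩ hb hb' (k1.trans hle) (k2.trans hle)

theorem prim_of_wd {v w : V} (h : wd v w = 1) : Prim v := by
  unfold Prim
  rw [← Int.isCoprime_iff_gcd_eq_one]
  refine ⟨w.2, -w.1, ?_⟩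
  unfold wd at h
  linarith

/-- the number of frames -/
theorem card_pairs {Q : Form} (hQ : Q.Pos) {δ : ℝ} (hδ : 0 < δ) {n : ℝ} (hn : 1 ≤ n)
    (F : Finset (V × V)) (hF : ∀ f ∈ F, wd f.1 f.2 = 1 ∧ δ ^ 2 * n ≤ Q.q f.1 ∧
      (Q.q f.1 : ℝ) ≤ n ∧ (Q.q f.2 : ℝ) ≤ n) :
    (F.card : ℝ) ≤ ((2 * ⌊2 / δ⌋₊ + 1 : ℕ) : ℝ) * (36 * (Q.a + Q.c) * n) := by
  classical
  have hn0 : 0 < n := by linarith
  have h1 : F.card ≤ (2 * ⌊2 / δ⌋₊ + 1) * (F.image Prod.fst).card := by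
    refine Finset.card_le_mul_card_image F _ fun v hv => ?_
    have hinj : Set.InjOn Prod.snd ((F.filter fun f => f.1 = v : Finset (V × V)) :
        Set (V × V)) := by
      intro f hf g hg hfg
      rw [Finset.mem_coe, Finset.mem_filter] at hf hg
      exact Prod.ext (hf.2.trans hg.2.symm) hfg
    rw [← Finset.card_image_of_injOn hinj]
    obtain ⟨g, hg, hgv⟩ := Finset.mem_image.1 hv
    have h2 := hF g hg
    rw [hgv] at h2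
    refine C27.line_count hQ hδ hn0 h2.2.1 (prim_of_wd h2.1) (k := 1) _ fun w hw => ?_
    obtain ⟨f, hf, hfw⟩ := Finset.mem_image.1 hw
    rw [Finset.mem_filter] at hf
    have h3 := hF f hf.1
    rw [hfw, hf.2] at h3
    exact ⟨h3.1, h3.2.2.2⟩
  have h2 : ((F.image Prod.fst).card : ℝ) ≤ 36 * (Q.a + Q.c) * n := by
    refine C27.card_ball hQ hn _ fun w hw => ?_
    obtain ⟨f, hf, hfw⟩ := Finset.mem_image.1 hw
    rw [← hfw]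
    exact (hF f hf).2.2.1
  calc (F.card : ℝ) ≤ (((2 * ⌊2 / δ⌋₊ + 1) * (F.image Prod.fst).card : ℕ) : ℝ) := by
        exact_mod_cast h1
    _ = ((2 * ⌊2 / δ⌋₊ + 1 : ℕ) : ℝ) * ((F.image Prod.fst).card : ℝ) := by push_cast; ring
    _ ≤ _ := mul_le_mul_of_nonneg_left h2 (Nat.cast_nonneg _)

end Reg19

/-- (SP2b) the change of region, summed over all frames -/
theorem stReg_19 : StReg := by
  classical
  intro Q hQ e1 e2 m hm hdet δ h hδ hT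
  obtain ⟨C, hC, hLip, -⟩ := C27.test_bd hδ hT
  have hD : (0 : ℝ) < Q.D := by exact_mod_cast hQ.2
  have ha : (0 : ℝ) < Q.a := by exact_mod_cast hQ.1
  have hc : (0 : ℝ) < Q.c := by exact_mod_cast hQ.c_pos
  set R : ℝ := Q.D * (m : ℝ) ^ 2 / (2 * δ ^ 2) with hR
  have hR0 : 0 ≤ R := by positivity
  set κ : ℝ := (kp e1 e2 : ℝ) with hκ
  have hκ0 : 0 ≤ κ := Nat.cast_nonneg _
  set L : ℝ := ((2 * ⌊2 / (δ / 2)⌋₊ + 1 : ℕ) : ℝ) with hLd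
  have hL0 : 0 ≤ L := Nat.cast_nonneg _
  refine ⟨L * (36 * (Q.a + Q.c) * 2) * (C * (4 * κ ^ 3 * R / δ)),
    max 1 ⌈4 * κ ^ 2 * R / δ ^ 2⌉₊, fun n hn F hF => ?_⟩
  have hn1 : (1 : ℝ) ≤ n := by exact_mod_cast (le_max_left _ _).trans hn
  have hn0 : (0 : ℝ) < n := by linarith
  have hnR : 4 * κ ^ 2 * R ≤ δ ^ 2 * n := by
    have h1 : ⌈4 * κ ^ 2 * R / δ ^ 2⌉₊ ≤ n := (le_max_right _ _).trans hn
    have h2 : 4 * κ ^ 2 * R / δ ^ 2 ≤ n := (Nat.le_ceil _).trans (by exact_mod_cast h1)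
    rw [div_le_iff₀ (by positivity)] at h2
    linarith
  set φ : V × V → ℝ := fun f => (if 0 < Q.B f.1 f.2 then h (Q.nr n f.1) (Q.nr n f.2) else 0) -
      (if 0 < Q.B (lin e1 f.1 f.2) (lin e2 f.1 f.2) then
        hL e1 e2 m h (Q.nr (κ ^ 2 * n) (lin e1 f.1 f.2))
          (Q.nr (κ ^ 2 * n) (lin e2 f.1 f.2)) else 0) with hφ
  have hterm : ∀ f ∈ F, φ f ≠ 0 → (δ ^ 2 * n ≤ Q.q f.1 ∧ (Q.q f.1 : ℝ) ≤ 2 * n ∧
      (Q.q f.2 : ℝ) ≤ 2 * n) ∧ |φ f| ≤ C * (4 * κ ^ 3 * R / (δ * n)) := fun f hf hne =>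
    Reg19.term hQ hm hdet hδ hT hC hLip hn1 hR hnR (hF f hf) hne
  have hsum : ∑ f ∈ F, |φ f| = ∑ f ∈ F.filter (fun f => φ f ≠ 0), |φ f| := by
    rw [Finset.sum_filter]
    refine Finset.sum_congr rfl fun f _ => ?_
    split_ifs with h1
    · rfl
    · push Not at h1
      rw [h1, abs_zero]
  have hcard : ((F.filter (fun f => φ f ≠ 0)).card : ℝ) ≤ L * (36 * (Q.a + Q.c) * (2 * n)) := by
    refine Reg19.card_pairs hQ (by positivity) (by linarith) _ fun f hf => ?_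
    rw [Finset.mem_filter] at hf
    obtain ⟨⟨h1, h2, h3⟩, -⟩ := hterm f hf.1 hf.2
    refine ⟨hF f hf.1, ?_, h2, h3⟩
    have h4 : (δ / 2) ^ 2 * (2 * n) = δ ^ 2 * n / 2 := by ring
    rw [h4]
    have h5 : 0 < δ ^ 2 * (n : ℝ) := by positivity
    linarith
  show ∑ f ∈ F, |φ f| ≤ _
  rw [hsum]
  calc ∑ f ∈ F.filter (fun f => φ f ≠ 0), |φ f| ≤
        ∑ f ∈ F.filter (fun f => φ f ≠ 0), C * (4 * κ ^ 3 * R / (δ * n)) :=
        Finset.sum_le_sum fun f hf => by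
          rw [Finset.mem_filter] at hf
          exact (hterm f hf.1 hf.2).2
    _ = (F.filter (fun f => φ f ≠ 0)).card * (C * (4 * κ ^ 3 * R / (δ * n))) := by
        rw [Finset.sum_const, nsmul_eq_mul]
    _ ≤ L * (36 * (Q.a + Q.c) * (2 * n)) * (C * (4 * κ ^ 3 * R / (δ * n))) :=
        mul_le_mul_of_nonneg_right hcard (by positivity)
    _ = L * (36 * (Q.a + Q.c) * 2) * (C * (4 * κ ^ 3 * R / δ)) := by
        field_simp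

end Pool.Agent.Lib.MP_a17b09_nt.SP
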