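import Pool.Agent.Lib.MP_a17b09_nt.SP.StmtsSP99
import Pool.Agent.Lib.MP_a17b09_nt.CH.Sys86
import Pool.Agent.Lib.MP_a17b09_nt.CH.Psi17
import Pool.Agent.Lib.MP_a17b09_nt.CH.Cl90

/-!
Project SP (MP_a17b09_nt), module SP1: the system `S ^ (m)`.
-/

set_option autoImplicit false

open Filter Topology Finset

namespace Pool.Agent.Lib.MP_a17b09_nt.SP

open Pool.Agent.Lib.MP_a17b09_nt.CH

namespace S99

open CH.PE (cl az cl_app az_adj)
open CH.Sys86 (mul tr tr_q tr_D tr_pos app_mul det_mul smul_cancel app_inj)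

theorem tr_B (Q : Form) (A : Mat) (v w : V) : (tr Q A).B v w = Q.B (A.app v) (A.app w) := by
  unfold tr Form.q Form.B Mat.app; ring

theorem wd_app (A : Mat) (v w : V) : wd (A.app v) (A.app w) = A.det * wd v w := by
  unfold wd Mat.app Mat.det; ring

/-- the image of a primitive vector under a similitude has the class of a primitive vector -/
theorem act_mem {m p : ℕ} (hp : p.Prime) (hpm : ((p : ℤ) : ZMod m) = 1) {A : Mat}
    (hA : A.det = p) {v : V} (hv : Prim v) : ∃ u : V, Prim u ∧ cl m u = cl m (A.app v) := by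
  obtain ⟨w, hw⟩ := exists_partner90 hv
  have hA' : A.a * A.d - A.b * A.c = p := hA
  have hw' : v.1 * w.2 - v.2 * w.1 = 1 := hw
  by_cases h : (p : ℤ) ∣ (A.app v).1 ∧ (p : ℤ) ∣ (A.app v).2
  · obtain ⟨⟨x, hx⟩, y, hy⟩ := h
    have hp0 : (p : ℤ) ≠ 0 := by exact_mod_cast hp.ne_zero
    have hx' : A.a * v.1 + A.b * v.2 = p * x := hx
    have hy' : A.c * v.1 + A.d * v.2 = p * y := hy
    refine ⟨(x, y), ?_, ?_⟩
    · unfold Prim
      rw [← Int.isCoprime_iff_gcd_eq_one]
      have e1 : v.1 = A.d * x - A.b * y := by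
        apply mul_left_cancel₀ hp0
        linear_combination (-v.1) * hA' + A.d * hx' - A.b * hy'
      have e2 : v.2 = A.a * y - A.c * x := by
        apply mul_left_cancel₀ hp0
        linear_combination (-v.2) * hA' + A.a * hy' - A.c * hx'
      refine ⟨A.d * w.2 + A.c * w.1, -(A.b * w.2) - A.a * w.1, ?_⟩
      simp only
      rw [e1, e2] at hw'
      linear_combination hw'
    · unfold cl
      have hx2 : (A.app v).1 = p * x := hx
      have hy2 : (A.app v).2 = p * y := hy
      rw [hx2, hy2]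
      have hpm' : (p : ZMod m) = 1 := by exact_mod_cast hpm
      push_cast
      rw [hpm', one_mul, one_mul]
  · refine ⟨A.app v, ?_, rfl⟩
    unfold Prim
    set g := Int.gcd (A.app v).1 (A.app v).2 with hg
    have h1 : (g : ℤ) ∣ (A.app v).1 := Int.gcd_dvd_left _ _
    have h2 : (g : ℤ) ∣ (A.app v).2 := Int.gcd_dvd_right _ _
    have h3 : (g : ℤ) ∣ p := by
      have e : (p : ℤ) = (A.app v).1 * (A.d * w.2 + A.c * w.1) -
          (A.app v).2 * (A.b * w.2 + A.a * w.1) := by
        unfold Mat.app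
        simp only
        linear_combination (-1 : ℤ) * hA' - (A.a * A.d - A.b * A.c) * (hw')
      rw [e]
      exact dvd_sub (h1.mul_right _) (h2.mul_right _)
    have h4 : g ∣ p := by exact_mod_cast h3
    rcases hp.eq_one_or_self_of_dvd g h4 with h5 | h5
    · exact h5
    · exfalso
      rw [h5] at h1 h2
      exact h ⟨h1, h2⟩

/-- the classes of the primitive vectors -/
def Rm (m : ℕ) : Type := {r : ZMod m × ZMod m // ∃ v : V, Prim v ∧ cl m v = r}

noncomputable instance (m : ℕ) [NeZero m] : Fintype (Rm m) := by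
  classical
  unfold Rm
  infer_instance

/-- a primitive vector of the class -/
noncomputable def vr {m : ℕ} (r : Rm m) : V := r.2.choose

theorem vr_prim {m : ℕ} (r : Rm m) : Prim (vr r) := r.2.choose_spec.1

theorem vr_cl {m : ℕ} (r : Rm m) : cl m (vr r) = r.1 := r.2.choose_spec.2

/-- its partner -/
noncomputable def ur {m : ℕ} (r : Rm m) : V := (exists_partner90 (vr_prim r)).choose

theorem ur_wd {m : ℕ} (r : Rm m) : wd (vr r) (ur r) = 1 :=
  (exists_partner90 (vr_prim r)).choose_spec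

/-- the matrix with first column in the class -/
noncomputable def sg {m : ℕ} (r : Rm m) : Mat := ⟨(vr r).1, (ur r).1, (vr r).2, (ur r).2⟩

theorem sg_det {m : ℕ} (r : Rm m) : (sg r).det = 1 := by
  have := ur_wd r
  unfold wd at this
  unfold sg Mat.det
  simp only
  linarith

/-- the matrix of determinant `m` -/
noncomputable def gm {m : ℕ} (r : Rm m) : Mat :=
  ⟨(vr r).1, m * (ur r).1, (vr r).2, m * (ur r).2⟩

theorem gm_det {m : ℕ} (r : Rm m) : (gm r).det = m := by
  have := ur_wd r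
  unfold wd at this
  unfold gm Mat.det
  simp only
  linear_combination (m : ℤ) * this

theorem gm_app {m : ℕ} (r : Rm m) (x : V) : (gm r).app x = (sg r).app (x.1, m * x.2) := by
  unfold gm sg Mat.app
  ext <;> simp only <;> ring

theorem cl_gm {m : ℕ} (r : Rm m) {x : V} (h : (m : ℤ) ∣ x.1 - 1) : cl m ((gm r).app x) = r.1 := by
  rw [← vr_cl r]
  have h1 : ((x.1 : ℤ) : ZMod m) = 1 := by
    have := (ZMod.intCast_zmod_eq_zero_iff_dvd (x.1 - 1) m).2 h
    push_cast at this
    exact sub_eq_zero.1 this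
  have h2 : ((m : ℤ) : ZMod m) = 0 := by simp
  unfold cl gm Mat.app
  simp only
  push_cast
  rw [h1]
  simp

/-- the vectors of the class -/
theorem gm_surj {m : ℕ} (r : Rm m) {y : V} (h : cl m y = r.1) :
    ∃ x : V, (m : ℤ) ∣ x.1 - 1 ∧ (gm r).app x = y := by
  have h1 := congrArg Prod.fst h
  have h2 := congrArg Prod.snd h
  rw [← vr_cl r] at h1 h2
  unfold cl at h1 h2
  simp only at h1 h2
  have h3 : (m : ℤ) ∣ y.1 - (vr r).1 := by
    rw [← ZMod.intCast_zmod_eq_zero_iff_dvd]
    push_cast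
    exact sub_eq_zero.2 h1
  have h4 : (m : ℤ) ∣ y.2 - (vr r).2 := by
    rw [← ZMod.intCast_zmod_eq_zero_iff_dvd]
    push_cast
    exact sub_eq_zero.2 h2
  obtain ⟨a, ha⟩ := h3
  obtain ⟨b, hb⟩ := h4
  have hw : (vr r).1 * (ur r).2 - (vr r).2 * (ur r).1 = 1 := ur_wd r
  refine ⟨(1 + m * (a * (ur r).2 - b * (ur r).1), (vr r).1 * b - (vr r).2 * a), ?_, ?_⟩
  · exact ⟨a * (ur r).2 - b * (ur r).1, by simp only; ring⟩
  · unfold gm Mat.app
    ext
    · simp only
      have ha' : y.1 = (vr r).1 + m * a := by linarith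
      rw [ha']
      linear_combination (m : ℤ) * a * hw
    · simp only
      have hb' : y.2 = (vr r).2 + m * b := by linarith
      rw [hb']
      linear_combination (m : ℤ) * b * hw

/-- good primes -/
def Good {ι : Type} (S : System ι) (m p : ℕ) : Prop :=
  p.Prime ∧ p ≡ 1 [MOD 4 * S.d] ∧ p ≡ 1 [MOD m]

theorem good_cast {ι : Type} {S : System ι} {m p : ℕ} (h : Good S m p) : ((p : ℤ) : ZMod m) = 1 := by
  have := (ZMod.natCast_eq_natCast_iff p 1 m).2 h.2.2
  push_cast at this ⊢
  exact this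

/-- the permutation -/
theorem exists_perm {ι : Type} (S : System ι) (m : ℕ) (p : ℕ) :
    ∃ e : Equiv.Perm (ι × Rm m), Good S m p → ∀ x : ι × Rm m, (e x).1 = S.s p x.1 ∧
      (e x).2.1 = az (CH.PE.adj (S.M p x.1)) x.2.1 := by
  classical
  by_cases hg : Good S m p
  · have hc := good_cast hg
    have hdet := S.det p hg.1 hg.2.1
    have h1 : ∀ (i : ι) (r : Rm m), ∃ v : V, Prim v ∧ cl m v = az (CH.PE.adj (S.M p i)) r.1 := by
      intro i r
      obtain ⟨v, hv, hr⟩ := r.2
      obtain ⟨u, hu, hu2⟩ := act_mem hg.1 hc (A := CH.PE.adj (S.M p i))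
        (by rw [← hdet i]; unfold CH.PE.adj Mat.det; ring) hv
      exact ⟨u, hu, by rw [hu2, cl_app, hr]⟩
    have h2 : ∀ (i : ι) (r : Rm m), ∃ v : V, Prim v ∧ cl m v = az (S.M p i) r.1 := by
      intro i r
      obtain ⟨v, hv, hr⟩ := r.2
      obtain ⟨u, hu, hu2⟩ := act_mem hg.1 hc (A := S.M p i) (hdet i) hv
      exact ⟨u, hu, by rw [hu2, cl_app, hr]⟩
    have hd1 : ∀ i, (((S.M p i).det : ℤ) : ZMod m) = 1 := fun i => by rw [hdet i]; exact hc
    refine ⟨⟨fun x => (S.s p x.1, ⟨_, h1 x.1 x.2⟩),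
      fun x => ((S.s p).symm x.1, ⟨_, h2 ((S.s p).symm x.1) x.2⟩), ?_, ?_⟩, fun _ x => ⟨rfl, rfl⟩⟩
    · rintro ⟨i, r⟩
      simp only [Equiv.symm_apply_apply]
      refine Prod.ext rfl (Subtype.ext ?_)
      exact az_adj _ (hd1 i) _
    · rintro ⟨i, r⟩
      simp only [Equiv.apply_symm_apply]
      refine Prod.ext rfl (Subtype.ext ?_)
      exact CH.PE.adj_az _ (hd1 _) _
  · exact ⟨1, fun h => absurd h hg⟩

/-- the matrices -/
theorem exists_mat {ι : Type} (S : System ι) {m : ℕ} (p : ℕ) (i : ι) (r r' : Rm m)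
    (hg : Good S m p) (hr : r'.1 = az (CH.PE.adj (S.M p i)) r.1) :
    ∃ A : Mat, A.det = p ∧ (∀ u, (gm r).app (A.app u) = (S.M p i).app ((gm r').app u)) ∧
      (m : ℤ) ∣ A.a - 1 ∧ (m : ℤ) ∣ A.b := by
  have hc := good_cast hg
  have hdet := S.det p hg.1 hg.2.1 i
  have hd1 : (((S.M p i).det : ℤ) : ZMod m) = 1 := by rw [hdet]; exact hc
  set N : Mat := mul (mul (CH.PE.adj (sg r)) (S.M p i)) (sg r') with hN
  have hsN : ∀ u, (sg r).app (N.app u) = (S.M p i).app ((sg r').app u) := by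
    intro u
    rw [hN, app_mul, app_mul]
    have := Sys86.app_adj (sg r) ((S.M p i).app ((sg r').app u))
    rw [sg_det, one_smul] at this
    exact this
  have hNdet : N.det = p := by
    rw [hN, det_mul, det_mul, sg_det, hdet]
    have : (CH.PE.adj (sg r)).det = 1 := by rw [← sg_det r]; unfold CH.PE.adj Mat.det; ring
    rw [this, one_mul, mul_one]
  -- the first column modulo `m`
  have hcol : cl m (N.app (1, 0)) = (1, 0) := by
    rw [hN, app_mul, app_mul, cl_app, cl_app]
    have h1 : cl m ((sg r').app (1, 0)) = r'.1 := by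
      rw [← vr_cl r']
      unfold sg Mat.app
      simp
    rw [h1, hr, az_adj _ hd1]
    have h2 : r.1 = az (sg r) ((1, 0) : ZMod m × ZMod m) := by
      rw [← vr_cl r]
      unfold cl az sg
      simp
    rw [h2]
    have h3 : (((sg r).det : ℤ) : ZMod m) = 1 := by rw [sg_det]; simp
    exact CH.PE.adj_az _ h3 _
  have ha : (m : ℤ) ∣ N.a - 1 := by
    have h1 := congrArg Prod.fst hcol
    unfold cl Mat.app at h1
    simp only [mul_one, mul_zero, add_zero] at h1
    rw [← ZMod.intCast_zmod_eq_zero_iff_dvd]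
    push_cast
    rw [h1, sub_self]
  have hcm : (m : ℤ) ∣ N.c := by
    have h1 := congrArg Prod.snd hcol
    unfold cl Mat.app at h1
    simp only [mul_one, mul_zero, add_zero] at h1
    rw [← ZMod.intCast_zmod_eq_zero_iff_dvd]
    exact h1
  obtain ⟨c, hc2⟩ := hcm
  refine ⟨⟨N.a, m * N.b, c, N.d⟩, ?_, ?_, ha, Dvd.intro _ rfl⟩
  · rw [← hNdet]
    unfold Mat.det
    simp only
    rw [hc2]
    ring
  · intro u
    rw [gm_app, gm_app, ← hsN]
    congr 1
    unfold Mat.app
    ext
    · simp only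
      ring
    · simp only
      rw [hc2]
      ring

/-- the change of coordinates -/
theorem main {ι : Type} [Fintype ι] (S : System ι) {m : ℕ} (hm : 0 < m) (q s X Y : ℤ)
    (hdet : s * X - q * Y = 1) {K : ℕ} (hK : 0 < K) {om : ι → V → V → ℂ} (hom : Wt S K om) :
    ∃ (ι' : Type) (_ : Fintype ι') (S' : System ι') (K' : ℕ) (om' : ι' → V → V → ℂ)
    (P : Set (ι' × V × V)) (T : ι' × V × V → ι × V × V),
    S'.d = S.d * m ^ 2 ∧ 0 < K' ∧ Wt S' K' om' ∧
    (∀ t ∈ P, wd t.2.1 t.2.2 = 1) ∧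
    (∀ t, t ∉ P → wd t.2.1 t.2.2 = 1 → om' t.1 t.2.1 t.2.2 = 0) ∧
    Set.BijOn T P {f : ι × V × V | wd f.2.1 f.2.2 = 1} ∧
    ∀ t ∈ P, om' t.1 t.2.1 t.2.2 = om (T t).1 (T t).2.1 (T t).2.2 ∧
      (S'.Q t.1).q t.2.1 = (S.Q (T t).1).q ((q + m * X) • (T t).2.1 + (s + m * Y) • (T t).2.2) ∧
      (S'.Q t.1).q t.2.2 = (S.Q (T t).1).q (q • (T t).2.1 + s • (T t).2.2) ∧
      (S'.Q t.1).B t.2.1 t.2.2 =
        (S.Q (T t).1).B ((q + m * X) • (T t).2.1 + (s + m * Y) • (T t).2.2)
          (q • (T t).2.1 + s • (T t).2.2) := by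
  classical
  have : NeZero m := ⟨hm.ne'⟩
  have hm0 : (m : ℤ) ≠ 0 := by exact_mod_cast hm.ne'
  choose e he using exists_perm S m
  have hmat : ∀ (p : ℕ) (x : ι × Rm m), ∃ A : Mat, Good S m p → A.det = p ∧
      (∀ u, (gm x.2).app (A.app u) = (S.M p x.1).app ((gm (e p x).2).app u)) ∧
      (m : ℤ) ∣ A.a - 1 ∧ (m : ℤ) ∣ A.b := by
    intro p x
    by_cases hg : Good S m p
    · obtain ⟨A, hA⟩ := exists_mat S p x.1 x.2 (e p x).2 hg (he p hg x).2
      exact ⟨A, fun _ => hA⟩
    · exact ⟨⟨1, 0, 0, 1⟩, fun h => absurd h hg⟩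
  choose A hA using hmat
  have hgood : ∀ p : ℕ, p.Prime → p ≡ 1 [MOD 4 * (S.d * m ^ 2)] → Good S m p := by
    intro p hp h
    refine ⟨hp, h.of_dvd ⟨m ^ 2, by ring⟩, h.of_dvd ⟨4 * S.d * m, by ring⟩⟩
  let S' : System (ι × Rm m) :=
    { Q := fun x => tr (S.Q x.1) (gm x.2)
      d := S.d * m ^ 2
      pos := fun x => tr_pos (S.pos x.1) (by rw [gm_det]; exact hm0)
      disc := fun x => by rw [tr_D, gm_det, S.disc]; push_cast; ring
      s := e
      M := A
      det := fun p hp h x => (hA p x (hgood p hp h)).1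
      sim := fun p hp h x u => by
        have hg := hgood p hp h
        rw [tr_q, tr_q, (hA p x hg).2.1 u, S.sim p hp hg.2.1, (he p hg x).1] }
  -- the difference vector
  let dl : Rm m → V → V → V := fun r x x' => (sg r).app ((x.1 - x'.1) / m, x.2 - x'.2)
  have hdl : ∀ (r : Rm m) (x x' : V), (m : ℤ) ∣ x.1 - x'.1 →
      (m : ℤ) • dl r x x' = (gm r).app x - (gm r).app x' := by
    intro r x x' h
    obtain ⟨k, hk⟩ := h
    have h1 : (x.1 - x'.1) / (m : ℤ) = k := by rw [hk]; exact Int.mul_ediv_cancel_left k hm0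
    simp only [dl]
    rw [h1, gm_app, gm_app, ← Sys86.app_smul, ← Sys86.app_sub]
    congr 1
    ext
    · simp only [Prod.smul_fst, smul_eq_mul, Prod.fst_sub]
      rw [hk]
    · simp only [Prod.smul_snd, smul_eq_mul, Prod.snd_sub]
      ring
  let T : (ι × Rm m) × V × V → ι × V × V := fun t =>
    (t.1.1, s • dl t.1.2 t.2.1 t.2.2 - Y • (gm t.1.2).app t.2.2,
      X • (gm t.1.2).app t.2.2 - q • dl t.1.2 t.2.1 t.2.2)
  let P : Set ((ι × Rm m) × V × V) := {t | wd t.2.1 t.2.2 = 1 ∧ (m : ℤ) ∣ t.2.1.1 - 1 ∧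
    (m : ℤ) ∣ t.2.2.1 - 1}
  let om' : ι × Rm m → V → V → ℂ := fun x u u' =>
    if (m : ℤ) ∣ u.1 - 1 ∧ (m : ℤ) ∣ u'.1 - 1 then om x.1 (T (x, u, u')).2.1 (T (x, u, u')).2.2
    else 0
  -- the vectors of the two slots
  have hl2 : ∀ t : (ι × Rm m) × V × V, q • (T t).2.1 + s • (T t).2.2 = (gm t.1.2).app t.2.2 := by
    intro t
    simp only [T]
    ext
    · simp only [Prod.fst_add, Prod.smul_fst, Prod.fst_sub, smul_eq_mul]
      linear_combination ((gm t.1.2).app t.2.2).1 * hdet
    · simp only [Prod.snd_add, Prod.smul_snd, Prod.snd_sub, smul_eq_mul]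
      linear_combination ((gm t.1.2).app t.2.2).2 * hdet
  have hlX : ∀ t : (ι × Rm m) × V × V, X • (T t).2.1 + Y • (T t).2.2 =
      dl t.1.2 t.2.1 t.2.2 := by
    intro t
    simp only [T]
    ext
    · simp only [Prod.fst_add, Prod.smul_fst, Prod.fst_sub, smul_eq_mul]
      linear_combination (dl t.1.2 t.2.1 t.2.2).1 * hdet
    · simp only [Prod.snd_add, Prod.smul_snd, Prod.snd_sub, smul_eq_mul]
      linear_combination (dl t.1.2 t.2.1 t.2.2).2 * hdet
  have hl1 : ∀ t ∈ P, (q + m * X) • (T t).2.1 + (s + m * Y) • (T t).2.2 =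
      (gm t.1.2).app t.2.1 := by
    intro t ht
    have h1 : (q + m * X) • (T t).2.1 + (s + m * Y) • (T t).2.2 =
        (q • (T t).2.1 + s • (T t).2.2) + (m : ℤ) • (X • (T t).2.1 + Y • (T t).2.2) := by
      ext
      · simp only [Prod.fst_add, Prod.smul_fst, smul_eq_mul]
        ring
      · simp only [Prod.snd_add, Prod.smul_snd, smul_eq_mul]
        ring
    rw [h1, hl2, hlX, hdl]
    · abel
    · have := dvd_sub ht.2.1 ht.2.2
      have e1 : t.2.1.1 - 1 - (t.2.2.1 - 1) = t.2.1.1 - t.2.2.1 := by ring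
      rwa [e1] at this
  have hdv : ∀ t ∈ P, (m : ℤ) ∣ t.2.1.1 - t.2.2.1 := by
    intro t ht
    have := dvd_sub ht.2.1 ht.2.2
    have e1 : t.2.1.1 - 1 - (t.2.2.1 - 1) = t.2.1.1 - t.2.2.1 := by ring
    rwa [e1] at this
  refine ⟨ι × Rm m, inferInstance, S', m * K, om', P, T, rfl, Nat.mul_pos hm hK, ?_,
    fun t ht => ht.1, ?_, ?_, ?_⟩
  · -- the weight
    constructor
    · intro x u u' a b
      simp only [om']
      have c1 : ∀ (u a : V), (m : ℤ) ∣ (u + ((m * K : ℕ) : ℤ) • a).1 - 1 ↔ (m : ℤ) ∣ u.1 - 1 := by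
        intro u a
        simp only [Prod.fst_add, Prod.smul_fst, smul_eq_mul]
        have e1 : u.1 + ((m * K : ℕ) : ℤ) * a.1 - 1 = (u.1 - 1) + (m : ℤ) * (K * a.1) := by
          push_cast; ring
        rw [e1]
        exact (Int.dvd_add_left (Dvd.intro _ rfl))
      have c2 : dl x.2 (u + ((m * K : ℕ) : ℤ) • a) (u' + ((m * K : ℕ) : ℤ) • b) =
          dl x.2 u u' + (K : ℤ) • (sg x.2).app (a.1 - b.1, m * (a.2 - b.2)) := by
        simp only [dl]
        rw [← Sys86.app_smul, ← Sys86.app_add]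
        congr 1
        ext
        · simp only [Prod.fst_add, Prod.smul_fst, smul_eq_mul]
          have e1 : u.1 + ((m * K : ℕ) : ℤ) * a.1 - (u'.1 + ((m * K : ℕ) : ℤ) * b.1) =
              (u.1 - u'.1) + (m : ℤ) * (K * (a.1 - b.1)) := by push_cast; ring
          rw [e1, Int.add_mul_ediv_left _ _ hm0]
        · simp only [Prod.snd_add, Prod.smul_snd, smul_eq_mul]
          push_cast
          ring
      have c3 : (gm x.2).app (u' + ((m * K : ℕ) : ℤ) • b) = (gm x.2).app u' +
          (K : ℤ) • ((m : ℤ) • (gm x.2).app b) := by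
        rw [Sys86.app_add, Sys86.app_smul, smul_smul]
        congr 2
        push_cast
        ring
      have c4 : (T (x, u + ((m * K : ℕ) : ℤ) • a, u' + ((m * K : ℕ) : ℤ) • b)).2.1 =
          (T (x, u, u')).2.1 + (K : ℤ) • (s • (sg x.2).app (a.1 - b.1, m * (a.2 - b.2)) -
            Y • ((m : ℤ) • (gm x.2).app b)) := by
        simp only [T]
        rw [c2, c3]
        module
      have c5 : (T (x, u + ((m * K : ℕ) : ℤ) • a, u' + ((m * K : ℕ) : ℤ) • b)).2.2 =
          (T (x, u, u')).2.2 + (K : ℤ) • (X • ((m : ℤ) • (gm x.2).app b) -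
            q • (sg x.2).app (a.1 - b.1, m * (a.2 - b.2))) := by
        simp only [T]
        rw [c2, c3]
        module
      simp only [c1, c4, c5, hom.per]
    · intro p hp h1 h2 x u u'
      have hg : Good S m p := hgood p hp h1
      obtain ⟨-, hA2, hA3, hA4⟩ := hA p x hg
      have hMx : S'.M p x = A p x := rfl
      have hsx : S'.s p x = e p x := rfl
      rw [hMx, hsx]
      simp only [om']
      have c1 : ∀ u : V, (m : ℤ) ∣ ((A p x).app u).1 - 1 ↔ (m : ℤ) ∣ u.1 - 1 := by
        intro u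
        have e1 : ((A p x).app u).1 - 1 = (u.1 - 1) + (((A p x).a - 1) * u.1 + (A p x).b * u.2) := by
          unfold Mat.app
          simp only
          ring
        rw [e1]
        exact Int.dvd_add_left (dvd_add (hA3.mul_right _) (hA4.mul_right _))
      simp only [c1]
      by_cases hc : (m : ℤ) ∣ u.1 - 1 ∧ (m : ℤ) ∣ u'.1 - 1
      · rw [if_pos hc, if_pos hc]
        have hd1 : (m : ℤ) ∣ u.1 - u'.1 := by
          have := dvd_sub hc.1 hc.2
          have e1 : u.1 - 1 - (u'.1 - 1) = u.1 - u'.1 := by ring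
          rwa [e1] at this
        have hd2 : (m : ℤ) ∣ ((A p x).app u).1 - ((A p x).app u').1 := by
          have := dvd_sub ((c1 u).2 hc.1) ((c1 u').2 hc.2)
          have e1 : ((A p x).app u).1 - 1 - (((A p x).app u').1 - 1) =
            ((A p x).app u).1 - ((A p x).app u').1 := by ring
          rwa [e1] at this
        have c2 : dl x.2 ((A p x).app u) ((A p x).app u') =
            (S.M p x.1).app (dl (e p x).2 u u') := by
          apply smul_cancel hm0
          rw [hdl _ _ _ hd2, hA2, hA2, ← Sys86.app_sub, ← hdl _ _ _ hd1, Sys86.app_smul]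
        have c4 : (T (x, (A p x).app u, (A p x).app u')).2.1 =
            (S.M p x.1).app (T (e p x, u, u')).2.1 := by
          simp only [T]
          rw [c2, hA2, Sys86.app_sub, Sys86.app_smul, Sys86.app_smul]
        have c5 : (T (x, (A p x).app u, (A p x).app u')).2.2 =
            (S.M p x.1).app (T (e p x, u, u')).2.2 := by
          simp only [T]
          rw [c2, hA2, Sys86.app_sub, Sys86.app_smul, Sys86.app_smul]
        have hK2 : p ≡ 1 [MOD K] := h2.of_dvd ⟨m, by ring⟩
        rw [c4, c5, hom.inv p hp hg.2.1 hK2, (he p hg x).1]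
      · rw [if_neg hc, if_neg hc]
  · -- off the set
    intro t ht h1
    simp only [om']
    rw [if_neg]
    intro h2
    exact ht ⟨h1, h2⟩
  · -- bijection
    refine ⟨?_, ?_, ?_⟩
    · intro t ht
      have h1 : (m : ℤ) * wd (dl t.1.2 t.2.1 t.2.2) ((gm t.1.2).app t.2.2) = m * 1 := by
        have e1 : (m : ℤ) * wd (dl t.1.2 t.2.1 t.2.2) ((gm t.1.2).app t.2.2) =
            wd ((m : ℤ) • dl t.1.2 t.2.1 t.2.2) ((gm t.1.2).app t.2.2) := by
          unfold wd
          simp only [Prod.smul_fst, Prod.smul_snd, smul_eq_mul]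
          ring
        rw [e1, hdl _ _ _ (hdv t ht)]
        have e2 : wd ((gm t.1.2).app t.2.1 - (gm t.1.2).app t.2.2) ((gm t.1.2).app t.2.2) =
            wd ((gm t.1.2).app t.2.1) ((gm t.1.2).app t.2.2) := by
          unfold wd
          simp only [Prod.fst_sub, Prod.snd_sub]
          ring
        rw [e2, wd_app, gm_det, ht.1]
      have h2 := mul_left_cancel₀ hm0 h1
      show wd (T t).2.1 (T t).2.2 = 1
      simp only [T]
      unfold wd at h2 ⊢
      simp only [Prod.fst_sub, Prod.snd_sub, Prod.smul_fst, Prod.smul_snd, smul_eq_mul]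
      linear_combination (s * X - q * Y) * h2 + hdet
    · intro t ht t' ht' hT
      have hT2 : T t = T t' := hT
      have hi : (T t).1 = (T t').1 := by rw [hT2]
      have hv' : (gm t.1.2).app t.2.2 = (gm t'.1.2).app t'.2.2 := by
        rw [← hl2 t, ← hl2 t', hT]
      have hv : (gm t.1.2).app t.2.1 = (gm t'.1.2).app t'.2.1 := by
        rw [← hl1 t ht, ← hl1 t' ht', hT]
      have hr : t.1.2 = t'.1.2 := by
        apply Subtype.ext
        rw [← cl_gm t.1.2 ht.2.1, hv, cl_gm t'.1.2 ht'.2.1]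
      obtain ⟨⟨i, r⟩, x, x'⟩ := t
      obtain ⟨⟨i', r'⟩, y, y'⟩ := t'
      simp only at hi hr hv hv'
      subst hi hr
      have hne : (gm r).det ≠ 0 := by rw [gm_det]; exact hm0
      rw [app_inj hne hv, app_inj hne hv']
    · rintro ⟨i, w, w'⟩ hw
      have hw1 : wd w w' = 1 := hw
      have hvd : wd (X • w + Y • w') (q • w + s • w') = 1 := by
        unfold wd at hw1 ⊢
        simp only [Prod.fst_add, Prod.snd_add, Prod.smul_fst, Prod.smul_snd, smul_eq_mul]
        linear_combination (s * X - q * Y) * hw1 + hdet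
      set v' : V := q • w + s • w' with hv'
      set δ : V := X • w + Y • w' with hδ
      set v : V := v' + (m : ℤ) • δ with hv
      have hp' : Prim v' := by
        apply prim_of_wd90 (w := -δ)
        unfold wd at hvd ⊢
        simp only [Prod.fst_neg, Prod.snd_neg]
        linarith
      let r : Rm m := ⟨cl m v', v', hp', rfl⟩
      obtain ⟨x', hx1, hx2⟩ := gm_surj r (y := v') rfl
      have hcl : cl m v = r.1 := by
        show cl m v = cl m v'
        rw [hv]
        unfold cl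
        simp
      obtain ⟨x, hx3, hx4⟩ := gm_surj r (y := v) hcl
      have hP : (((i, r), x, x') : (ι × Rm m) × V × V) ∈ P := by
        refine ⟨?_, hx3, hx1⟩
        have h1 : (m : ℤ) * wd x x' = m * 1 := by
          have := wd_app (gm r) x x'
          rw [gm_det, hx4, hx2] at this
          rw [← this, hv]
          unfold wd at hvd ⊢
          simp only [Prod.fst_add, Prod.snd_add, Prod.smul_fst, Prod.smul_snd, smul_eq_mul]
          linear_combination (m : ℤ) * hvd
        exact mul_left_cancel₀ hm0 h1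
      refine ⟨_, hP, ?_⟩
      have h1 : dl r x x' = δ := by
        apply smul_cancel hm0
        have := hdl r x x' (hdv _ hP)
        rw [this, hx4, hx2, hv]
        abel
      have h2 : T ((i, r), x, x') = (i, s • δ - Y • v', X • v' - q • δ) := by
        simp only [T]
        rw [h1, hx2]
      rw [h2, hδ, hv']
      refine Prod.ext rfl (Prod.ext ?_ ?_)
      · ext
        · simp only [Prod.fst_sub, Prod.smul_fst, Prod.fst_add, smul_eq_mul]
          linear_combination w.1 * hdet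
        · simp only [Prod.snd_sub, Prod.smul_snd, Prod.snd_add, smul_eq_mul]
          linear_combination w.2 * hdet
      · ext
        · simp only [Prod.fst_sub, Prod.smul_fst, Prod.fst_add, smul_eq_mul]
          linear_combination w'.1 * hdet
        · simp only [Prod.snd_sub, Prod.smul_snd, Prod.snd_add, smul_eq_mul]
          linear_combination w'.2 * hdet
  · intro t ht
    refine ⟨?_, ?_, ?_, ?_⟩
    · simp only [om']
      rw [if_pos ht.2]
    · rw [hl1 t ht]
      exact tr_q _ _ _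
    · rw [hl2 t]
      exact tr_q _ _ _
    · rw [hl1 t ht, hl2 t]
      exact tr_B _ _ _ _

theorem lin_eq (e : ℕ × ℕ) (w w' : V) : lin e w w' = (e.1 : ℤ) • w + (e.2 : ℤ) • w' := by
  unfold lin
  ext <;> simp

end S99

open S99 in
/-- (SP1) -/
theorem stSysL_99 : StSysL := by
  intro ι _ S e1 e2 hAdm m hm K hK om hom
  rcases hAdm with ⟨h1, h2, h3⟩ | ⟨h1, h2⟩
  · have hm' : m + e2.1 = e1.1 := by rw [h1, h2] at hm; omega
    have hm0 : 0 < m := by omega
    have key := main S hm0 e2.1 1 1 0 (by ring) hK hom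
    have c1 : (e1.1 : ℤ) = e2.1 + m * 1 := by
      have : (e1.1 : ℤ) = ((m + e2.1 : ℕ) : ℤ) := by rw [hm']
      rw [this]; push_cast; ring
    have c2 : (e1.2 : ℤ) = 1 + m * 0 := by rw [h1]; simp
    have c3 : (e2.2 : ℤ) = 1 := by rw [h2]; simp
    simp only [lin_eq]
    rw [c1, c2, c3]
    exact key
  · have hm' : m = 1 := by rw [h1, h2] at hm; omega
    subst hm'
    have key := main S (Nat.one_pos) e2.1 1 (1 - e2.1) (-1) (by ring) hK hom
    have c1 : (e1.1 : ℤ) = e2.1 + ((1 : ℕ) : ℤ) * (1 - e2.1) := by rw [h1]; push_cast; ring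
    have c2 : (e1.2 : ℤ) = 1 + ((1 : ℕ) : ℤ) * (-1) := by rw [h1]; simp
    have c3 : (e2.2 : ℤ) = 1 := by rw [h2]; simp
    simp only [lin_eq]
    rw [c1, c2, c3]
    exact key

end Pool.Agent.Lib.MP_a17b09_nt.SP
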