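import Pool.Agent.Lib.MP_a17b09_nt.SP.StmtsSP99
import Pool.Agent.Lib.MP_a17b09_nt.CH.TopS64
import Pool.Agent.Lib.MP_a17b09_nt.MRS.Xfer79

/-!
Project SP (MP_a17b09_nt): the input from Theorem E.
-/

set_option autoImplicit false

open Filter Topology Finset

namespace Pool.Agent.Lib.MP_a17b09_nt.SP

open Pool.Agent.Lib.MP_a17b09_nt.CH Pool.Agent.Lib.MP_a17b09_nt.MRS

/-- the input from Theorem E for the systems of discriminants `-d m ^ 2` -/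
theorem inA_of_es {d : ℕ} (hE : ∀ (ι : Type) [Fintype ι] (S : System ι),
    (∃ m : ℕ, 0 < m ∧ S.d = d * m ^ 2) → ∀ (z1 z2 : ℂ) (k : ℕ), 0 < k → z1 ^ k = 1 → z2 ^ k = 1 →
    (z1 ≠ 1 ∨ z2 ≠ 1) → EsFor S z1 z2) : InA d := by
  intro ι _ S hS z1 z2 k hk hz1 hz2 hz K hK om hom M
  exact am_98 F64.stC0_all (stDils_70 stLine_46 stLat_28) F64.stBs_all F64.stD_all
    stPri_40 stTel_18 stMd_18 ι S z1 z2 k hk hz1 hz2 (hE ι S hS z1 z2 k hk hz1 hz2 hz) K hK om hom M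

/-- the input for the discriminants `-4 m ^ 2` -/
theorem inA_sq (hCls : StCls) (m0 : ℕ) : InA (4 * m0 ^ 2) := by
  apply inA_of_es
  rintro ι _ S ⟨m, hm, hS⟩ z1 z2 k hk hz1 hz2 hz
  refine esFor_mrs79 hCls F64.stRedS_all S ⟨m0 * m, ?_⟩ hk hz1 hz2 hz
  rw [hS]
  push_cast
  ring

end Pool.Agent.Lib.MP_a17b09_nt.SP
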