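import Pool.Agent.Lib.MP_a17b09_nt.SP.PairP11
import Pool.Agent.Lib.MP_a17b09_nt.SP.SqP11

/-!
Project SP (MP_a17b09_nt): the sign patterns of the values at `t + j d` and `t + l d`.
-/

set_option autoImplicit false

open Filter Topology Finset

namespace Pool.Agent.Lib.MP_a17b09_nt.SP

open Pool.Agent.Lib.MP_a17b09_nt.CH

open EndT in
/-- the four sign patterns have the same frequency -/
theorem sgn_99 (hT : StTwP) (hO : StOn) (a b c : ℤ) (d : ℕ) (ha : 0 < a) (hd0 : 0 < d)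
    (hd : 4 * a * c - b ^ 2 = d) (hA : InA d) (h : ℕ) (hh : 0 < h) (t0 : ℕ) (α β κ : ℝ)
    (hα : 0 < α) (hαβ : α < β)
    (hκ : Tendsto (fun N : ℕ => (pairCount a b c h t0 α β (fun _ _ => True) N : ℝ) / N) atTop
      (𝓝 κ)) (j l : ℕ) (hjl : j ≠ l) (r s : ℕ) (E : LMean) :
    E.E (fun N : ℕ => |(pairCount a b c h t0 α β (fun t d => Om a b c (t + j * d) ≡ r [MOD 2] ∧
      Om a b c (t + l * d) ≡ s [MOD 2]) N : ℝ) / N - κ / 4|) = 0 := by
  have hD : b ^ 2 - 4 * a * c < 0 := by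
    have : (0 : ℤ) < d := by exact_mod_cast hd0
    linarith
  have hκ' : Tendsto (fun M : ℕ => ((∑ t ∈ (Finset.Icc 1 M).filter (fun t => t ≡ t0 [MOD h]),
      (nearG a b c α β t).card : ℕ) : ℝ) / M) atTop (𝓝 κ) := by
    refine hκ.congr fun M => ?_
    rw [count_eq ha hD (fun _ _ => True) M]
    simp only [Finset.filter_true]
  have h4 : (κ / ((2 : ℕ) : ℝ) ^ 2) = κ / 4 := by norm_num
  have key : ∀ z1 z2 : ℂ, z1 ^ 2 = 1 → z2 ^ 2 = 1 → (z1 ≠ 1 ∨ z2 ≠ 1) →
      E.E (fun M : ℕ => ‖∑ t ∈ (Finset.Icc 1 M).filter (fun t => t ≡ t0 [MOD h]),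
        ∑ d ∈ nearG a b c α β t, z1 ^ Om a b c (t + j * d) * z2 ^ Om a b c (t + l * d)‖
          / (M : ℝ)) = 0 := by
    intro z1 z2 h1 h2 h3
    have hm1 : ((-1 : ℂ)) ^ 2 = 1 := by norm_num
    have hsq : ∀ z : ℂ, z ^ 2 = 1 → z = 1 ∨ z = -1 := fun z hz => by
      have : (z - 1) * (z + 1) = 0 := by linear_combination hz
      rcases mul_eq_zero.1 this with h | h
      · exact Or.inl (sub_eq_zero.1 h)
      · exact Or.inr (eq_neg_of_add_eq_zero_left h)
    have hm2 : ((-1 : ℂ)) ≠ 1 := by norm_num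
    have hT' := fun o1 o2 ho => hT a b c d ha hd0 hd hA (-1) (-1) 2 two_pos hm1 hm1 (Or.inl hm2)
      h hh t0 α β hα hαβ o1 o2 ho E
    have hone : ∀ n : ℕ, ((-1 : ℂ) ^ n) * ((-1 : ℂ) ^ n) = 1 := by
      intro n
      rw [← mul_pow]
      norm_num
    have hs : ∀ (i : ℕ) (t : ℕ), ∀ d ∈ nearG a b c α β t,
        Om a b c (t + i * d) = Omn d + Omn (eslot a b c t d (some i)) := by
      intro i t d' hd'
      exact om_slot11 ha hD (Nat.dvd_of_mem_divisors (Finset.mem_filter.1 hd').1) i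
    have hcv : ∀ (F G : ℕ → ℕ → ℂ), (∀ t, ∀ d ∈ nearG a b c α β t, F t d = G t d) →
        E.E (fun M : ℕ => ‖∑ t ∈ (Finset.Icc 1 M).filter (fun t => t ≡ t0 [MOD h]),
          ∑ d ∈ nearG a b c α β t, G t d‖ / (M : ℝ)) = 0 →
        E.E (fun M : ℕ => ‖∑ t ∈ (Finset.Icc 1 M).filter (fun t => t ≡ t0 [MOD h]),
          ∑ d ∈ nearG a b c α β t, F t d‖ / (M : ℝ)) = 0 := by
      intro F G hFG h0
      have e : (fun M : ℕ => ‖∑ t ∈ (Finset.Icc 1 M).filter (fun t => t ≡ t0 [MOD h]),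
          ∑ d ∈ nearG a b c α β t, F t d‖ / (M : ℝ)) =
          fun M : ℕ => ‖∑ t ∈ (Finset.Icc 1 M).filter (fun t => t ≡ t0 [MOD h]),
          ∑ d ∈ nearG a b c α β t, G t d‖ / (M : ℝ) := by
        funext M
        rw [Finset.sum_congr rfl fun t _ => Finset.sum_congr rfl (hFG t)]
      rw [e]
      exact h0
    rcases hsq _ h1 with rfl | rfl
    · rcases hsq _ h2 with rfl | rfl
      · exact absurd rfl (h3.resolve_left (fun h => h rfl))
      · refine hcv _ _ (fun t d' hd' => ?_) (hT' none (some l) (by simp))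
        rw [hs l t d' hd', one_pow, one_mul, pow_add]
        rfl
    · rcases hsq _ h2 with rfl | rfl
      · refine hcv _ _ (fun t d' hd' => ?_) (hT' none (some j) (by simp))
        rw [hs j t d' hd', one_pow, mul_one, pow_add]
        rfl
      · refine hcv _ _ (fun t d' hd' => ?_) (hT' (some j) (some l) (by simpa using hjl))
        rw [hs j t d' hd', hs l t d' hd', pow_add, pow_add]
        linear_combination ((-1 : ℂ)) ^ Omn (eslot a b c t d' (some j)) *
          ((-1 : ℂ)) ^ Omn (eslot a b c t d' (some l)) * hone (Omn d')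
  have h1 := PairP11.main E 2 two_pos (fun M => (Finset.Icc 1 M).filter (fun t => t ≡ t0 [MOD h]))
    (nearG a b c α β) (fun t d => Om a b c (t + j * d)) (fun t d => Om a b c (t + l * d))
    (hO a b c ha hD h hh t0 α β hα hαβ) κ hκ' key r s
  rw [h4] at h1
  have e1 : (fun N : ℕ => |(pairCount a b c h t0 α β (fun t d => Om a b c (t + j * d) ≡ r [MOD 2] ∧
      Om a b c (t + l * d) ≡ s [MOD 2]) N : ℝ) / N - κ / 4|) = fun M : ℕ =>
      |((∑ t ∈ (Finset.Icc 1 M).filter (fun t => t ≡ t0 [MOD h]), ((nearG a b c α β t).filter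
        (fun d => Om a b c (t + j * d) ≡ r [MOD 2] ∧
          Om a b c (t + l * d) ≡ s [MOD 2])).card : ℕ) : ℝ) / M - κ / 4| := by
    funext N
    rw [count_eq ha hD (fun t d => Om a b c (t + j * d) ≡ r [MOD 2] ∧
      Om a b c (t + l * d) ≡ s [MOD 2]) N]
  rw [e1]
  exact h1

end Pool.Agent.Lib.MP_a17b09_nt.SP
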