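import Pool.Agent.Lib.MP_a17b09_nt.SP.StmtsSP99

/-!
Project SP: the transformed test function is a test function (helper72).
-/

set_option autoImplicit false

namespace Pool.Agent.Lib.MP_a17b09_nt.SP

open Pool.Agent.Lib.MP_a17b09_nt.CH

/-- SP2a -/
theorem stTestL_72 : StTestL := by
  rintro ⟨p, r⟩ ⟨p', r'⟩ m hm hdet δ h hδ ⟨⟨C, hC⟩, hs⟩
  simp only at hdet
  have hkp : kp (p, r) (p', r') = p + r + p' + r' := rfl
  have h1 : 0 < p + r := by
    rcases Nat.eq_zero_or_pos p with h0 | h0
    · rcases Nat.eq_zero_or_pos r with h2 | h2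
      · subst h0 h2
        simp at hdet
        omega
      · omega
    · omega
  have h2 : 0 < p' + r' := by
    rcases Nat.eq_zero_or_pos r' with h0 | h0
    · rcases Nat.eq_zero_or_pos p' with h2 | h2
      · subst h0 h2
        simp at hdet
        omega
      · omega
    · omega
  set κ : ℝ := ((p + r + p' + r' : ℕ) : ℝ) with hκ
  have hκ0 : 0 < κ := by
    rw [hκ]
    exact_mod_cast (by omega : 0 < p + r + p' + r')
  have hmR : (0 : ℝ) < m := by exact_mod_cast hm
  have hdetR : (m : ℝ) + p' * r = p * r' := by exact_mod_cast hdet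
  have hp0 : (0 : ℝ) ≤ p := Nat.cast_nonneg _
  have hr0 : (0 : ℝ) ≤ r := Nat.cast_nonneg _
  have hp'0 : (0 : ℝ) ≤ p' := Nat.cast_nonneg _
  have hr'0 : (0 : ℝ) ≤ r' := Nat.cast_nonneg _
  have h1R : (1 : ℝ) ≤ p + r := by exact_mod_cast h1
  have h2R : (1 : ℝ) ≤ p' + r' := by exact_mod_cast h2
  have hκ1 : κ = p + r + p' + r' := by
    rw [hκ]
    push_cast
    ring
  refine ⟨by rw [hkp]; omega, δ / κ, by positivity, ⟨|C| * (κ * κ / m), ?_⟩, ?_⟩
  · intro x y x' y'
    have e : ∀ x y : ℝ, hL (p, r) (p', r') m h x y = h (κ * (r' * x - r * y) / m)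
        (κ * (p * y - p' * x) / m) := fun x y => rfl
    rw [e, e]
    refine (hC _ _ _ _).trans ?_
    have h3 : |κ * (r' * x - r * y) / m - κ * (r' * x' - r * y') / m| ≤
        κ / m * (r' * |x - x'| + r * |y - y'|) := by
      have : κ * (r' * x - r * y) / m - κ * (r' * x' - r * y') / m =
          κ / m * (r' * (x - x') - r * (y - y')) := by ring
      rw [this, abs_mul, abs_of_nonneg (by positivity : (0 : ℝ) ≤ κ / m)]
      refine mul_le_mul_of_nonneg_left ?_ (by positivity)
      refine (abs_sub _ _).trans ?_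
      rw [abs_mul, abs_mul, abs_of_nonneg hr'0, abs_of_nonneg hr0]
    have h4 : |κ * (p * y - p' * x) / m - κ * (p * y' - p' * x') / m| ≤
        κ / m * (p * |y - y'| + p' * |x - x'|) := by
      have : κ * (p * y - p' * x) / m - κ * (p * y' - p' * x') / m =
          κ / m * (p * (y - y') - p' * (x - x')) := by ring
      rw [this, abs_mul, abs_of_nonneg (by positivity : (0 : ℝ) ≤ κ / m)]
      refine mul_le_mul_of_nonneg_left ?_ (by positivity)
      refine (abs_sub _ _).trans ?_
      rw [abs_mul, abs_mul, abs_of_nonneg hp0, abs_of_nonneg hp'0]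
    have h5 : |κ * (r' * x - r * y) / m - κ * (r' * x' - r * y') / m| +
        |κ * (p * y - p' * x) / m - κ * (p * y' - p' * x') / m| ≤
        κ * κ / m * (|x - x'| + |y - y'|) := by
      have h6 : (r' + p') * |x - x'| + (r + p) * |y - y'| ≤ κ * (|x - x'| + |y - y'|) := by
        rw [hκ1]
        nlinarith [abs_nonneg (x - x'), abs_nonneg (y - y')]
      calc _ ≤ κ / m * (r' * |x - x'| + r * |y - y'|) +
            κ / m * (p * |y - y'| + p' * |x - x'|) := add_le_add h3 h4
        _ = κ / m * ((r' + p') * |x - x'| + (r + p) * |y - y'|) := by ring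
        _ ≤ κ / m * (κ * (|x - x'| + |y - y'|)) :=
            mul_le_mul_of_nonneg_left h6 (by positivity)
        _ = _ := by ring
    calc C * (|κ * (r' * x - r * y) / m - κ * (r' * x' - r * y') / m| +
          |κ * (p * y - p' * x) / m - κ * (p * y' - p' * x') / m|)
        ≤ |C| * (|κ * (r' * x - r * y) / m - κ * (r' * x' - r * y') / m| +
          |κ * (p * y - p' * x) / m - κ * (p * y' - p' * x') / m|) :=
          mul_le_mul_of_nonneg_right (le_abs_self C) (by positivity)
      _ ≤ |C| * (κ * κ / m * (|x - x'| + |y - y'|)) :=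
          mul_le_mul_of_nonneg_left h5 (abs_nonneg C)
      _ = _ := by ring
  · intro x y hxy
    obtain ⟨a1, a2, a3, a4⟩ := hs _ _ hxy
    change δ ≤ κ * (r' * x - r * y) / m at a1
    change κ * (r' * x - r * y) / m ≤ 1 at a2
    change δ ≤ κ * (p * y - p' * x) / m at a3
    change κ * (p * y - p' * x) / m ≤ 1 at a4
    set s := κ * (r' * x - r * y) / m with hsd
    set t := κ * (p * y - p' * x) / m with htd
    have hx : κ * x = p * s + r * t := by
      rw [hsd, htd]
      field_simp
      have : (p : ℝ) * (r' * x - r * y) + r * (p * y - p' * x) = m * x := by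
        have h5 : (m : ℝ) = p * r' - p' * r := by linarith
        rw [h5]; ring
      linear_combination (-1 : ℝ) * this
    have hy : κ * y = p' * s + r' * t := by
      rw [hsd, htd]
      field_simp
      have : (p' : ℝ) * (r' * x - r * y) + r' * (p * y - p' * x) = m * y := by
        have h5 : (m : ℝ) = p * r' - p' * r := by linarith
        rw [h5]; ring
      linear_combination (-1 : ℝ) * this
    refine ⟨?_, ?_, ?_, ?_⟩
    · rw [div_le_iff₀ hκ0, mul_comm x κ, hx]
      nlinarith [mul_le_mul_of_nonneg_left a1 hp0, mul_le_mul_of_nonneg_left a3 hr0]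
    · have : κ * x ≤ κ * 1 := by
        rw [hx, hκ1]
        nlinarith [mul_le_mul_of_nonneg_left a2 hp0, mul_le_mul_of_nonneg_left a4 hr0]
      exact le_of_mul_le_mul_left this hκ0
    · rw [div_le_iff₀ hκ0, mul_comm y κ, hy]
      nlinarith [mul_le_mul_of_nonneg_left a1 hp'0, mul_le_mul_of_nonneg_left a3 hr'0]
    · have : κ * y ≤ κ * 1 := by
        rw [hy, hκ1]
        nlinarith [mul_le_mul_of_nonneg_left a2 hp'0, mul_le_mul_of_nonneg_left a4 hr'0]
      exact le_of_mul_le_mul_left this hκ0

end Pool.Agent.Lib.MP_a17b09_nt.SP
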