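import Pool.Agent.Lib.MP_a17b09_nt.SP.Sys99
import Pool.Agent.Lib.MP_a17b09_nt.SP.TestL72
import Pool.Agent.Lib.MP_a17b09_nt.SP.Reg19
import Pool.Agent.Lib.MP_a17b09_nt.SP.NullL57
import Pool.Agent.Lib.MP_a17b09_nt.SP.TwP27
import Pool.Agent.Lib.MP_a17b09_nt.SP.Sgn99
import Pool.Agent.Lib.MP_a17b09_nt.SP.EndP27
import Pool.Agent.Lib.MP_a17b09_nt.SP.In99

/-!
Project SP (MP_a17b09_nt): the final statement, from the input `InA`.
-/

set_option autoImplicit false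

open Filter Topology Finset

namespace Pool.Agent.Lib.MP_a17b09_nt.SP

open Pool.Agent.Lib.MP_a17b09_nt.CH

theorem stNullL_all : StNullL := stNullL_57 stSysL_99 stTestL_72 stReg_19 F64.stC0_all stMd_18

theorem stTwP_all : StTwP := stTwP_27 stNullL_all F64.stFm_all

theorem stPairP_all : StPairP := stPairP_11 stTwP_all F64.stOn_all

theorem stSqP_all : StSqP := stSqP_11 stPairP_all F64.stOn_all

theorem stEndP_all : StEndP := stEndP_27 stPairP_all stSqP_all F64.stMainS_all stMeanU_70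
  F64.stOn_all

/-- the absolute value of `f n`, where `f n = a n ^ 2 + b n + c` -/
def val (a b c : ℤ) (n : ℕ) : ℕ := (a * (n : ℤ) ^ 2 + b * n + c).natAbs

open EndP27 in
/-- the final statement for one polynomial -/
theorem fin_99 (a b c : ℤ) (d : ℕ) (ha : 0 < a) (hd0 : 0 < d) (hd : 4 * a * c - b ^ 2 = d)
    (hA : InA d) (h t₀ : ℕ) (hh : 0 < h) (α β : ℝ) (hα : 0 < α) (hαβ : α < β) :
    ∃ κ : ℝ, 0 < κ ∧
      Tendsto (fun N : ℕ => (pairCount a b c h t₀ α β (fun _ _ => True) N : ℝ) / N) atTop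
        (𝓝 κ) ∧
      (∀ j l : ℕ, j ≠ l → ∀ r s : ℕ, ∀ ε : ℝ, 0 < ε → LogNull {N : ℕ | ε * N <
        |(pairCount a b c h t₀ α β (fun t d =>
          ArithmeticFunction.cardFactors (val a b c (t + j * d)) ≡ r [MOD 2] ∧
          ArithmeticFunction.cardFactors (val a b c (t + l * d)) ≡ s [MOD 2]) N : ℝ)
            - κ / 4 * N|}) ∧
      (∀ k : ℕ, 0 < k → ∀ j l : ℕ, j ≠ l → ∀ r s : ℕ, ∀ ε : ℝ, 0 < ε → LogNull {N : ℕ | ε * N <
        |(pairCount a b c h t₀ α β (fun t d =>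
          ArithmeticFunction.cardFactors (val a b c (t + j * d) / d) ≡ r [MOD k] ∧
          ArithmeticFunction.cardFactors (val a b c (t + l * d) / d) ≡ s [MOD k]) N : ℝ)
            - κ / k ^ 2 * N|}) ∧
      ∀ k : ℕ, 0 < k → ∀ J : ℕ, 0 < J → ∀ η : ℝ, 0 < η →
        (∀ ε : ℝ, 0 < ε → LogNull {N : ℕ | (1 / (η ^ 2 * J) + ε) * κ * N <
          (pairCount a b c h t₀ α β (fun t d => ∃ r : ℕ, η * J < |(((Finset.range J).filter
            (fun j : ℕ => ArithmeticFunction.cardFactors (val a b c (t + j * d)) ≡ r [MOD k])).card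
              : ℝ) - J / k|) N : ℝ)}) ∧
        (1 < η ^ 2 * J → ∃ c' : ℝ, 0 < c' ∧ ∀ᶠ N : ℕ in atTop, c' * N ≤
          (pairCount a b c h t₀ α β (fun t d => ∀ r : ℕ, |(((Finset.range J).filter
            (fun j : ℕ => ArithmeticFunction.cardFactors (val a b c (t + j * d)) ≡ r [MOD k])).card
              : ℝ) - J / k| ≤ η * J) N : ℝ)) := by
  obtain ⟨κ, hκ, hlim, h1, h2⟩ := stEndP_all a b c d ha hd0 hd hA h hh t₀ α β hα hαβ
  have hD : b ^ 2 - 4 * a * c < 0 := by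
    have : (0 : ℤ) < d := by exact_mod_cast hd0
    linarith
  refine ⟨κ, hκ, hlim, ?_, fun k hk j l hjl r s ε hε => (h1 k hk r s ε hε).2 j l hjl, h2⟩
  intro j l hjl r s ε hε
  have hm : ∀ M : LMean, M.E (fun N : ℕ => |(pairCount a b c h t₀ α β (fun t d =>
      Om a b c (t + j * d) ≡ r [MOD 2] ∧ Om a b c (t + l * d) ≡ s [MOD 2]) N : ℝ) / N - κ / 4|)
        = 0 := fun M => sgn_99 stTwP_all F64.stOn_all a b c d ha hd0 hd hA h hh t₀ α β κ hα hαβ
          hlim j l hjl r s M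
  have hb : Bdd (fun N : ℕ => |(pairCount a b c h t₀ α β (fun t d =>
      Om a b c (t + j * d) ≡ r [MOD 2] ∧ Om a b c (t + l * d) ≡ s [MOD 2]) N : ℝ) / N - κ / 4|) :=
    ((count_bdd F64.stOn_all ha hD hh hα hαβ _).sub (Bdd.const _)).abs
  have hL := EndS.logNull_of stMeanU_70 hb (fun _ => abs_nonneg _) hm hε
  refine logNull_fin hL 1 fun n hn hn1 => ?_
  simp only [Set.mem_ofPred_eq] at hn ⊢
  have hn0 : (0 : ℝ) < n := by exact_mod_cast hn1
  have e1 : (pairCount a b c h t₀ α β (fun t d =>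
      Om a b c (t + j * d) ≡ r [MOD 2] ∧ Om a b c (t + l * d) ≡ s [MOD 2]) n : ℝ) / n - κ / 4 =
      ((pairCount a b c h t₀ α β (fun t d =>
      Om a b c (t + j * d) ≡ r [MOD 2] ∧ Om a b c (t + l * d) ≡ s [MOD 2]) n : ℝ) - κ / 4 * n)
        / n := by field_simp
  rw [e1, abs_div, abs_of_pos hn0, lt_div_iff₀ hn0]
  exact hn

end Pool.Agent.Lib.MP_a17b09_nt.SP
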