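import Pool.Agent.Lib.MP_a17b09_nt.SP.Fin99
import Pool.Agent.Lib.MP_a17b09_nt.MRS.All3

/-!
Project SP (MP_a17b09_nt): the text of the hand-in ShortProgressions for the discriminants `-4 m ^ 2`
(unconditional), forms A and B.  The definitions are copies of those of the hand-in file.

Let `f t = a t ^ 2 + b t + c` be an integer quadratic polynomial with `a > 0` and discriminant
`-4 m ^ 2`, `m ≠ 0` (splitting field `ℚ(i)`, for example `f t = t ^ 2 + 1`).  If `d` divides `f t`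
then `d` divides all the values `f (t + j d)`.
-/

set_option autoImplicit false

open Filter Topology

namespace Pool.Agent.Lib.MP_a17b09_nt.SP.Final99

/-- A set of natural numbers has upper Banach logarithmic density zero: for every `ε > 0` and all
large `H`, the sum of `1 / n` over the `n` of the set with `N < n ≤ 2 ^ H N` is at most `ε H` for
all large `N`. -/
def LogNull (E : Set ℕ) : Prop :=
  ∀ ε : ℝ, 0 < ε → ∃ H₀ : ℕ, ∀ H : ℕ, H₀ ≤ H → ∃ N₀ : ℕ, ∀ N : ℕ, N₀ ≤ N →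
    ∑ n ∈ Finset.Ioc N (2 ^ H * N), E.indicator (fun n => (1 : ℝ) / n) n ≤ ε * H

/-- The number of pairs `(t, d)` with `1 ≤ t ≤ N`, `t ≡ t₀ mod h`, `d ∣ f t`, `α t ≤ d ≤ β t` and
`P t d`, where `f t = a t ^ 2 + b t + c`. -/
noncomputable def pairCount (a b c : ℤ) (h t₀ : ℕ) (α β : ℝ) (P : ℕ → ℕ → Prop) (N : ℕ) : ℕ :=
  ∑ t ∈ (Finset.Icc 1 N).filter (fun t => t ≡ t₀ [MOD h]),
    Set.ncard {d : ℕ | (d : ℤ) ∣ a * (t : ℤ) ^ 2 + b * t + c ∧ α * t ≤ d ∧ d ≤ β * t ∧ P t d}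

/-- the absolute value of `f n`, where `f n = a n ^ 2 + b n + c` -/
def val (a b c : ℤ) (n : ℕ) : ℕ := (a * (n : ℤ) ^ 2 + b * n + c).natAbs

/-- form A -/
theorem formA (a b c : ℤ) (ha : 0 < a) (hD : ∃ m : ℤ, m ≠ 0 ∧ 4 * a * c - b ^ 2 = 4 * m ^ 2)
    (h t₀ : ℕ) (hh : 0 < h) (α β : ℝ) (hα : 0 < α) (hαβ : α < β) :
    ∃ κ : ℝ, 0 < κ ∧
      Tendsto (fun N : ℕ => (pairCount a b c h t₀ α β (fun _ _ => True) N : ℝ) / N) atTop
        (𝓝 κ) ∧
      (∀ j l : ℕ, j ≠ l → ∀ r s : ℕ, ∀ ε : ℝ, 0 < ε → LogNull {N : ℕ | ε * N <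
        |(pairCount a b c h t₀ α β (fun t d =>
          ArithmeticFunction.cardFactors (val a b c (t + j * d)) ≡ r [MOD 2] ∧
          ArithmeticFunction.cardFactors (val a b c (t + l * d)) ≡ s [MOD 2]) N : ℝ)
            - κ / 4 * N|}) ∧
      (∀ k : ℕ, 0 < k → ∀ j l : ℕ, j ≠ l → ∀ r s : ℕ, ∀ ε : ℝ, 0 < ε → LogNull {N : ℕ | ε * N <
        |(pairCount a b c h t₀ α β (fun t d =>
          ArithmeticFunction.cardFactors (val a b c (t + j * d) / d) ≡ r [MOD k] ∧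
          ArithmeticFunction.cardFactors (val a b c (t + l * d) / d) ≡ s [MOD k]) N : ℝ)
            - κ / k ^ 2 * N|}) ∧
      ∀ k : ℕ, 0 < k → ∀ J : ℕ, 0 < J → ∀ η : ℝ, 0 < η →
        (∀ ε : ℝ, 0 < ε → LogNull {N : ℕ | (1 / (η ^ 2 * J) + ε) * κ * N <
          (pairCount a b c h t₀ α β (fun t d => ∃ r : ℕ, η * J < |(((Finset.range J).filter
            (fun j : ℕ => ArithmeticFunction.cardFactors (val a b c (t + j * d)) ≡ r [MOD k])).card
              : ℝ) - J / k|) N : ℝ)}) ∧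
        (1 < η ^ 2 * J → ∃ c' : ℝ, 0 < c' ∧ ∀ᶠ N : ℕ in atTop, c' * N ≤
          (pairCount a b c h t₀ α β (fun t d => ∀ r : ℕ, |(((Finset.range J).filter
            (fun j : ℕ => ArithmeticFunction.cardFactors (val a b c (t + j * d)) ≡ r [MOD k])).card
              : ℝ) - J / k| ≤ η * J) N : ℝ)) := by
  obtain ⟨m, hm, hmD⟩ := hD
  have hpos : 0 < m.natAbs := Int.natAbs_pos.2 hm
  have hd : 4 * a * c - b ^ 2 = ((4 * m.natAbs ^ 2 : ℕ) : ℤ) := by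
    rw [hmD]
    push_cast
    rw [sq_abs]
  exact Lib.MP_a17b09_nt.SP.fin_99 a b c (4 * m.natAbs ^ 2) ha (by positivity) hd
    (Lib.MP_a17b09_nt.SP.inA_sq Lib.MP_a17b09_nt.MRS.stCls_all m.natAbs) h t₀ hh α β hα hαβ

/-- form B -/
theorem formB (a b c : ℤ) (ha : 0 < a) (hD : ∃ m : ℤ, m ≠ 0 ∧ 4 * a * c - b ^ 2 = 4 * m ^ 2)
    (h t₀ : ℕ) (hh : 0 < h) (α β : ℝ) (hα : 0 < α) (hαβ : α < β) :
    ∃ κ : ℝ, 0 < κ ∧
      Tendsto (fun N : ℕ => (pairCount a b c h t₀ α β (fun _ _ => True) N : ℝ) / N) atTop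
        (𝓝 κ) ∧
      (∀ k : ℕ, 0 < k → ∀ j l : ℕ, j ≠ l → ∀ r s : ℕ, ∀ ε : ℝ, 0 < ε → LogNull {N : ℕ | ε * N <
        |(pairCount a b c h t₀ α β (fun t d =>
          ArithmeticFunction.cardFactors (val a b c (t + j * d) / d) ≡ r [MOD k] ∧
          ArithmeticFunction.cardFactors (val a b c (t + l * d) / d) ≡ s [MOD k]) N : ℝ)
            - κ / k ^ 2 * N|}) ∧
      ∀ k : ℕ, 0 < k → ∀ J : ℕ, 0 < J → ∀ η : ℝ, 0 < η →
        (∀ ε : ℝ, 0 < ε → LogNull {N : ℕ | (1 / (η ^ 2 * J) + ε) * κ * N <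
          (pairCount a b c h t₀ α β (fun t d => ∃ r : ℕ, η * J < |(((Finset.range J).filter
            (fun j : ℕ => ArithmeticFunction.cardFactors (val a b c (t + j * d)) ≡ r [MOD k])).card
              : ℝ) - J / k|) N : ℝ)}) ∧
        (1 < η ^ 2 * J → ∃ c' : ℝ, 0 < c' ∧ ∀ᶠ N : ℕ in atTop, c' * N ≤
          (pairCount a b c h t₀ α β (fun t d => ∀ r : ℕ, |(((Finset.range J).filter
            (fun j : ℕ => ArithmeticFunction.cardFactors (val a b c (t + j * d)) ≡ r [MOD k])).card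
              : ℝ) - J / k| ≤ η * J) N : ℝ)) := by
  obtain ⟨κ, hκ, h1, -, h2, h3⟩ := formA a b c ha hD h t₀ hh α β hα hαβ
  exact ⟨κ, hκ, h1, h2, h3⟩

end Pool.Agent.Lib.MP_a17b09_nt.SP.Final99
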