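import Pool.Agent.Lib.MP_a17b09_nt.SP.In99
import Pool.Agent.Lib.MP_a17b09_nt.MRSG.MrsG90

/-!
Project SP (MP_a17b09_nt): the input for every negative discriminant.
-/

set_option autoImplicit false

open Filter Topology Finset

namespace Pool.Agent.Lib.MP_a17b09_nt.SP

open Pool.Agent.Lib.MP_a17b09_nt.CH Pool.Agent.Lib.MP_a17b09_nt.MRS
open Pool.Agent.Lib.MP_a17b09_nt.MRSG

/-- the input from the theorem on thin sectors for all discriminants `-d m ^ 2` -/
theorem inA_G {d : ℕ} (hd : 0 < d) (h : ∀ e : ℕ, 0 < e → StMrsG e) : InA d := by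
  apply inA_of_es
  rintro ι _ S ⟨m, hm, hS⟩ z1 z2 k hk hz1 hz2 hz
  exact esAll_90 (h (d * m ^ 2) (by positivity)) ι S hS z1 z2 k hk hz1 hz2 hz

end Pool.Agent.Lib.MP_a17b09_nt.SP
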