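import Pool.Agent.Lib.MP_a17b09_nt.SP.StmtsSP99
import Pool.Agent.Lib.MP_a17b09_nt.CH.EndT98

/-!
Project SP, SP6a: the second moment of the number of `j < J` with `Ω (f (t + j d)) ≡ r mod k`.
-/

set_option autoImplicit false

open Filter Topology Finset

namespace Pool.Agent.Lib.MP_a17b09_nt.SP

open Pool.Agent.Lib.MP_a17b09_nt.CH

namespace SqP94

open EndT

theorem dvd_shift {a b c : ℤ} {t d : ℕ} (j : ℕ) (h : (d : ℤ) ∣ fv a b c t) :
    (d : ℤ) ∣ fv a b c (t + j * d) := by
  have h1 : fv a b c (t + j * d) =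
      fv a b c t + d * (2 * a * t * j + a * j ^ 2 * d + b * j) := by
    unfold fv
    push_cast
    ring
  rw [h1]
  exact dvd_add h (dvd_mul_right _ _)

theorem om_split {a b c : ℤ} (ha : 0 < a) (hD : b ^ 2 - 4 * a * c < 0) {t d : ℕ}
    (hd : d ∣ (fv a b c t).natAbs) (j : ℕ) :
    Om a b c (t + j * d) = Omn d + Omn (eslot a b c t d (some j)) := by
  have h1 : (d : ℤ) ∣ fv a b c (t + j * d) := dvd_shift j (Int.natCast_dvd.2 hd)
  have h2 : d ∣ (fv a b c (t + j * d)).natAbs := Int.natCast_dvd.1 h1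
  have hf0 : (fv a b c (t + j * d)).natAbs ≠ 0 :=
    Int.natAbs_ne_zero.2 (EndF64.fv_pos ha hD (t + j * d)).ne'
  have hd0 : d ≠ 0 := fun h0 => hf0 (Nat.eq_zero_of_zero_dvd (h0 ▸ h2))
  have he0 : (fv a b c (t + j * d)).natAbs / d ≠ 0 :=
    (Nat.div_pos (Nat.le_of_dvd (Nat.pos_of_ne_zero hf0) h2) (Nat.pos_of_ne_zero hd0)).ne'
  have h3 : (fv a b c (t + j * d)).natAbs = d * ((fv a b c (t + j * d)).natAbs / d) :=
    (Nat.mul_div_cancel' h2).symm
  show ArithmeticFunction.cardFactors (fv a b c (t + j * d)).natAbs =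
    ArithmeticFunction.cardFactors d +
      ArithmeticFunction.cardFactors ((fv a b c (t + j * d)).natAbs / d)
  conv_lhs => rw [h3]
  rw [ArithmeticFunction.cardFactors_mul hd0 he0]

open Classical in
/-- one class contains a given number -/
theorem sum_class {k : ℕ} (hk : 0 < k) (x y : ℕ) :
    ∑ r ∈ Finset.range k, ((if x ≡ r [MOD k] then (1 : ℝ) else 0) *
      (if y ≡ r [MOD k] then 1 else 0)) = if x ≡ y [MOD k] then 1 else 0 := by
  rw [Finset.sum_eq_single (x % k)]
  · rw [if_pos (Nat.mod_modEq x k).symm, one_mul]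
    by_cases h : x ≡ y [MOD k]
    · rw [if_pos h, if_pos (h.symm.trans (Nat.mod_modEq x k).symm)]
    · rw [if_neg h, if_neg]
      exact fun h1 => h ((h1.trans (Nat.mod_modEq x k)).symm)
  · intro i hi hne
    rw [if_neg, zero_mul]
    intro h1
    apply hne
    have h2 : i ≡ x % k [MOD k] := h1.symm.trans (Nat.mod_modEq x k).symm
    exact Nat.ModEq.eq_of_lt_of_lt h2 (Finset.mem_range.1 hi) (Nat.mod_lt _ hk)
  · intro hi
    exact absurd (Finset.mem_range.2 (Nat.mod_lt _ hk)) hi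

open Classical in
theorem sum_one {k : ℕ} (hk : 0 < k) (x : ℕ) :
    ∑ r ∈ Finset.range k, (if x ≡ r [MOD k] then (1 : ℝ) else 0) = 1 := by
  have h := sum_class hk x x
  rw [if_pos (Nat.ModEq.refl x)] at h
  refine Eq.trans (Finset.sum_congr rfl fun r _ => ?_) h
  by_cases hr : x ≡ r [MOD k]
  · rw [if_pos hr, one_mul]
  · rw [if_neg hr, zero_mul]

open Classical in
theorem sq_identity {k : ℕ} (hk : 0 < k) (J : ℕ) (x : ℕ → ℕ) :
    ∑ r ∈ Finset.range k,
      ((((Finset.range J).filter (fun j => x j ≡ r [MOD k])).card : ℝ) - J / k) ^ 2 =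
      ((J : ℝ) - J ^ 2 / k) + ∑ p ∈ (Finset.range J ×ˢ Finset.range J).filter
        (fun p => p.1 ≠ p.2), (if x p.1 ≡ x p.2 [MOD k] then (1 : ℝ) else 0) := by
  have hk' : (k : ℝ) ≠ 0 := by exact_mod_cast hk.ne'
  have e1 : ∀ r, (((Finset.range J).filter (fun j => x j ≡ r [MOD k])).card : ℝ) =
      ∑ j ∈ Finset.range J, (if x j ≡ r [MOD k] then (1 : ℝ) else 0) := by
    intro r
    rw [Finset.card_filter]
    push_cast
    rfl
  have e2 : ∑ r ∈ Finset.range k,
      (∑ j ∈ Finset.range J, (if x j ≡ r [MOD k] then (1 : ℝ) else 0)) = J := by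
    rw [Finset.sum_comm]
    rw [Finset.sum_congr rfl fun j _ => sum_one hk (x j)]
    simp
  have e3 : ∑ r ∈ Finset.range k,
      (∑ j ∈ Finset.range J, (if x j ≡ r [MOD k] then (1 : ℝ) else 0)) ^ 2 =
      ∑ p ∈ Finset.range J ×ˢ Finset.range J, (if x p.1 ≡ x p.2 [MOD k] then (1 : ℝ) else 0) := by
    rw [Finset.sum_product]
    have : ∀ r, (∑ j ∈ Finset.range J, (if x j ≡ r [MOD k] then (1 : ℝ) else 0)) ^ 2 =
        ∑ j ∈ Finset.range J, ∑ l ∈ Finset.range J,
          ((if x j ≡ r [MOD k] then (1 : ℝ) else 0) * (if x l ≡ r [MOD k] then 1 else 0)) := by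
      intro r
      rw [sq, Finset.sum_mul_sum]
    rw [Finset.sum_congr rfl fun r _ => this r, Finset.sum_comm]
    refine Finset.sum_congr rfl fun j _ => ?_
    rw [Finset.sum_comm]
    exact Finset.sum_congr rfl fun l _ => sum_class hk _ _
  have e4 : ∑ p ∈ Finset.range J ×ˢ Finset.range J,
      (if x p.1 ≡ x p.2 [MOD k] then (1 : ℝ) else 0) = J +
      ∑ p ∈ (Finset.range J ×ˢ Finset.range J).filter
        (fun p => p.1 ≠ p.2), (if x p.1 ≡ x p.2 [MOD k] then (1 : ℝ) else 0) := by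
    rw [← Finset.sum_filter_add_sum_filter_not (Finset.range J ×ˢ Finset.range J)
      (fun p => p.1 = p.2)]
    congr 1
    have h1 : (Finset.range J ×ˢ Finset.range J).filter (fun p => p.1 = p.2) =
        (Finset.range J).image (fun j => (j, j)) := by
      ext ⟨p, q⟩
      simp only [Finset.mem_filter, Finset.mem_product, Finset.mem_range, Finset.mem_image,
        Prod.mk.injEq]
      constructor
      · rintro ⟨⟨h1, h2⟩, h3⟩
        exact ⟨p, h1, rfl, h3⟩
      · rintro ⟨j, h1, h2, h3⟩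
        omega
    rw [h1, Finset.sum_image (by
      intro x _ y _ hxy
      exact (Prod.mk.inj hxy).1)]
    simp only [Nat.ModEq.refl, if_true, Finset.sum_const, Finset.card_range, nsmul_eq_mul,
      mul_one]
  simp only [e1]
  have e5 : ∀ y : ℝ, (y - J / k) ^ 2 = y ^ 2 - 2 * (J / k) * y + (J / k) ^ 2 := fun y => by ring
  simp only [e5]
  rw [Finset.sum_add_distrib, Finset.sum_sub_distrib, ← Finset.mul_sum, e2, e3, e4,
    Finset.sum_const, Finset.card_range, nsmul_eq_mul]
  field_simp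
  ring

end SqP94

open SqP94 EndT in
/-- (SP6a) -/
theorem stSqP_94 (hP : StPairP) (hOn : StOn) : StSqP := by
  classical
  intro a b c d ha hd hdd hA k hk h hh t0 α β κ hα hαβ hlim J M
  have hD : b ^ 2 - 4 * a * c < 0 := by
    have : (0 : ℤ) < d := by exact_mod_cast hd
    linarith
  obtain ⟨B, hB⟩ := hOn a b c ha hD h hh t0 α β hα hαβ
  have hbd : ∀ P : ℕ → ℕ → Prop, Bdd (fun N : ℕ => (pairCount a b c h t0 α β P N : ℝ) / N) := by
    intro P
    refine ⟨|B|, fun N => ?_⟩
    rw [abs_div, Nat.abs_cast, Nat.abs_cast]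
    rcases Nat.eq_zero_or_pos N with h0 | h0
    · subst h0; simp
    · have hN : (0 : ℝ) < N := by exact_mod_cast h0
      rw [div_le_iff₀ hN]
      have h1 : (pairCount a b c h t0 α β P N : ℝ) ≤
          ((∑ t ∈ (Finset.Icc 1 N).filter (fun t => t ≡ t0 [MOD h]),
            (nearG a b c α β t).card : ℕ) : ℝ) := by exact_mod_cast count_le ha hD P N
      refine h1.trans ((hB N).trans ?_)
      exact mul_le_mul_of_nonneg_right (le_abs_self B) hN.le
  -- the index set
  set I : Finset (ℕ × ℕ) := (Finset.range J ×ˢ Finset.range J).filter (fun p => p.1 ≠ p.2) with hI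
  set pc : ℕ × ℕ → ℕ → ℕ → ℝ := fun p r N => (pairCount a b c h t0 α β (fun t d =>
    Omn (eslot a b c t d (some p.1)) ≡ r [MOD k] ∧
      Omn (eslot a b c t d (some p.2)) ≡ r [MOD k]) N : ℝ) with hpc
  set pT : ℕ → ℝ := fun N => (pairCount a b c h t0 α β (fun _ _ => True) N : ℝ) with hpT
  -- the identity
  have key : ∀ N, SqP a b c α β h t0 J k N = ((J : ℝ) - J ^ 2 / k) * pT N +
      ∑ p ∈ I, ∑ r ∈ Finset.range k, pc p r N := by
    intro N
    have e1 : pT N = ∑ t ∈ (Finset.Icc 1 N).filter (fun t => t ≡ t0 [MOD h]),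
        ∑ d ∈ nearG a b c α β t, (1 : ℝ) := by
      rw [hpT]
      simp only
      rw [count_eq ha hD]
      push_cast
      refine Finset.sum_congr rfl fun t _ => ?_
      rw [Finset.filter_true_of_mem (fun _ _ => trivial)]
      simp
    have e2 : ∀ p r, pc p r N = ∑ t ∈ (Finset.Icc 1 N).filter (fun t => t ≡ t0 [MOD h]),
        ∑ d ∈ nearG a b c α β t, ((if Omn (eslot a b c t d (some p.1)) ≡ r [MOD k] then (1 : ℝ)
          else 0) * (if Omn (eslot a b c t d (some p.2)) ≡ r [MOD k] then 1 else 0)) := by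
      intro p r
      rw [hpc]
      simp only
      rw [count_eq ha hD]
      push_cast
      refine Finset.sum_congr rfl fun t _ => ?_
      rw [Finset.card_filter]
      push_cast
      refine Finset.sum_congr rfl fun d _ => ?_
      by_cases h1 : Omn (eslot a b c t d (some p.1)) ≡ r [MOD k] <;>
        by_cases h2 : Omn (eslot a b c t d (some p.2)) ≡ r [MOD k] <;> simp [h1, h2]
    have e3 : ∑ p ∈ I, ∑ r ∈ Finset.range k, pc p r N =
        ∑ t ∈ (Finset.Icc 1 N).filter (fun t => t ≡ t0 [MOD h]),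
        ∑ d ∈ nearG a b c α β t, ∑ p ∈ I,
          (if Omn (eslot a b c t d (some p.1)) ≡ Omn (eslot a b c t d (some p.2)) [MOD k]
            then (1 : ℝ) else 0) := by
      simp only [e2]
      rw [Finset.sum_congr rfl fun p _ => Finset.sum_comm, Finset.sum_comm]
      refine Finset.sum_congr rfl fun t _ => ?_
      rw [Finset.sum_congr rfl fun p _ => Finset.sum_comm, Finset.sum_comm]
      refine Finset.sum_congr rfl fun d _ => ?_
      exact Finset.sum_congr rfl fun p _ => sum_class hk _ _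
    rw [e3, e1, Finset.mul_sum, ← Finset.sum_add_distrib]
    unfold SqP
    refine Finset.sum_congr rfl fun t _ => ?_
    rw [Finset.mul_sum, ← Finset.sum_add_distrib]
    refine Finset.sum_congr rfl fun d hd' => ?_
    have hd1 : d ∣ (fv a b c t).natAbs := Nat.dvd_of_mem_divisors (Finset.mem_filter.1 hd').1
    unfold cntJ
    rw [sq_identity hk J (fun j => Om a b c (t + j * d)), mul_one]
    congr 1
    refine Finset.sum_congr rfl fun p _ => ?_
    have h1 : Om a b c (t + p.1 * d) ≡ Om a b c (t + p.2 * d) [MOD k] ↔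
        Omn (eslot a b c t d (some p.1)) ≡ Omn (eslot a b c t d (some p.2)) [MOD k] := by
      rw [om_split ha hD hd1, om_split ha hD hd1]
      exact ⟨fun h => Nat.ModEq.add_left_cancel' _ h, fun h => Nat.ModEq.add_left _ h⟩
    simp only [h1]
  have hk' : (k : ℝ) ≠ 0 := by exact_mod_cast hk.ne'
  have hIcard : (I.card : ℝ) = J * (J - 1) := by
    have h1 : I = (Finset.range J).offDiag := by
      ext ⟨p, q⟩
      simp only [hI, Finset.mem_filter, Finset.mem_product, Finset.mem_offDiag]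
      tauto
    rw [h1, Finset.offDiag_card, Finset.card_range]
    rw [Nat.cast_sub (Nat.le_mul_self J)]
    push_cast
    ring
  have key2 : ∀ N : ℕ, SqP a b c α β h t0 J k N / N - κ * (J * (1 - 1 / k)) =
      ((J : ℝ) - J ^ 2 / k) * (pT N / N - κ) +
      ∑ p ∈ I, ∑ r ∈ Finset.range k, (pc p r N / N - κ / k ^ 2) := by
    intro N
    have e1 : ∑ p ∈ I, ∑ r ∈ Finset.range k, (pc p r N / N - κ / k ^ 2) =
        (∑ p ∈ I, ∑ r ∈ Finset.range k, pc p r N) / N - J * (J - 1) * κ / k := by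
      rw [Finset.sum_div]
      simp only [Finset.sum_sub_distrib, Finset.sum_const, Finset.card_range, nsmul_eq_mul,
        Finset.sum_div, hIcard]
      field_simp
    rw [e1, key N]
    field_simp
    ring
  have hb1 : Bdd (fun N : ℕ => |pT N / N - κ|) := ((hbd _).sub (Bdd.const _)).abs
  have hb2 : ∀ p r, Bdd (fun N : ℕ => |pc p r N / N - κ / k ^ 2|) := fun p r =>
    ((hbd _).sub (Bdd.const _)).abs
  have h1 : M.E (fun N : ℕ => |pT N / N - κ|) = 0 := by
    refine M.null _ hb1 ?_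
    have := (hlim.sub_const κ).abs
    simpa using this
  have h2 : ∀ p ∈ I, ∀ r, M.E (fun N : ℕ => |pc p r N / N - κ / k ^ 2|) = 0 := by
    intro p hp r
    have hne : (some p.1 : Option ℕ) ≠ some p.2 := by
      intro h3
      exact (Finset.mem_filter.1 hp).2 (Option.some.inj h3)
    exact hP a b c d ha hd hdd hA k hk h hh t0 α β κ hα hαβ hlim (some p.1) (some p.2) hne r r M
  have hb3 : ∀ p ∈ I, Bdd (fun N : ℕ => ∑ r ∈ Finset.range k, |pc p r N / N - κ / k ^ 2|) :=
    fun p _ => Bdd.sum _ _ fun r _ => hb2 p r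
  have hb4 : Bdd (fun N : ℕ => ∑ p ∈ I, ∑ r ∈ Finset.range k, |pc p r N / N - κ / k ^ 2|) :=
    Bdd.sum _ _ hb3
  have hb5 : Bdd (fun N : ℕ => SqP a b c α β h t0 J k N / N - κ * (J * (1 - 1 / k))) := by
    simp only [key2]
    exact (Bdd.smul _ ((hbd _).sub (Bdd.const _))).add
      (Bdd.sum _ _ fun p _ => Bdd.sum _ _ fun r _ => (hbd _).sub (Bdd.const _))
  refine le_antisymm ?_ (M.nonneg _ hb5.abs fun N => abs_nonneg _)
  have h3 : M.E (fun N : ℕ => |SqP a b c α β h t0 J k N / N - κ * (J * (1 - 1 / k))|) ≤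
      M.E (fun N : ℕ => |(J : ℝ) - J ^ 2 / k| * |pT N / N - κ| +
        ∑ p ∈ I, ∑ r ∈ Finset.range k, |pc p r N / N - κ / k ^ 2|) := by
    refine M.mono hb5.abs ((Bdd.smul _ hb1).add hb4) fun N => ?_
    rw [key2 N]
    refine (abs_add_le _ _).trans (add_le_add (abs_mul _ _).le ?_)
    refine (Finset.abs_sum_le_sum_abs _ _).trans (Finset.sum_le_sum fun p _ => ?_)
    exact Finset.abs_sum_le_sum_abs _ _
  refine h3.trans (le_of_eq ?_)
  rw [M.add _ _ (Bdd.smul _ hb1) hb4, M.smul _ _ hb1, h1, M.sum _ _ hb3]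
  rw [Finset.sum_congr rfl fun p hp => M.sum _ _ fun r _ => hb2 p r]
  rw [Finset.sum_congr rfl fun p hp => Finset.sum_congr rfl fun r _ => h2 p hp r]
  simp

end Pool.Agent.Lib.MP_a17b09_nt.SP
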