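import Pool.Agent.Lib.MP_a17b09_nt.CH.TopM98
import Pool.Agent.Lib.MP_a17b09_nt.CH.EndS98

/-!
Project SP (MP_a17b09_nt): short progressions.  `f t = a t ^ 2 + b t + c`, `a > 0`,
`b ^ 2 - 4 a c < 0`.  If `d` divides `f t` then `d` divides `f (t + j d)` for every `j`.  The pairs
`(t, d)` are frames `(w, w')` with `q w = d`, and `a f (t + j d) / d = q (w' + j a w)`.

Statements of the modules.
-/

set_option autoImplicit false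

open Filter Topology Finset

namespace Pool.Agent.Lib.MP_a17b09_nt.SP

open Pool.Agent.Lib.MP_a17b09_nt.CH

/-- the input: Theorem A, strong form, for all systems of discriminants `-d m ^ 2` and all pairs of
roots of unity different from `(1, 1)` -/
def InA (d : ℕ) : Prop := ∀ (ι : Type) [Fintype ι] (S : System ι),
  (∃ m : ℕ, 0 < m ∧ S.d = d * m ^ 2) → ∀ (z1 z2 : ℂ) (k : ℕ), 0 < k → z1 ^ k = 1 → z2 ^ k = 1 →
  (z1 ≠ 1 ∨ z2 ≠ 1) → ∀ (K : ℕ), 0 < K → ∀ om : ι → V → V → ℂ, Wt S K om →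
  ∀ M : LMean, NullM M S.Q (kerT S z1 z2 om)

/-- the vector `p w + r w'` for `e = (p, r)` -/
def lin (e : ℕ × ℕ) (w w' : V) : V :=
  ((e.1 : ℤ) * w.1 + (e.2 : ℤ) * w'.1, (e.1 : ℤ) * w.2 + (e.2 : ℤ) * w'.2)

/-- the kernel with the values at two vectors `e1`, `e2` of the frame -/
noncomputable def kerL {ι : Type} (S : System ι) (z1 z2 : ℂ) (e1 e2 : ℕ × ℕ)
    (om : ι → V → V → ℂ) (i : ι) (w w' : V) : ℂ :=
  om i w w' * gz z1 (S.Q i) (lin e1 w w') * gz z2 (S.Q i) (lin e2 w w')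

/-- admissible pairs: `(c1, 1), (c2, 1)` with `c2 < c1`, and `(1, 0), (c, 1)` -/
def Adm (e1 e2 : ℕ × ℕ) : Prop :=
  (e1.2 = 1 ∧ e2.2 = 1 ∧ e2.1 < e1.1) ∨ (e1 = (1, 0) ∧ e2.2 = 1)

/-- (SP1) the system `S ^ (m)`: with `v = lin e1 (w, w')`, `v' = lin e2 (w, w')` the frames
`(w, w')` of the form `i` correspond to the frames `(x, x')` of the forms `(i, r)`, `r = v mod m`,
with `x_1 = x'_1 = 1 mod m`, where `v = γ x`, `v' = γ x'`, `γ = σ diag (1, m)`, `σ e_1 = r mod m`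
(no hypothesis) -/
def StSysL : Prop := ∀ (ι : Type) [Fintype ι] (S : System ι) (e1 e2 : ℕ × ℕ), Adm e1 e2 →
  ∀ m : ℕ, m + e2.1 * e1.2 = e1.1 * e2.2 → ∀ (K : ℕ), 0 < K → ∀ om : ι → V → V → ℂ, Wt S K om →
  ∃ (ι' : Type) (_ : Fintype ι') (S' : System ι') (K' : ℕ) (om' : ι' → V → V → ℂ)
    (P : Set (ι' × V × V)) (T : ι' × V × V → ι × V × V),
    S'.d = S.d * m ^ 2 ∧ 0 < K' ∧ Wt S' K' om' ∧
    (∀ t ∈ P, wd t.2.1 t.2.2 = 1) ∧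
    (∀ t, t ∉ P → wd t.2.1 t.2.2 = 1 → om' t.1 t.2.1 t.2.2 = 0) ∧
    Set.BijOn T P {f : ι × V × V | wd f.2.1 f.2.2 = 1} ∧
    ∀ t ∈ P, om' t.1 t.2.1 t.2.2 = om (T t).1 (T t).2.1 (T t).2.2 ∧
      (S'.Q t.1).q t.2.1 = (S.Q (T t).1).q (lin e1 (T t).2.1 (T t).2.2) ∧
      (S'.Q t.1).q t.2.2 = (S.Q (T t).1).q (lin e2 (T t).2.1 (T t).2.2) ∧
      (S'.Q t.1).B t.2.1 t.2.2 =
        (S.Q (T t).1).B (lin e1 (T t).2.1 (T t).2.2) (lin e2 (T t).2.1 (T t).2.2)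

/-- the scale of the change of region -/
def kp (e1 e2 : ℕ × ℕ) : ℕ := e1.1 + e1.2 + e2.1 + e2.2

/-- the transformed test function -/
noncomputable def hL (e1 e2 : ℕ × ℕ) (m : ℕ) (h : ℝ → ℝ → ℝ) (x y : ℝ) : ℝ :=
  h (kp e1 e2 * (e2.2 * x - e1.2 * y) / m) (kp e1 e2 * (e1.1 * y - e2.1 * x) / m)

/-- (SP2a) the transformed function is a test function (no hypothesis) -/
def StTestL : Prop := ∀ (e1 e2 : ℕ × ℕ) (m : ℕ), 0 < m → m + e2.1 * e1.2 = e1.1 * e2.2 →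
  ∀ (δ : ℝ) (h : ℝ → ℝ → ℝ), 0 < δ → Test δ h → 0 < kp e1 e2 ∧
    ∃ δ' : ℝ, 0 < δ' ∧ Test δ' (hL e1 e2 m h)

open Classical in
/-- (SP2b) the change of region, summed over all frames (use `StLine` / `StC0` for the number of
frames; `|v| = p |w| + r |w'| + O (1 / n ^ (3/2))`) -/
def StReg : Prop := ∀ Q : Form, Q.Pos → ∀ (e1 e2 : ℕ × ℕ) (m : ℕ), 0 < m →
  m + e2.1 * e1.2 = e1.1 * e2.2 → ∀ (δ : ℝ) (h : ℝ → ℝ → ℝ), 0 < δ → Test δ h →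
  ∃ (C : ℝ) (n0 : ℕ), ∀ n : ℕ, n0 ≤ n → ∀ F : Finset (V × V), (∀ f ∈ F, wd f.1 f.2 = 1) →
    ∑ f ∈ F, |(if 0 < Q.B f.1 f.2 then h (Q.nr n f.1) (Q.nr n f.2) else 0) -
      (if 0 < Q.B (lin e1 f.1 f.2) (lin e2 f.1 f.2) then
        hL e1 e2 m h (Q.nr ((kp e1 e2 : ℝ) ^ 2 * n) (lin e1 f.1 f.2))
          (Q.nr ((kp e1 e2 : ℝ) ^ 2 * n) (lin e2 f.1 f.2)) else 0)| ≤ C

/-- (SP3) Theorem A for the kernel `kerL` (from `StSysL`, `StTestL`, `StReg`, `StC0`, `StMd`) -/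
def StNullL : Prop := ∀ d : ℕ, 0 < d → InA d → ∀ (ι : Type) [Fintype ι] (S : System ι), S.d = d →
  ∀ (z1 z2 : ℂ) (k : ℕ), 0 < k → z1 ^ k = 1 → z2 ^ k = 1 → (z1 ≠ 1 ∨ z2 ≠ 1) →
  ∀ (e1 e2 : ℕ × ℕ), Adm e1 e2 → ∀ (K : ℕ), 0 < K → ∀ om : ι → V → V → ℂ, Wt S K om →
  ∀ M : LMean, NullM M S.Q (kerL S z1 z2 e1 e2 om)

/-- the divisor `d` (slot `none`) and the cofactors `f (t + j d) / d` (slots `some j`) -/
def eslot (a b c : ℤ) (t d : ℕ) : Option ℕ → ℕ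
  | none => d
  | some j => (fv a b c (t + j * d)).natAbs / d

/-- the vector of a slot -/
def vslot (a : ℤ) : Option ℕ → ℕ × ℕ
  | none => (1, 0)
  | some j => (j * a.natAbs, 1)

/-- the twisted sum up to `N` for two slots -/
noncomputable def TwP (a b c : ℤ) (α β : ℝ) (h t0 : ℕ) (z1 z2 : ℂ) (o1 o2 : Option ℕ)
    (N : ℕ) : ℂ :=
  ∑ t ∈ (Finset.Icc 1 N).filter (fun t => t ≡ t0 [MOD h]), ∑ d ∈ nearG a b c α β t,
    z1 ^ Omn (eslot a b c t d o1) * z2 ^ Omn (eslot a b c t d o2)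

/-- (SP4) the twisted theorem (from `StNullL`, `StFm`, `StOn`; copy of `stTwM_68`) -/
def StTwP : Prop := ∀ (a b c : ℤ) (d : ℕ), 0 < a → 0 < d → 4 * a * c - b ^ 2 = d → InA d →
  ∀ (z1 z2 : ℂ) (k : ℕ), 0 < k → z1 ^ k = 1 → z2 ^ k = 1 → (z1 ≠ 1 ∨ z2 ≠ 1) → ∀ (h : ℕ), 0 < h →
  ∀ (t0 : ℕ) (α β : ℝ), 0 < α → α < β → ∀ o1 o2 : Option ℕ, o1 ≠ o2 →
  ∀ M : LMean, M.E (fun N : ℕ => ‖TwP a b c α β h t0 z1 z2 o1 o2 N‖ / N) = 0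

/-- (SP5) the law of two slots (from `StTwP`, `StOn`): the limit `κ` of the number of all pairs
divided by `N` is a parameter -/
def StPairP : Prop := ∀ (a b c : ℤ) (d : ℕ), 0 < a → 0 < d → 4 * a * c - b ^ 2 = d → InA d →
  ∀ (k : ℕ), 0 < k → ∀ (h : ℕ), 0 < h → ∀ (t0 : ℕ) (α β κ : ℝ), 0 < α → α < β →
  Tendsto (fun N : ℕ => (pairCount a b c h t0 α β (fun _ _ => True) N : ℝ) / N) atTop (𝓝 κ) →
  ∀ o1 o2 : Option ℕ, o1 ≠ o2 → ∀ (r s : ℕ) (M : LMean),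
  M.E (fun N : ℕ => |(pairCount a b c h t0 α β (fun t d => Omn (eslot a b c t d o1) ≡ r [MOD k] ∧
    Omn (eslot a b c t d o2) ≡ s [MOD k]) N : ℝ) / N - κ / k ^ 2|) = 0

/-- the number of `j < J` with `Ω (f (t + j d)) ≡ r mod k` -/
def cntJ (a b c : ℤ) (J k r t d : ℕ) : ℕ :=
  ((Finset.range J).filter (fun j => Om a b c (t + j * d) ≡ r [MOD k])).card

/-- the sum of the squares of the deviations over the pairs up to `N` -/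
noncomputable def SqP (a b c : ℤ) (α β : ℝ) (h t0 J k : ℕ) (N : ℕ) : ℝ :=
  ∑ t ∈ (Finset.Icc 1 N).filter (fun t => t ≡ t0 [MOD h]), ∑ d ∈ nearG a b c α β t,
    ∑ r ∈ Finset.range k, ((cntJ a b c J k r t d : ℝ) - J / k) ^ 2

/-- (SP6a) the second moment (from `StPairP`, `StOn`) -/
def StSqP : Prop := ∀ (a b c : ℤ) (d : ℕ), 0 < a → 0 < d → 4 * a * c - b ^ 2 = d → InA d →
  ∀ (k : ℕ), 0 < k → ∀ (h : ℕ), 0 < h → ∀ (t0 : ℕ) (α β κ : ℝ), 0 < α → α < β →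
  Tendsto (fun N : ℕ => (pairCount a b c h t0 α β (fun _ _ => True) N : ℝ) / N) atTop (𝓝 κ) →
  ∀ (J : ℕ) (M : LMean),
  M.E (fun N : ℕ => |SqP a b c α β h t0 J k N / N - κ * (J * (1 - 1 / k))|) = 0

/-- (SP6b) the final statement (from `StPairP`, `StSqP`, `StMainS`, `StMeanU`, `StOn`) -/
def StEndP : Prop := ∀ (a b c : ℤ) (d : ℕ), 0 < a → 0 < d → 4 * a * c - b ^ 2 = d → InA d →
  ∀ (h : ℕ), 0 < h → ∀ (t0 : ℕ) (α β : ℝ), 0 < α → α < β → ∃ κ : ℝ, 0 < κ ∧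
  Tendsto (fun N : ℕ => (pairCount a b c h t0 α β (fun _ _ => True) N : ℝ) / N) atTop (𝓝 κ) ∧
  (∀ k : ℕ, 0 < k → ∀ r s : ℕ, ∀ ε : ℝ, 0 < ε →
    (∀ j : ℕ, LogNull {N : ℕ | ε * N < |(pairCount a b c h t0 α β (fun t d =>
      ArithmeticFunction.cardFactors d ≡ r [MOD k] ∧
      ArithmeticFunction.cardFactors ((a * ((t + j * d : ℕ) : ℤ) ^ 2 + b * ((t + j * d : ℕ) : ℤ)
        + c).natAbs / d) ≡ s [MOD k]) N : ℝ) - κ / k ^ 2 * N|}) ∧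
    ∀ j l : ℕ, j ≠ l → LogNull {N : ℕ | ε * N < |(pairCount a b c h t0 α β (fun t d =>
      ArithmeticFunction.cardFactors ((a * ((t + j * d : ℕ) : ℤ) ^ 2 + b * ((t + j * d : ℕ) : ℤ)
        + c).natAbs / d) ≡ r [MOD k] ∧
      ArithmeticFunction.cardFactors ((a * ((t + l * d : ℕ) : ℤ) ^ 2 + b * ((t + l * d : ℕ) : ℤ)
        + c).natAbs / d) ≡ s [MOD k]) N : ℝ) - κ / k ^ 2 * N|}) ∧
  ∀ k : ℕ, 0 < k → ∀ J : ℕ, 0 < J → ∀ η : ℝ, 0 < η →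
    (∀ ε : ℝ, 0 < ε → LogNull {N : ℕ | (1 / (η ^ 2 * J) + ε) * κ * N <
      (pairCount a b c h t0 α β (fun t d =>
        ∃ r : ℕ, η * J < |(((Finset.range J).filter (fun j : ℕ => ArithmeticFunction.cardFactors
          (a * ((t + j * d : ℕ) : ℤ) ^ 2 + b * ((t + j * d : ℕ) : ℤ) + c).natAbs
            ≡ r [MOD k])).card : ℝ) - J / k|) N : ℝ)}) ∧
    (1 < η ^ 2 * J → ∃ c' : ℝ, 0 < c' ∧ ∀ᶠ N : ℕ in atTop, c' * N ≤
      (pairCount a b c h t0 α β (fun t d =>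
        ∀ r : ℕ, |(((Finset.range J).filter (fun j : ℕ => ArithmeticFunction.cardFactors
          (a * ((t + j * d : ℕ) : ℤ) ^ 2 + b * ((t + j * d : ℕ) : ℤ) + c).natAbs
            ≡ r [MOD k])).card : ℝ) - J / k| ≤ η * J) N : ℝ))

end Pool.Agent.Lib.MP_a17b09_nt.SP
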